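import Mathlib

/-!
# Isomorphisms modulo null sets between measure spaces
-/

open Set Filter Topology MeasureTheory MeasurableSpace

namespace GenInf

/-- An isomorphism modulo null sets between two measure spaces. -/
structure AEIso {X Y : Type*} [MeasurableSpace X] [MeasurableSpace Y] (μ : Measure X)
    (ν : Measure Y) where
  fwd : X → Y
  bwd : Y → X
  mp : MeasurePreserving fwd μ ν
  mpi : MeasurePreserving bwd ν μ
  li : ∀ᵐ x ∂μ, bwd (fwd x) = x
  ri : ∀ᵐ y ∂ν, fwd (bwd y) = y

namespace AEIso

variable {X Y Z : Type*} [MeasurableSpace X] [MeasurableSpace Y] [MeasurableSpace Z]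
  {μ : Measure X} {ν : Measure Y} {ρ : Measure Z}

/-- Inverse. -/
def symm (T : AEIso μ ν) : AEIso ν μ := ⟨T.bwd, T.fwd, T.mpi, T.mp, T.ri, T.li⟩

/-- Composition. -/
def trans (T : AEIso μ ν) (S : AEIso ν ρ) : AEIso μ ρ where
  fwd := S.fwd ∘ T.fwd
  bwd := T.bwd ∘ S.bwd
  mp := S.mp.comp T.mp
  mpi := T.mpi.comp S.mpi
  li := by
    have h := T.mp.quasiMeasurePreserving.ae S.li
    filter_upwards [h, T.li] with x hx hx'
    simp only [Function.comp_apply]
    rw [hx, hx']
  ri := by
    have h := S.mpi.quasiMeasurePreserving.ae T.ri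
    filter_upwards [h, S.ri] with x hx hx'
    simp only [Function.comp_apply]
    rw [hx, hx']

/-- An exact measure-preserving measurable equivalence gives an isomorphism. -/
def ofEquiv (T : X ≃ᵐ Y) (h : MeasurePreserving T μ ν) : AEIso μ ν where
  fwd := T
  bwd := T.symm
  mp := h
  mpi := h.symm T
  li := Eventually.of_forall fun x => T.symm_apply_apply x
  ri := Eventually.of_forall fun x => T.apply_symm_apply x

/-- Constructor from a measure preserving map and a measurable left inverse. -/
def mkOfLeft [StandardBorelSpace Y] (fwd : X → Y) (bwd : Y → X)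
    (mp : MeasurePreserving fwd μ ν) (hinv : Measurable bwd) (li : ∀ᵐ x ∂μ, bwd (fwd x) = x) :
    AEIso μ ν where
  fwd := fwd
  bwd := bwd
  mp := mp
  mpi := by
    refine ⟨hinv, ?_⟩
    rw [← mp.map_eq, Measure.map_map hinv mp.measurable]
    have : bwd ∘ fwd =ᵐ[μ] id := li
    rw [Measure.map_congr this, Measure.map_id]
  li := li
  ri := by
    rw [← mp.map_eq]
    have hm : MeasurableSet {y | fwd (bwd y) = y} :=
      measurableSet_eq_fun (mp.measurable.comp hinv) measurable_id
    rw [ae_map_iff mp.measurable.aemeasurable hm]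
    filter_upwards [li] with x hx
    rw [hx]

end AEIso

section Real

variable {X Y : Type*} [MeasurableSpace X] [MeasurableSpace Y]

/-- Measurable left inverse of a measurable map which is injective on a measurable set. -/
theorem exists_measurable_leftInverse [StandardBorelSpace X] [StandardBorelSpace Y] [Nonempty X]
    {f : X → Y} (hf : Measurable f) {s : Set X} (hs : MeasurableSet s) (hinj : InjOn f s) :
    ∃ g : Y → X, Measurable g ∧ ∀ x ∈ s, g (f x) = x := by
  have : StandardBorelSpace s := hs.standardBorel
  have hemb : MeasurableEmbedding (s.domRestrict f) :=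
    (hf.comp measurable_subtype_coe).measurableEmbedding (injOn_iff_injective.1 hinj)
  obtain ⟨g, hg, hgf⟩ := hemb.exists_measurable_extend
    (measurable_subtype_coe : Measurable (Subtype.val : s → X)) (fun _ => inferInstance)
  refine ⟨g, hg, fun x hx => ?_⟩
  have := congrFun hgf ⟨x, hx⟩
  simpa using! this

/-- The distribution function of an atomless finite measure on the line. -/
theorem continuous_real_Iic (ν : Measure ℝ) [IsFiniteMeasure ν] [NullSingletonClass ν] :
    Continuous fun x => ν.real (Iic x) := by
  rw [continuous_iff_continuousAt]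
  intro b
  rw [Metric.continuousAt_iff]
  intro ε hε
  have h := tendsto_measure_Icc (μ := ν) b
  have h2 : ∀ᶠ δ in 𝓝 (0 : ℝ), ν (Icc (b - δ) (b + δ)) < ENNReal.ofReal ε :=
    h.eventually (gt_mem_nhds (by positivity))
  obtain ⟨r, hr, hr'⟩ := Metric.eventually_nhds_iff.1 h2
  refine ⟨r, hr, fun {x} hx => ?_⟩
  have hx' : ν (Icc (b - |x - b|) (b + |x - b|)) < ENNReal.ofReal ε := by
    apply hr'
    rw [Real.dist_eq, sub_zero, abs_abs]
    exact hx
  have hxr : ν.real (Icc (b - |x - b|) (b + |x - b|)) < ε := by
    rw [Measure.real]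
    exact (ENNReal.toReal_lt_of_lt_ofReal hx')
  rw [Real.dist_eq]
  have hmono : ∀ u v : ℝ, u ≤ v → ν.real (Iic v) - ν.real (Iic u) = ν.real (Ioc u v) := by
    intro u v huv
    have : Iic v = Iic u ∪ Ioc u v := (Iic_union_Ioc_eq_Iic huv).symm
    rw [this, measureReal_union (by
      rw [Set.disjoint_left]; intro z hz hz'; exact absurd hz (not_le.2 hz'.1)) measurableSet_Ioc]
    ring
  rcases le_total x b with hxb | hxb
  · have h1 := hmono x b hxb
    rw [abs_sub_comm, h1, abs_of_nonneg measureReal_nonneg]
    refine lt_of_le_of_lt (measureReal_mono ?_) hxr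
    intro z hz
    rw [abs_of_nonpos (by linarith)]
    constructor <;> [skip; skip] <;> rcases hz with ⟨hz1, hz2⟩ <;> linarith
  · have h1 := hmono b x hxb
    rw [h1, abs_of_nonneg measureReal_nonneg]
    refine lt_of_le_of_lt (measureReal_mono ?_) hxr
    intro z hz
    rw [abs_of_nonneg (by linarith)]
    rcases hz with ⟨hz1, hz2⟩
    constructor <;> linarith

theorem measure_sublevel (ν : Measure ℝ) [IsFiniteMeasure ν] [NullSingletonClass ν] (u : ℝ) :
    ν {x | ν.real (Iic x) ≤ u} = volume (Iic u ∩ Icc 0 (ν.real univ)) := by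
  set F : ℝ → ℝ := fun x => ν.real (Iic x) with hF
  have hFc : Continuous F := continuous_real_Iic ν
  have hFm : Monotone F := fun a b hab => measureReal_mono (Iic_subset_Iic.2 hab)
  have hF0 : ∀ x, 0 ≤ F x := fun x => measureReal_nonneg
  have hFle : ∀ x, F x ≤ ν.real univ := fun x => measureReal_mono (subset_univ _)
  change ν {x | F x ≤ u} = _
  rcases lt_or_ge u 0 with hu | hu
  · have h1 : {x | F x ≤ u} = ∅ := by
      ext x; simp only [mem_ofPred_eq, mem_empty_iff_false, iff_false, not_le]
      exact lt_of_lt_of_le hu (hF0 x)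
    have h2 : Iic u ∩ Icc 0 (ν.real univ) = ∅ := by
      ext x; simp only [mem_inter_iff, mem_Iic, mem_Icc, mem_empty_iff_false, iff_false, not_and]
      intro h3 h4; linarith
    rw [h1, h2]; simp
  rcases le_or_gt (ν.real univ) u with hu2 | hu2
  · have h1 : {x | F x ≤ u} = univ := by
      ext x; simp only [mem_ofPred_eq, mem_univ, iff_true]
      exact (hFle x).trans hu2
    have h2 : Iic u ∩ Icc 0 (ν.real univ) = Icc 0 (ν.real univ) := by
      ext x; simp only [mem_inter_iff, mem_Iic, mem_Icc]
      constructor
      · exact fun h => h.2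
      · exact fun h => ⟨h.2.trans hu2, h⟩
    rw [h1, h2, Real.volume_Icc, sub_zero, ofReal_measureReal]
  · have h2 : Iic u ∩ Icc 0 (ν.real univ) = Icc 0 u := by
      ext x; simp only [mem_inter_iff, mem_Iic, mem_Icc]
      constructor
      · exact fun h => ⟨h.2.1, h.1⟩
      · exact fun h => ⟨h.2, h.1, h.2.trans hu2.le⟩
    rw [h2, Real.volume_Icc, sub_zero]
    -- limits of `F`
    have hlim_top : Tendsto (fun x => ν (Iic x)) atTop (𝓝 (ν univ)) := tendsto_measure_Iic_atTop ν
    have hlim_bot : Tendsto (fun x => ν (Iic x)) atBot (𝓝 0) := by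
      have h3 : (⋂ x : ℝ, Iic x) = ∅ := by
        ext z
        simp only [mem_iInter, mem_Iic, mem_empty_iff_false, iff_false, not_forall, not_le]
        exact ⟨z - 1, by linarith⟩
      have := tendsto_measure_iInter_atBot (μ := ν) (s := fun x : ℝ => Iic x)
        (fun x => measurableSet_Iic.nullMeasurableSet) (fun a b hab => Iic_subset_Iic.2 hab)
        ⟨0, measure_ne_top ν _⟩
      rw [h3, measure_empty] at this
      exact this
    rcases Set.eq_empty_or_nonempty {x | F x ≤ u} with he | hne
    · rw [he, measure_empty]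
      -- then u = 0
      have hu0 : u ≤ 0 := by
        by_contra hcon
        push Not at hcon
        have h3 : ∀ᶠ x in atBot, ν (Iic x) < ENNReal.ofReal u :=
          hlim_bot.eventually (gt_mem_nhds (by positivity))
        obtain ⟨x, hx⟩ := h3.exists
        have : F x ≤ u := (ENNReal.toReal_lt_of_lt_ofReal hx).le
        have : x ∈ ({x | F x ≤ u} : Set ℝ) := this
        rw [he] at this
        exact this
      rw [ENNReal.ofReal_of_nonpos hu0]
    · have hbdd : BddAbove {x | F x ≤ u} := by
        have h3 : ∀ᶠ x in atTop, ENNReal.ofReal u < ν (Iic x) := by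
          apply hlim_top.eventually
          apply lt_mem_nhds
          rw [← ofReal_measureReal (μ := ν) (s := univ)]
          exact (ENNReal.ofReal_lt_ofReal_iff (lt_of_le_of_lt hu hu2)).2 hu2
        obtain ⟨b, hb⟩ := h3.exists
        refine ⟨b, fun x hx => ?_⟩
        by_contra hcon
        push Not at hcon
        have h4 : u < F b := by
          rw [← ofReal_measureReal (μ := ν) (s := Iic b)] at hb
          exact (ENNReal.ofReal_lt_ofReal_iff_of_nonneg hu).1 hb
        have h5 := hFm hcon.le
        have h6 : F x ≤ u := hx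
        linarith
      have hclosed : IsClosed {x | F x ≤ u} := isClosed_le hFc continuous_const
      set a := sSup {x | F x ≤ u} with ha
      have ha_mem : F a ≤ u := hclosed.csSup_mem hne hbdd
      have hset : {x | F x ≤ u} = Iic a := by
        ext x
        simp only [mem_ofPred_eq, mem_Iic]
        constructor
        · intro hx; exact le_csSup hbdd hx
        · intro hx; exact (hFm hx).trans ha_mem
      have ha_ge : u ≤ F a := by
        have h4 : ∀ x ∈ Ioi a, u ≤ F x := by
          intro x hx
          by_contra hcon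
          push Not at hcon
          have : x ∈ {x | F x ≤ u} := hcon.le
          rw [hset] at this
          exact absurd (mem_Iic.1 this) (not_le.2 hx)
        have h5 : Tendsto F (𝓝[>] a) (𝓝 (F a)) := hFc.continuousAt.tendsto.mono_left nhdsWithin_le_nhds
        exact ge_of_tendsto h5 (eventually_mem_nhdsWithin.mono h4)
      rw [hset, ← ofReal_measureReal (μ := ν) (s := Iic a)]
      congr 1
      exact le_antisymm ha_mem ha_ge

theorem map_real_Iic (ν : Measure ℝ) [IsFiniteMeasure ν] [NullSingletonClass ν] :
    ν.map (fun x => ν.real (Iic x)) = volume.restrict (Icc 0 (ν.real univ)) := by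
  have hm : Measurable (fun x => ν.real (Iic x)) := (continuous_real_Iic ν).measurable
  apply Measure.ext_of_Iic
  intro u
  rw [Measure.map_apply hm measurableSet_Iic, Measure.restrict_apply measurableSet_Iic,
    ← measure_sublevel]
  rfl

/-- An atomless finite measure on a standard Borel space is isomorphic mod 0 to an interval. -/
theorem exists_aeIso_interval [StandardBorelSpace X] [Nonempty X] (μ : Measure X)
    [IsFiniteMeasure μ] [NullSingletonClass μ] :
    Nonempty (AEIso μ (volume.restrict (Icc (0 : ℝ) (μ.real univ)))) := by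
  set e := embeddingReal X with he
  have hemb : MeasurableEmbedding e := measurableEmbedding_embeddingReal X
  set ν : Measure ℝ := μ.map e with hν
  have : IsFiniteMeasure ν := by rw [hν]; infer_instance
  have : NullSingletonClass ν := by
    refine ⟨fun x => ?_⟩
    rw [hν, hemb.map_apply]
    apply Set.Subsingleton.measure_zero
    exact subsingleton_singleton.preimage hemb.injective
  have huniv : ν.real univ = μ.real univ := by
    rw [Measure.real, Measure.real, hν, Measure.map_apply hemb.measurable MeasurableSet.univ]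
    rfl
  set F : ℝ → ℝ := fun x => ν.real (Iic x) with hF
  have hFc : Continuous F := continuous_real_Iic ν
  have hFm : Monotone F := fun a b hab => measureReal_mono (Iic_subset_Iic.2 hab)
  have hmap : ν.map F = volume.restrict (Icc 0 (ν.real univ)) := map_real_Iic ν
  -- the exceptional set
  set N : Set ℝ := ⋃ q : ℚ, F ⁻¹' {F q} with hN
  have hNmeas : MeasurableSet N :=
    MeasurableSet.iUnion fun q => hFc.measurable (measurableSet_singleton _)
  have hNnull : ν N = 0 := by
    rw [hN, measure_iUnion_null_iff]
    intro q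
    rw [← Measure.map_apply hFc.measurable (measurableSet_singleton _), hmap]
    simp
  have hinj : InjOn F Nᶜ := by
    have key : ∀ x y, x < y → x ∈ Nᶜ → F x < F y := by
      intro x y hxy hx
      obtain ⟨q, hq1, hq2⟩ := exists_rat_btwn hxy
      have h1 : F x ≤ F q := hFm hq1.le
      have h2 : F q ≤ F y := hFm hq2.le
      have h3 : F x ≠ F q := by
        intro h
        apply hx
        exact mem_iUnion.2 ⟨q, h⟩
      exact lt_of_lt_of_le (lt_of_le_of_ne h1 h3) h2
    intro x hx y hy hxy
    rcases lt_trichotomy x y with h | h | h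
    · exact absurd hxy (key x y h hx).ne
    · exact h
    · exact absurd hxy (key y x h hy).ne'
  have hf : Measurable (F ∘ e) := hFc.measurable.comp hemb.measurable
  have hs : MeasurableSet (e ⁻¹' Nᶜ) := hemb.measurable hNmeas.compl
  have hinj' : InjOn (F ∘ e) (e ⁻¹' Nᶜ) := by
    intro x hx y hy hxy
    exact hemb.injective (hinj hx hy hxy)
  obtain ⟨g, hg, hgf⟩ := exists_measurable_leftInverse hf hs hinj'
  have hmp : MeasurePreserving (F ∘ e) μ (volume.restrict (Icc (0 : ℝ) (μ.real univ))) := by
    refine ⟨hf, ?_⟩
    rw [← Measure.map_map hFc.measurable hemb.measurable, ← hν, hmap, huniv]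
  refine ⟨AEIso.mkOfLeft (F ∘ e) g hmp hg ?_⟩
  have h1 : μ (e ⁻¹' N) = 0 := by
    rw [← hemb.map_apply]; exact hNnull
  have h2 : ∀ᵐ x ∂μ, x ∉ e ⁻¹' N := measure_eq_zero_iff_ae_notMem.1 h1
  filter_upwards [h2] with x hx
  exact hgf x hx

/-- Two atomless finite measures with the same total mass on standard Borel spaces are
isomorphic mod 0. -/
theorem exists_aeIso_of_finite [StandardBorelSpace X] [Nonempty X] [StandardBorelSpace Y]
    [Nonempty Y] (μ : Measure X) (ν : Measure Y) [IsFiniteMeasure μ] [NullSingletonClass μ]
    [IsFiniteMeasure ν] [NullSingletonClass ν] (h : μ univ = ν univ) : Nonempty (AEIso μ ν) := by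
  obtain ⟨T⟩ := exists_aeIso_interval μ
  obtain ⟨S⟩ := exists_aeIso_interval ν
  have h' : μ.real univ = ν.real univ := by rw [Measure.real, Measure.real, h]
  rw [h'] at T
  exact ⟨T.trans S.symm⟩

end Real

end GenInf
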