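import Pool.Agent.Lib_helper15.GenInf.AEIso

/-!
# Adapted isomorphisms `X × K ≅ X` and exact realizations of isomorphisms mod 0
-/

open Set Filter Topology MeasureTheory MeasurableSpace

namespace GenInf

section Glue

variable {X K ι : Type*} [MeasurableSpace X] [MeasurableSpace K] [MeasurableSpace ι]

theorem sum_restrict_fiber [Countable ι] [MeasurableSingletonClass ι] (μ : Measure X) {q : X → ι}
    (hq : Measurable q) : Measure.sum (fun i => μ.restrict (q ⁻¹' {i})) = μ := by
  rw [← Measure.restrict_iUnion]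
  · have : (⋃ i, q ⁻¹' {i}) = univ := by
      ext x; simp
    rw [this, Measure.restrict_univ]
  · intro i j hij
    exact Disjoint.preimage q (disjoint_singleton.mpr hij)
  · exact fun i => hq (measurableSet_singleton i)

/-- Isomorphisms `X × K ≅ X` which preserve the fibres of a countably valued map. -/
theorem exists_adapted [StandardBorelSpace X] [Nonempty X] [StandardBorelSpace K] [Nonempty K]
    [Countable ι] [MeasurableSingletonClass ι] (μ : Measure X) [SFinite μ]
    [NullSingletonClass μ] (lam : Measure K) [IsProbabilityMeasure lam] {q : X → ι}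
    (hq : Measurable q) (hfin : ∀ i, μ (q ⁻¹' {i}) ≠ ⊤) :
    ∃ T : AEIso (μ.prod lam) μ, ∀ᵐ y ∂μ, q (T.bwd y).1 = q y := by
  have hfin' : ∀ i, IsFiniteMeasure (μ.restrict (q ⁻¹' {i})) := fun i => by
    constructor
    rw [Measure.restrict_apply_univ]
    exact lt_top_iff_ne_top.2 (hfin i)
  have hex : ∀ i, Nonempty (AEIso ((μ.restrict (q ⁻¹' {i})).prod lam) (μ.restrict (q ⁻¹' {i}))) := by
    intro i
    have := hfin' i
    apply exists_aeIso_of_finite
    rw [← Set.univ_prod_univ, Measure.prod_prod, measure_univ (μ := lam), mul_one]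
  let θ : ∀ i, AEIso ((μ.restrict (q ⁻¹' {i})).prod lam) (μ.restrict (q ⁻¹' {i})) := fun i => (hex i).some
  have hμ : Measure.sum (fun i => μ.restrict (q ⁻¹' {i})) = μ := sum_restrict_fiber μ hq
  have hprod : Measure.sum (fun i => (μ.restrict (q ⁻¹' {i})).prod lam) = μ.prod lam := by
    rw [← Measure.prod_sum_left, hμ]
  -- a.e. facts on each fibre
  have hq1 : ∀ i, ∀ᵐ y ∂(μ.restrict (q ⁻¹' {i})), q y = i := by
    intro i
    filter_upwards [ae_restrict_mem (hq (measurableSet_singleton i))] with y hy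
    exact hy
  have hq2 : ∀ i, ∀ᵐ p ∂((μ.restrict (q ⁻¹' {i})).prod lam), q p.1 = i := fun i =>
    Measure.quasiMeasurePreserving_fst.ae (hq1 i)
  have hq3 : ∀ i, ∀ᵐ p ∂((μ.restrict (q ⁻¹' {i})).prod lam), q ((θ i).fwd p) = i := fun i =>
    (θ i).mp.quasiMeasurePreserving.ae (hq1 i)
  have hq4 : ∀ i, ∀ᵐ y ∂(μ.restrict (q ⁻¹' {i})), q ((θ i).bwd y).1 = i := fun i =>
    (θ i).mpi.quasiMeasurePreserving.ae (hq2 i)
  -- the glued maps
  let f : X × K → X := fun p => (θ (q p.1)).fwd p
  let g : X → X × K := fun y => (θ (q y)).bwd y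
  have hfi : ∀ i p, q p.1 = i → f p = (θ i).fwd p := by rintro _ p rfl; rfl
  have hgi : ∀ i y, q y = i → g y = (θ i).bwd y := by rintro _ p rfl; rfl
  have hf : Measurable f := by
    have h1 : Measurable (fun z : ι × (X × K) => (θ z.1).fwd z.2) :=
      measurable_from_prod_countable_right fun i => (θ i).mp.measurable
    exact h1.comp ((hq.comp measurable_fst).prodMk measurable_id)
  have hg : Measurable g := by
    have h1 : Measurable (fun z : ι × X => (θ z.1).bwd z.2) :=
      measurable_from_prod_countable_right fun i => (θ i).mpi.measurable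
    exact h1.comp (hq.prodMk measurable_id)
  have hfmp : MeasurePreserving f (μ.prod lam) μ := by
    refine ⟨hf, ?_⟩
    ext A hA
    rw [Measure.map_apply hf hA, ← hprod, Measure.sum_apply _ (hf hA)]
    conv_rhs => rw [← hμ, Measure.sum_apply _ hA]
    congr 1
    funext i
    have h1 : f =ᵐ[(μ.restrict (q ⁻¹' {i})).prod lam] (θ i).fwd := by
      filter_upwards [hq2 i] with p hp
      exact hfi i p hp
    have h2 : ((μ.restrict (q ⁻¹' {i})).prod lam) (f ⁻¹' A) =
        ((μ.restrict (q ⁻¹' {i})).prod lam) ((θ i).fwd ⁻¹' A) := by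
      apply measure_congr
      exact h1.preimage A
    rw [h2, (θ i).mp.measure_preimage hA.nullMeasurableSet]
  have hli : ∀ᵐ p ∂(μ.prod lam), g (f p) = p := by
    rw [← hprod, Measure.ae_sum_iff]
    intro i
    filter_upwards [hq2 i, hq3 i, (θ i).li] with p hp1 hp2 hp3
    rw [hfi i p hp1, hgi i _ hp2, hp3]
  refine ⟨AEIso.mkOfLeft f g hfmp hg hli, ?_⟩
  change ∀ᵐ y ∂μ, q (g y).1 = q y
  rw [← hμ, Measure.ae_sum_iff]
  intro i
  filter_upwards [hq1 i, hq4 i] with y hy1 hy2
  rw [hgi i y hy1, hy2, hy1]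

end Glue

section Exact

variable {X : Type*} [MeasurableSpace X]

theorem exists_uncountable_null [StandardBorelSpace X] (μ : Measure X) [SFinite μ]
    (hX : ¬ Countable X) : ∃ C : Set X, MeasurableSet C ∧ ¬ C.Countable ∧ μ C = 0 := by
  have hR : ¬ Countable (ℝ × ℝ) := by
    intro h
    have : Countable ℝ := (Prod.mk_right_injective (0 : ℝ)).countable
    exact Cardinal.not_countable_real (Set.countable_univ)
  let ψ : X ≃ᵐ ℝ × ℝ := PolishSpace.measurableEquivOfNotCountable hX hR
  have hcount := Measure.countable_meas_level_set_pos (μ := μ)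
    (g := fun x => (ψ x).1) (measurable_fst.comp ψ.measurable)
  obtain ⟨r, hr⟩ : ∃ r : ℝ, r ∉ {t : ℝ | 0 < μ {a : X | (ψ a).1 = t}} := by
    by_contra hcon
    push Not at hcon
    exact Cardinal.not_countable_real (hcount.mono fun r _ => hcon r)
  refine ⟨{a : X | (ψ a).1 = r}, ?_, ?_, ?_⟩
  · exact (measurable_fst.comp ψ.measurable) (measurableSet_singleton r)
  · intro hc
    have h1 : ((fun s : ℝ => ψ.symm (r, s)) '' univ) ⊆ {a : X | (ψ a).1 = r} := by
      rintro _ ⟨s, _, rfl⟩
      simp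
    have h2 := hc.mono h1
    have h3 : (univ : Set ℝ).Countable := by
      refine Set.countable_of_injective_of_countable_image ?_ h2
      intro s _ s' _ h
      have := ψ.symm.injective h
      exact (Prod.mk.inj this).2
    exact Cardinal.not_countable_real h3
  · simpa using hr

/-- Every isomorphism mod 0 of an atomless standard space is a.e. equal to an exact
measurable equivalence. -/
theorem AEIso.exists_equiv [StandardBorelSpace X] {μ : Measure X} [SFinite μ]
    (hX : ¬ Countable X) (T : AEIso μ μ) : ∃ S : X ≃ᵐ X, ∀ᵐ x ∂μ, S x = T.fwd x := by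
  classical
  obtain ⟨C, hC, hCu, hC0⟩ := exists_uncountable_null μ hX
  have hgood : MeasurableSet {x | T.bwd (T.fwd x) = x} :=
    measurableSet_eq_fun (T.mpi.measurable.comp T.mp.measurable) measurable_id
  set X1 : Set X := {x | T.bwd (T.fwd x) = x} \ (C ∪ T.fwd ⁻¹' C) with hX1
  have hX1m : MeasurableSet X1 := hgood.diff (hC.union (T.mp.measurable hC))
  have hinj : InjOn T.fwd X1 := by
    intro x hx y hy hxy
    have h1 : T.bwd (T.fwd x) = x := hx.1
    have h2 : T.bwd (T.fwd y) = y := hy.1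
    rw [← h1, hxy, h2]
  have : StandardBorelSpace X1 := hX1m.standardBorel
  have hemb : MeasurableEmbedding (fun x : X1 => T.fwd x) :=
    (T.mp.measurable.comp measurable_subtype_coe).measurableEmbedding
      (fun x y hxy => Subtype.ext (hinj x.2 y.2 hxy))
  set Y1 : Set X := range (fun x : X1 => T.fwd x) with hY1
  have hY1m : MeasurableSet Y1 := hemb.measurableSet_range
  have hX1c : ∀ᵐ x ∂μ, x ∈ X1 := by
    have h1 : ∀ᵐ x ∂μ, x ∉ C := measure_eq_zero_iff_ae_notMem.1 hC0
    have h2 : ∀ᵐ x ∂μ, T.fwd x ∉ C := T.mp.quasiMeasurePreserving.ae h1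
    filter_upwards [T.li, h1, h2] with x h3 h4 h5
    refine ⟨h3, ?_⟩
    rintro (h | h)
    · exact h4 h
    · exact h5 h
  have hX1u : ¬ Countable (X1ᶜ : Set X) := by
    intro h
    apply hCu
    refine (Set.countable_coe_iff.1 h).mono ?_
    intro x hx hx1
    exact hx1.2 (Or.inl hx)
  have hY1u : ¬ Countable (Y1ᶜ : Set X) := by
    intro h
    apply hCu
    refine (Set.countable_coe_iff.1 h).mono ?_
    rintro y hy ⟨x, rfl⟩
    exact x.2.2 (Or.inr hy)
  have : StandardBorelSpace (X1ᶜ : Set X) := hX1m.compl.standardBorel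
  have : StandardBorelSpace (Y1ᶜ : Set X) := hY1m.compl.standardBorel
  let A : X1 ≃ᵐ Y1 := hemb.equivRange
  let B : (X1ᶜ : Set X) ≃ᵐ (Y1ᶜ : Set X) := PolishSpace.measurableEquivOfNotCountable hX1u hY1u
  let S : X ≃ᵐ X := (MeasurableEquiv.sumCompl hX1m).symm.trans
    ((MeasurableEquiv.sumCongr A B).trans (MeasurableEquiv.sumCompl hY1m))
  refine ⟨S, ?_⟩
  filter_upwards [hX1c] with x hx
  have h1 : (MeasurableEquiv.sumCompl hX1m).symm x = Sum.inl ⟨x, hx⟩ := by
    rw [MeasurableEquiv.symm_apply_eq]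
    rfl
  change (MeasurableEquiv.sumCompl hY1m) ((MeasurableEquiv.sumCongr A B)
    ((MeasurableEquiv.sumCompl hX1m).symm x)) = T.fwd x
  rw [h1]
  change ((A ⟨x, hx⟩ : Y1) : X) = T.fwd x
  exact congrArg Subtype.val (hemb.equivRange_apply ⟨x, hx⟩)

end Exact

end GenInf
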