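import Mathlib

/-!
# Groups of isometries with the two-sided uniformity of pointwise convergence
-/

open Set Filter Topology Uniformity TopologicalSpace

namespace GenInf

section

variable {G E : Type*} [Group G] [PseudoMetricSpace E] [MulAction G E] [IsIsometricSMul G E]

/-- The map whose comap defines the two-sided uniformity. -/
def evalBoth (G E : Type*) [Group G] [MulAction G E] (g : G) : (E → E) × (E → E) :=
  (fun x => g • x, fun x => g⁻¹ • x)

section Top

variable [TopologicalSpace G] (hI : IsInducing (evalBoth G E))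

include hI

omit [IsIsometricSMul G E] in
theorem continuous_smul_const_of (x : E) : Continuous fun g : G => g • x := by
  have h1 := hI.continuous
  exact (continuous_apply x).comp (continuous_fst.comp h1)

omit [IsIsometricSMul G E] in
theorem continuous_inv_smul_const_of (x : E) : Continuous fun g : G => g⁻¹ • x := by
  have h1 := hI.continuous
  exact (continuous_apply x).comp (continuous_snd.comp h1)

theorem tendsto_of_tendsto_smul {ι : Type*} {l : Filter ι} {f : ι → G} {g : G}
    (h : ∀ x : E, Tendsto (fun i => f i • x) l (𝓝 (g • x))) : Tendsto f l (𝓝 g) := by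
  rw [hI.tendsto_nhds_iff]
  refine Tendsto.prodMk_nhds (tendsto_pi_nhds.2 h) (tendsto_pi_nhds.2 fun x => ?_)
  have h1 := h (g⁻¹ • x)
  rw [tendsto_iff_dist_tendsto_zero] at h1 ⊢
  refine h1.congr fun i => ?_
  rw [smul_inv_smul]
  rw [← dist_smul (f i)⁻¹ (f i • g⁻¹ • x) x, inv_smul_smul, dist_comm]

theorem tendsto_iff_tendsto_smul {ι : Type*} {l : Filter ι} {f : ι → G} {g : G} :
    Tendsto f l (𝓝 g) ↔ ∀ x : E, Tendsto (fun i => f i • x) l (𝓝 (g • x)) :=
  ⟨fun h x => ((continuous_smul_const_of hI x).tendsto g).comp h, tendsto_of_tendsto_smul hI⟩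

theorem continuous_of_smul {Y : Type*} [TopologicalSpace Y] {f : Y → G}
    (h : ∀ x : E, Continuous fun y => f y • x) : Continuous f := by
  rw [continuous_iff_continuousAt]
  intro y
  exact tendsto_of_tendsto_smul hI fun x => (h x).tendsto y

theorem isTopologicalGroup_of : IsTopologicalGroup G where
  continuous_mul := by
    apply continuous_of_smul hI
    intro x
    rw [continuous_iff_continuousAt]
    rintro ⟨g, h⟩
    have h1 : Tendsto (fun p : G × G => p.1 • (h • x)) (𝓝 (g, h)) (𝓝 (g • h • x)) :=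
      ((continuous_smul_const_of hI (h • x)).comp continuous_fst).tendsto (g, h)
    have h2 : Tendsto (fun p : G × G => p.2 • x) (𝓝 (g, h)) (𝓝 (h • x)) :=
      ((continuous_smul_const_of hI x).comp continuous_snd).tendsto (g, h)
    have h3 : Tendsto (fun p : G × G => dist (p.1 • (p.2 • x)) (p.1 • (h • x))) (𝓝 (g, h))
        (𝓝 0) := by
      simp only [dist_smul]
      exact tendsto_iff_dist_tendsto_zero.1 h2
    rw [ContinuousAt]
    simp only [mul_smul]
    rw [tendsto_iff_dist_tendsto_zero] at h1 ⊢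
    refine squeeze_zero (fun _ => dist_nonneg) (fun p => dist_triangle _ (p.1 • (h • x)) _) ?_
    simpa using h3.add h1
  continuous_inv := by
    apply continuous_of_smul hI
    intro x
    exact continuous_inv_smul_const_of hI x

/-- A basis of neighbourhoods given by finitely many vectors. -/
theorem exists_finset_of_mem_nhds {g : G} {U : Set G} (hU : U ∈ 𝓝 g) :
    ∃ (s : Finset E) (ε : ℝ), 0 < ε ∧ ∀ h : G, (∀ x ∈ s, dist (h • x) (g • x) < ε) → h ∈ U := by
  classical
  by_contra hcon
  push Not at hcon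
  -- use the filter of eventually close elements
  let l : Filter G := ⨅ (x : E), comap (fun h : G => h • x) (𝓝 (g • x))
  have hl : l ≤ 𝓝 g := by
    have : Tendsto id l (𝓝 g) := by
      apply tendsto_of_tendsto_smul hI
      intro x
      exact (tendsto_comap (f := fun h : G => h • x)).mono_left (iInf_le _ x)
    simpa only [Filter.tendsto_id'] using this
  have hUl : U ∈ l := hl hU
  rw [mem_iInf] at hUl
  obtain ⟨I, hIf, V, hV, hUV⟩ := hUl
  have h1 : ∀ i : I, ∃ ε > 0, ∀ h : G, dist (h • (i : E)) (g • (i : E)) < ε → h ∈ V i := by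
    intro i
    obtain ⟨W, hW, hWV⟩ := mem_comap.1 (hV i)
    obtain ⟨ε, hε, hεW⟩ := Metric.mem_nhds_iff.1 hW
    exact ⟨ε, hε, fun h hh => hWV (hεW hh)⟩
  choose ε hε hεV using h1
  have := hIf.fintype
  obtain ⟨δ, hδ, hδε⟩ : ∃ δ > 0, ∀ i : I, δ ≤ ε i := by
    rcases isEmpty_or_nonempty I with hI' | hI'
    · exact ⟨1, one_pos, fun i => (hI'.false i).elim⟩
    · obtain ⟨i0, hi0⟩ := Finite.exists_min ε
      exact ⟨ε i0, hε i0, hi0⟩
  obtain ⟨h, hh, hhU⟩ := hcon hIf.toFinset δ hδ
  apply hhU
  rw [hUV]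
  refine mem_iInter.2 fun i => hεV i h ?_
  exact lt_of_lt_of_le (hh i (hIf.mem_toFinset.2 i.2)) (hδε i)

end Top

section Unif

theorem uniformContinuous_of_dense {G E : Type*} [UniformSpace G] [PseudoMetricSpace E]
    {ι : Type*} (u : ι → E) (hu : DenseRange u) (f : G → E → E)
    (hf : ∀ g x y, dist (f g x) (f g y) = dist x y)
    (hn : ∀ n, UniformContinuous fun g : G => f g (u n)) (x : E) :
    UniformContinuous fun g : G => f g x := by
  rw [uniformContinuous_def]
  intro r hr
  obtain ⟨ε, hε, hεr⟩ := Metric.mem_uniformity_dist.1 hr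
  obtain ⟨n, hn'⟩ := hu.exists_dist_lt x (show 0 < ε / 3 by positivity)
  have h1 := (hn n) (Metric.dist_mem_uniformity (show 0 < ε / 3 by positivity))
  filter_upwards [h1] with p hp
  apply hεr
  have hp' : dist (f p.1 (u n)) (f p.2 (u n)) < ε / 3 := hp
  calc dist (f p.1 x) (f p.2 x) ≤ dist (f p.1 x) (f p.1 (u n)) +
        dist (f p.1 (u n)) (f p.2 (u n)) + dist (f p.2 (u n)) (f p.2 x) :=
        dist_triangle4 _ _ _ _
    _ < ε / 3 + ε / 3 + ε / 3 := by
        rw [hf, hf, dist_comm (u n) x]
        gcongr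
    _ = ε := by ring

variable [uG : UniformSpace G] (hI : IsUniformInducing (evalBoth G E))

include hI

theorem isUniformInducing_denseSeq {ι : Type*} (u : ι → E) (hu : DenseRange u) :
    IsUniformInducing (fun g : G => ((fun n : ι => g • u n), (fun n : ι => g⁻¹ • u n))) := by
  rw [isUniformInducing_iff_uniformSpace]
  rw [isUniformInducing_iff_uniformSpace] at hI
  apply le_antisymm
  · rw [← hI]
    let U2 : UniformSpace G :=
      UniformSpace.comap (fun g : G => ((fun n : ι => g • u n), (fun n : ι => g⁻¹ • u n)))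
        inferInstance
    have h2 : UniformContinuous[U2, inferInstance]
        (fun g : G => ((fun n : ι => g • u n), (fun n : ι => g⁻¹ • u n))) :=
      uniformContinuous_comap
    rw [← uniformContinuous_iff_le_comap]
    have ha : ∀ n : ι, UniformContinuous[U2, inferInstance] fun g : G => g • u n := fun n =>
      (Pi.uniformContinuous_proj _ n).comp (uniformContinuous_fst.comp h2)
    have hb : ∀ n : ι, UniformContinuous[U2, inferInstance] fun g : G => g⁻¹ • u n := fun n =>
      (Pi.uniformContinuous_proj _ n).comp (uniformContinuous_snd.comp h2)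
    refine UniformContinuous.prodMk ?_ ?_
    · rw [uniformContinuous_pi]
      exact fun x => @uniformContinuous_of_dense G E U2 _ _ u hu (fun g x => g • x)
        (fun g x y => dist_smul g x y) ha x
    · rw [uniformContinuous_pi]
      exact fun x => @uniformContinuous_of_dense G E U2 _ _ u hu (fun g x => g⁻¹ • x)
        (fun g x y => dist_smul g⁻¹ x y) hb x
  · rw [← uniformContinuous_iff_le_comap]
    have h2 : UniformContinuous (evalBoth G E) := by
      rw [← hI]; exact uniformContinuous_comap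
    refine UniformContinuous.prodMk ?_ ?_
    · rw [uniformContinuous_pi]
      exact fun n => (Pi.uniformContinuous_proj _ (u n)).comp (uniformContinuous_fst.comp h2)
    · rw [uniformContinuous_pi]
      exact fun n => (Pi.uniformContinuous_proj _ (u n)).comp (uniformContinuous_snd.comp h2)

omit [IsIsometricSMul G E] in
theorem exists_finset_of_mem_uniformity {u : Set (G × G)} (hu : u ∈ 𝓤 G) :
    ∃ (s : Finset E) (ε : ℝ), 0 < ε ∧ ∀ g h : G,
      (∀ x ∈ s, dist (g • x) (h • x) < ε ∧ dist (g⁻¹ • x) (h⁻¹ • x) < ε) → (g, h) ∈ u := by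
  classical
  rw [← hI.comap_uniformity] at hu
  obtain ⟨w, hw, hwu⟩ := mem_comap.1 hu
  rw [uniformity_prod, mem_inf_iff] at hw
  obtain ⟨w1, hw1, w2, hw2, rfl⟩ := hw
  obtain ⟨v1, hv1, hvw1⟩ := mem_comap.1 hw1
  obtain ⟨v2, hv2, hvw2⟩ := mem_comap.1 hw2
  have key : ∀ v ∈ 𝓤 (E → E), ∃ (s : Finset E) (ε : ℝ), 0 < ε ∧ ∀ f f' : E → E,
      (∀ x ∈ s, dist (f x) (f' x) < ε) → (f, f') ∈ v := by
    intro v hv
    rw [Pi.uniformity, mem_iInf] at hv
    obtain ⟨I, hIf, V, hV, rfl⟩ := hv
    have h1 : ∀ i : I, ∃ ε > 0, ∀ f f' : E → E, dist (f i) (f' i) < ε → (f, f') ∈ V i := by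
      intro i
      obtain ⟨W, hW, hWV⟩ := mem_comap.1 (hV i)
      obtain ⟨ε, hε, hεW⟩ := Metric.mem_uniformity_dist.1 hW
      exact ⟨ε, hε, fun f f' h => hWV (hεW h)⟩
    choose ε hε hεV using h1
    have := hIf.fintype
    obtain ⟨δ, hδ, hδε⟩ : ∃ δ > 0, ∀ i : I, δ ≤ ε i := by
      rcases isEmpty_or_nonempty I with hI' | hI'
      · exact ⟨1, one_pos, fun i => (hI'.false i).elim⟩
      · obtain ⟨i0, hi0⟩ := Finite.exists_min ε
        exact ⟨ε i0, hε i0, hi0⟩
    refine ⟨hIf.toFinset, δ, hδ, fun f f' h => mem_iInter.2 fun i => hεV i f f' ?_⟩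
    exact lt_of_lt_of_le (h i (hIf.mem_toFinset.2 i.2)) (hδε i)
  obtain ⟨s1, ε1, hε1, h1⟩ := key v1 hv1
  obtain ⟨s2, ε2, hε2, h2⟩ := key v2 hv2
  refine ⟨s1 ∪ s2, min ε1 ε2, lt_min hε1 hε2, fun g h hgh => hwu ⟨hvw1 ?_, hvw2 ?_⟩⟩
  · exact h1 _ _ fun x hx => lt_of_lt_of_le (hgh x (Finset.mem_union_left _ hx)).1 (min_le_left _ _)
  · exact h2 _ _ fun x hx => lt_of_lt_of_le (hgh x (Finset.mem_union_right _ hx)).2
      (min_le_right _ _)

theorem isCountablyGenerated_of [SeparableSpace E] : IsCountablyGenerated (𝓤 G) := by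
  rcases isEmpty_or_nonempty E with hE | hE
  · have h1 := isUniformInducing_denseSeq hI (fun x : E => x) denseRange_id
    rw [← h1.comap_uniformity]
    infer_instance
  · have h1 := isUniformInducing_denseSeq hI (denseSeq E) (denseRange_denseSeq E)
    rw [← h1.comap_uniformity]
    infer_instance

theorem secondCountable_of [SeparableSpace E] : SecondCountableTopology G := by
  have : SecondCountableTopology E := UniformSpace.secondCountable_of_separable E
  rcases isEmpty_or_nonempty E with hE | hE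
  · have h1 := isUniformInducing_denseSeq hI (fun x : E => x) denseRange_id
    exact h1.isInducing.secondCountableTopology
  · have h1 := isUniformInducing_denseSeq hI (denseSeq E) (denseRange_denseSeq E)
    exact h1.isInducing.secondCountableTopology

omit [IsIsometricSMul G E] in
/-- Completeness from a closure property. -/
theorem completeSpace_of [CompleteSpace E]
    (hcl : ∀ p ∈ closure (range (evalBoth G E)), p ∈ range (evalBoth G E)) : CompleteSpace G := by
  rw [completeSpace_iff_isComplete_range hI]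
  exact (isClosed_of_closure_subset hcl).isComplete

omit [IsIsometricSMul G E] in
/-- Neighbourhoods of a flow, among flows. -/
theorem flow_nhds {F : C(ℝ, G)} (hF : ∀ s t, F (s + t) = F s * F t) {U : Set C(ℝ, G)}
    (hU : U ∈ 𝓝 F) : ∃ (M : ℕ) (s : Finset E) (ε : ℝ), 0 < ε ∧ ∀ F' : C(ℝ, G),
      (∀ s t, F' (s + t) = F' s * F' t) →
      (∀ t : ℝ, |t| ≤ M → ∀ x ∈ s, dist (F' t • x) (F t • x) < ε) → F' ∈ U := by
  obtain ⟨V, hV, hVU⟩ := UniformSpace.mem_nhds_iff.1 hU
  obtain ⟨K, u, hK, hu, hKu⟩ := (ContinuousMap.mem_compactConvergence_entourage_iff V).1 hV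
  obtain ⟨s, ε, hε, hs⟩ := exists_finset_of_mem_uniformity hI hu
  obtain ⟨M, hM⟩ : ∃ M : ℕ, ∀ t ∈ K, |t| ≤ M := by
    obtain ⟨r, hr⟩ := hK.isBounded.exists_norm_le
    obtain ⟨M, hM⟩ := exists_nat_ge r
    exact ⟨M, fun t ht => (hr t ht).trans hM⟩
  have hinv : ∀ F' : C(ℝ, G), (∀ s t, F' (s + t) = F' s * F' t) → ∀ t, (F' t)⁻¹ = F' (-t) := by
    intro F' hF' t
    have h0 : F' 0 = 1 := by
      have := hF' 0 0
      rw [add_zero] at this
      exact (left_eq_mul.1 this)
    rw [inv_eq_iff_mul_eq_one, ← hF', add_neg_cancel, h0]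
  refine ⟨M, s, ε, hε, fun F' hF' h => hVU ?_⟩
  change (F, F') ∈ V
  apply hKu
  intro t ht
  apply hs
  intro x hx
  constructor
  · rw [dist_comm]
    exact h t (hM t ht) x hx
  · rw [hinv F hF, hinv F' hF', dist_comm]
    exact h (-t) (by rw [abs_neg]; exact hM t ht) x hx

end Unif

end

end GenInf
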