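import Pool.Agent.Lib_helper15.GenInf.Defs
import Pool.Agent.Lib_helper15.GenInf.IsoTop
import Pool.Agent.Lib_helper15.GenInf.Adapted

/-!
# The action of `Aut μ` on `L¹(μ)`
-/

open Set Filter Topology MeasureTheory
open scoped symmDiff ENNReal

namespace GenInf

section General

variable {X Y Z : Type*} [MeasurableSpace X] [MeasurableSpace Y] [MeasurableSpace Z]
  {μ : Measure X} {ν : Measure Y} {ρ : Measure Z}

/-- The space `L¹`. -/
abbrev E1 (μ : Measure X) := Lp ℝ 1 μ

theorem compMP_congr {f f' : X → Y} (hf : MeasurePreserving f μ ν) (hf' : MeasurePreserving f' μ ν)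
    (h : f =ᵐ[μ] f') (g : E1 ν) :
    Lp.compMeasurePreserving f hf g = Lp.compMeasurePreserving f' hf' g := by
  apply Lp.ext
  refine (Lp.coeFn_compMeasurePreserving g hf).trans
    (EventuallyEq.trans ?_ (Lp.coeFn_compMeasurePreserving g hf').symm)
  filter_upwards [h] with x hx
  simp only [Function.comp_apply, hx]

theorem compMP_of_ae_id {f : X → X} (hf : MeasurePreserving f μ μ)
    (h : ∀ᵐ x ∂μ, f x = x) (g : E1 μ) :
    Lp.compMeasurePreserving f hf g = g := by
  rw [compMP_congr hf (MeasurePreserving.id μ) h g]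
  exact Lp.compMeasurePreserving_id_apply g

namespace AEIso

/-- The linear isometry `f ↦ f ∘ T⁻¹` from `L¹(μ)` to `L¹(ν)`. -/
noncomputable def L (T : AEIso μ ν) : E1 μ →ₗᵢ[ℝ] E1 ν :=
  Lp.compMeasurePreservingₗᵢ ℝ T.bwd T.mpi

theorem L_apply (T : AEIso μ ν) (f : E1 μ) : T.L f = Lp.compMeasurePreserving T.bwd T.mpi f := rfl

theorem coeFn_L (T : AEIso μ ν) (f : E1 μ) : T.L f =ᵐ[ν] f ∘ T.bwd :=
  Lp.coeFn_compMeasurePreserving f T.mpi

theorem L_trans (T : AEIso μ ν) (S : AEIso ν ρ) (f : E1 μ) : (T.trans S).L f = S.L (T.L f) :=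
  Lp.compMeasurePreserving_comp_apply f T.mpi S.mpi

theorem L_symm_L (T : AEIso μ ν) (f : E1 μ) : T.symm.L (T.L f) = f := by
  rw [← L_trans]
  exact compMP_of_ae_id _ T.li f

theorem L_L_symm (T : AEIso μ ν) (f : E1 ν) : T.L (T.symm.L f) = f := by
  rw [← L_trans]
  exact compMP_of_ae_id _ T.ri f

end AEIso

end General

variable {X : Type*} [mX : MeasurableSpace X] {μ : Measure X}

namespace Aut

/-- The action of `Aut μ` on `L¹(μ)`: `T • f = f ∘ T⁻¹`. -/
noncomputable instance : SMul (Aut μ) (E1 μ) :=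
  ⟨fun g f => Quotient.liftOn g
    (fun T => Lp.compMeasurePreserving T.1.symm (T.2.symm T.1) f)
    (fun _ _ h => compMP_congr _ _ (mpt_symm_ae h) f)⟩

theorem mk_smul (T : X ≃ᵐ X) (h : MeasurePreserving T μ μ) (f : E1 μ) :
    mk T h • f = Lp.compMeasurePreserving T.symm (h.symm T) f := rfl

theorem mk_surj (g : Aut μ) : ∃ (T : X ≃ᵐ X) (h : MeasurePreserving T μ μ), g = mk T h := by
  induction g using Quotient.inductionOn with | _ T => ?_
  exact ⟨T.1, T.2, rfl⟩

theorem mk_mul_mk (S T : X ≃ᵐ X) (hS : MeasurePreserving S μ μ) (hT : MeasurePreserving T μ μ) :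
    mk S hS * mk T hT = mk (T.trans S) (hS.comp hT) := rfl

theorem mk_inv (S : X ≃ᵐ X) (hS : MeasurePreserving S μ μ) :
    (mk S hS)⁻¹ = mk S.symm (hS.symm S) := rfl

theorem one_def : (1 : Aut μ) = mk (MeasurableEquiv.refl X) (MeasurePreserving.id μ) := rfl

theorem mk_eq_mk_iff {S T : X ≃ᵐ X} {hS : MeasurePreserving S μ μ} {hT : MeasurePreserving T μ μ} :
    mk S hS = mk T hT ↔ ∀ᵐ x ∂μ, S x = T x :=
  ⟨fun h => Quotient.exact h, fun h => Quotient.sound h⟩

noncomputable instance : MulAction (Aut μ) (E1 μ) where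
  one_smul f := compMP_of_ae_id _ (Eventually.of_forall fun _ => rfl) f
  mul_smul a b f := by
    obtain ⟨S, hS, rfl⟩ := mk_surj a
    obtain ⟨T, hT, rfl⟩ := mk_surj b
    exact Lp.compMeasurePreserving_comp_apply f (hT.symm T) (hS.symm S)

instance : IsIsometricSMul (Aut μ) (E1 μ) where
  isometry_smul g := by
    obtain ⟨S, hS, rfl⟩ := mk_surj g
    exact Lp.isometry_compMeasurePreserving (hS.symm S)

theorem smul_add' (g : Aut μ) (x y : E1 μ) : g • (x + y) = g • x + g • y := by
  obtain ⟨S, hS, rfl⟩ := mk_surj g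
  exact map_add (Lp.compMeasurePreserving S.symm (hS.symm S)) x y

theorem smul_sub' (g : Aut μ) (x y : E1 μ) : g • (x - y) = g • x - g • y := by
  obtain ⟨S, hS, rfl⟩ := mk_surj g
  exact map_sub (Lp.compMeasurePreserving S.symm (hS.symm S)) x y

theorem smul_zero' (g : Aut μ) : g • (0 : E1 μ) = 0 := by
  obtain ⟨S, hS, rfl⟩ := mk_surj g
  exact map_zero (Lp.compMeasurePreserving S.symm (hS.symm S))

theorem smul_smul' (g : Aut μ) (c : ℝ) (x : E1 μ) : g • (c • x) = c • (g • x) := by
  obtain ⟨S, hS, rfl⟩ := mk_surj g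
  exact map_smul (Lp.compMeasurePreservingₗ ℝ S.symm (hS.symm S)) c x

theorem norm_smul' (g : Aut μ) (x : E1 μ) : ‖g • x‖ = ‖x‖ := by
  obtain ⟨S, hS, rfl⟩ := mk_surj g
  exact Lp.norm_compMeasurePreserving x (hS.symm S)

/-- The indicator function of a set of finite measure as an element of `L¹`. -/
noncomputable def ind (A : FinSet μ) : E1 μ := indicatorConstLp 1 A.2.1 A.2.2 (1 : ℝ)

theorem edist_ind (A B : FinSet μ) : edist (ind A) (ind B) = μ (A.1 ∆ B.1) := by
  rw [ind, ind, edist_indicatorConstLp_eq_enorm, ← ofReal_norm, norm_indicatorConstLp one_ne_zero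
    ENNReal.one_ne_top]
  simp only [norm_one, one_mul, ENNReal.toReal_one, ne_eq, one_ne_zero, not_false_eq_true, div_self,
    Real.rpow_one]
  have := measure_union_lt_top (lt_top_iff_ne_top.2 A.2.2) (lt_top_iff_ne_top.2 B.2.2)
  rw [ofReal_measureReal (lt_of_le_of_lt (measure_mono symmDiff_subset_union) this).ne]

/-- Preimage of a set of finite measure. -/
def pre {T : X ≃ᵐ X} (h : MeasurePreserving T μ μ) (A : FinSet μ) : FinSet μ :=
  ⟨T ⁻¹' A.1, T.measurable A.2.1, by
    rw [h.measure_preimage A.2.1.nullMeasurableSet]; exact A.2.2⟩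

theorem mk_smul_ind {T : X ≃ᵐ X} (h : MeasurePreserving T μ μ) (A : FinSet μ) :
    mk T h • ind A = ind (pre (h.symm T) A) := rfl

theorem imageDist_eq (g : Aut μ) (A B : FinSet μ) :
    g.imageDist A.1 B.1 = edist (g • ind A) (ind B) := by
  obtain ⟨T, hT, rfl⟩ := mk_surj g
  rw [mk_smul_ind, edist_ind]
  change μ ((T '' A.1) ∆ B.1) = μ ((T.symm ⁻¹' A.1) ∆ B.1)
  rw [MeasurableEquiv.image_eq_preimage_symm]

theorem preimageDist_eq (g : Aut μ) (A B : FinSet μ) :
    g.preimageDist A.1 B.1 = edist (g⁻¹ • ind A) (ind B) := by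
  obtain ⟨T, hT, rfl⟩ := mk_surj g
  rw [mk_inv, mk_smul_ind, edist_ind]
  rfl

theorem exists_ind (g : Aut μ) (A : FinSet μ) : ∃ B : FinSet μ, g • ind A = ind B := by
  obtain ⟨T, hT, rfl⟩ := mk_surj g
  exact ⟨_, mk_smul_ind hT A⟩

end Aut

/-- A closed predicate on `L¹`, stable under linear combinations and true for indicators, is
always true. -/
theorem L1_induction (P : E1 μ → Prop) (hcl : IsClosed {f | P f})
    (hind : ∀ A : FinSet μ, P (Aut.ind A)) (hadd : ∀ f g, P f → P g → P (f + g))
    (hsmul : ∀ (c : ℝ) f, P f → P (c • f)) (f : E1 μ) : P f := by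
  refine Lp.induction ENNReal.one_ne_top P ?_ ?_ hcl f
  · intro c s hs hμs
    have h1 := hsmul c _ (hind ⟨s, hs, hμs.ne⟩)
    convert h1 using 1
    apply Lp.ext
    have h2 : (c • Aut.ind (⟨s, hs, hμs.ne⟩ : FinSet μ) : E1 μ) =ᵐ[μ]
      fun x => c * (Aut.ind (⟨s, hs, hμs.ne⟩ : FinSet μ)) x := Lp.coeFn_smul _ _
    have h3 : (Aut.ind (⟨s, hs, hμs.ne⟩ : FinSet μ)) =ᵐ[μ] s.indicator fun _ => (1 : ℝ) :=
      indicatorConstLp_coeFn
    have h4 : (indicatorConstLp 1 hs hμs.ne c : E1 μ) =ᵐ[μ] s.indicator fun _ => c :=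
      indicatorConstLp_coeFn
    filter_upwards [h2, h3, h4] with x h5 h6 h7
    rw [Lp.simpleFunc.coe_indicatorConst, h7, h5, h6]
    by_cases hx : x ∈ s <;> simp [hx]
  · intro f g hf hg _ h1 h2
    exact hadd _ _ h1 h2

namespace Aut

theorem isClosed_setOf_continuous {Y : Type*} [TopologicalSpace Y] (F : Y → E1 μ → E1 μ)
    (hF : ∀ y f g, dist (F y f) (F y g) = dist f g) :
    IsClosed {f : E1 μ | Continuous fun y => F y f} := by
  refine isClosed_of_closure_subset fun f hf => ?_
  change Continuous fun y => F y f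
  rw [continuous_iff_continuousAt]
  intro y0
  rw [ContinuousAt, Metric.tendsto_nhds]
  intro ε hε
  obtain ⟨g, hg, hfg⟩ := Metric.mem_closure_iff.1 hf (ε / 3) (by positivity)
  have h1 : Continuous fun y => F y g := hg
  have h2 := Metric.tendsto_nhds.1 (h1.tendsto y0) (ε / 3) (by positivity)
  filter_upwards [h2] with y hy
  calc dist (F y f) (F y0 f) ≤ dist (F y f) (F y g) + dist (F y g) (F y0 g) +
        dist (F y0 g) (F y0 f) := dist_triangle4 _ _ _ _
    _ < ε / 3 + ε / 3 + ε / 3 := by
        rw [hF, hF, dist_comm g f]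
        gcongr
    _ = ε := by ring

theorem weakTopology_eq : weakTopology μ =
    TopologicalSpace.induced (evalBoth (Aut μ) (E1 μ)) inferInstance := by
  apply le_antisymm
  · rw [← continuous_iff_le_induced]
    -- continuity of the evaluation maps for the weak topology
    have hima : ∀ A B : FinSet μ, Continuous fun T : Aut μ => T.imageDist A.1 B.1 := by
      intro A B
      rw [continuous_iff_le_induced]
      exact (iInf_le _ A).trans ((iInf_le _ B).trans inf_le_left)
    have hpre : ∀ A B : FinSet μ, Continuous fun T : Aut μ => T.preimageDist A.1 B.1 := by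
      intro A B
      rw [continuous_iff_le_induced]
      exact (iInf_le _ A).trans ((iInf_le _ B).trans inf_le_right)
    have h1 : ∀ f : E1 μ, Continuous (fun T : Aut μ => T • f) := by
      intro f
      refine L1_induction (fun f => Continuous (fun T : Aut μ => T • f)) ?_ ?_ ?_ ?_ f
      · exact isClosed_setOf_continuous (fun (T : Aut μ) f => T • f) (fun T f g => dist_smul T f g)
      · intro A
        rw [continuous_iff_continuousAt]
        intro T0
        obtain ⟨B, hB⟩ := exists_ind T0 A
        rw [ContinuousAt, tendsto_iff_edist_tendsto_0]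
        have h2 := (hima A B).tendsto T0
        rw [imageDist_eq, hB, edist_self] at h2
        refine h2.congr fun T => ?_
        rw [imageDist_eq, hB]
      · intro f g hf hg
        simp only [smul_add']
        exact hf.add hg
      · intro c f hf
        simp only [smul_smul']
        exact hf.const_smul c
    have h2 : ∀ f : E1 μ, Continuous (fun T : Aut μ => T⁻¹ • f) := by
      intro f
      refine L1_induction (fun f => Continuous (fun T : Aut μ => T⁻¹ • f)) ?_ ?_ ?_ ?_ f
      · exact isClosed_setOf_continuous (fun (T : Aut μ) f => T⁻¹ • f)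
          (fun T f g => dist_smul T⁻¹ f g)
      · intro A
        rw [continuous_iff_continuousAt]
        intro T0
        obtain ⟨B, hB⟩ := exists_ind T0⁻¹ A
        rw [ContinuousAt, tendsto_iff_edist_tendsto_0]
        have h2 := (hpre A B).tendsto T0
        rw [preimageDist_eq, hB, edist_self] at h2
        refine h2.congr fun T => ?_
        rw [preimageDist_eq, hB]
      · intro f g hf hg
        simp only [smul_add']
        exact hf.add hg
      · intro c f hf
        simp only [smul_smul']
        exact hf.const_smul c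
    exact (continuous_pi h1).prodMk (continuous_pi h2)
  · let t2 : TopologicalSpace (Aut μ) :=
      TopologicalSpace.induced (evalBoth (Aut μ) (E1 μ)) inferInstance
    have hI : @IsInducing _ _ t2 _ (evalBoth (Aut μ) (E1 μ)) := ⟨rfl⟩
    refine le_iInf fun A => le_iInf fun B => le_inf ?_ ?_
    · rw [← continuous_iff_le_induced]
      have h1 : Continuous[t2, _] fun T : Aut μ => T • ind A :=
        @continuous_smul_const_of _ _ _ _ _ t2 hI (ind A)
      have h2 : Continuous[t2, _] fun T : Aut μ => edist (T • ind A) (ind B) :=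
        Continuous.edist h1 continuous_const
      convert h2 using 2 with T
      exact imageDist_eq T A B
    · rw [← continuous_iff_le_induced]
      have h1 : Continuous[t2, _] fun T : Aut μ => T⁻¹ • ind A :=
        @continuous_inv_smul_const_of _ _ _ _ _ t2 hI (ind A)
      have h2 : Continuous[t2, _] fun T : Aut μ => edist (T⁻¹ • ind A) (ind B) :=
        Continuous.edist h1 continuous_const
      convert h2 using 2 with T
      exact preimageDist_eq T A B

theorem isInducing_evalBoth : IsInducing (evalBoth (Aut μ) (E1 μ)) := ⟨weakTopology_eq⟩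

instance : IsTopologicalGroup (Aut μ) := isTopologicalGroup_of isInducing_evalBoth

/-- The two-sided uniformity. -/
noncomputable instance : UniformSpace (Aut μ) :=
  (UniformSpace.comap (evalBoth (Aut μ) (E1 μ)) inferInstance).replaceTopology weakTopology_eq

theorem isUniformInducing_evalBoth : IsUniformInducing (evalBoth (Aut μ) (E1 μ)) := by
  rw [isUniformInducing_iff_uniformSpace]
  exact (UniformSpace.replaceTopology_eq _ weakTopology_eq).symm

section Standard

variable [StandardBorelSpace X] [SigmaFinite μ]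

/-- Two quasi measure preserving maps with the same preimages of sets of finite measure agree
almost everywhere. -/
theorem ae_eq_of_preimage {Y : Type*} [MeasurableSpace Y] {ν : Measure Y} {f g : Y → X}
    (h : ∀ A : FinSet μ, f ⁻¹' A.1 =ᵐ[ν] g ⁻¹' A.1) : f =ᵐ[ν] g := by
  refine EventuallyEq.of_forall_separating_preimage (fun s : Set X => MeasurableSet s)
    (fun U hU => ?_)
  have h1 : ∀ n, f ⁻¹' (U ∩ spanningSets μ n) =ᵐ[ν] g ⁻¹' (U ∩ spanningSets μ n) := fun n =>
    h ⟨U ∩ spanningSets μ n, hU.inter (measurableSet_spanningSets μ n),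
      (lt_of_le_of_lt (measure_mono inter_subset_right) (measure_spanningSets_lt_top μ n)).ne⟩
  have h2 : U = ⋃ n, U ∩ spanningSets μ n := by
    rw [← inter_iUnion, iUnion_spanningSets, inter_univ]
  rw [h2, preimage_iUnion, preimage_iUnion]
  exact Filter.EventuallyEq.countable_iUnion h1

theorem eq_of_forall_smul_ind {g h : Aut μ} (H : ∀ A : FinSet μ, g • ind A = h • ind A) :
    g = h := by
  obtain ⟨S, hS, rfl⟩ := mk_surj g
  obtain ⟨T, hT, rfl⟩ := mk_surj h
  have h1 : (S.symm : X → X) =ᵐ[μ] T.symm := by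
    apply ae_eq_of_preimage (μ := μ)
    intro A
    have h2 := H A
    rw [mk_smul_ind, mk_smul_ind] at h2
    exact (indicatorConstLp_inj _ _ _ _ one_ne_zero).1 h2
  rw [mk_eq_mk_iff]
  exact mpt_symm_ae (S := ⟨S.symm, hS.symm S⟩) (T := ⟨T.symm, hT.symm T⟩) h1

theorem eq_of_forall_smul {g h : Aut μ} (H : ∀ f : E1 μ, g • f = h • f) : g = h :=
  eq_of_forall_smul_ind fun A => H (ind A)

theorem evalBoth_injective : Function.Injective (evalBoth (Aut μ) (E1 μ)) := by
  intro g h hgh
  refine eq_of_forall_smul fun f => ?_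
  exact congrFun (congrArg Prod.fst hgh) f

instance : T0Space (Aut μ) :=
  ⟨fun _ _ hgh => evalBoth_injective
    ((isInducing_evalBoth (μ := μ)).inseparable_iff.2 hgh).eq⟩

instance : T2Space (Aut μ) := inferInstance

theorem exists_equiv' [NullSingletonClass μ] (T : AEIso μ μ) :
    ∃ S : X ≃ᵐ X, ∀ᵐ x ∂μ, S x = T.fwd x := by
  by_cases hX : Countable X
  · refine ⟨MeasurableEquiv.refl X, ?_⟩
    have h0 : μ univ = 0 := Set.Countable.measure_zero (Set.countable_univ) μ
    exact ae_iff.2 (measure_mono_null (subset_univ _) h0)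
  · exact T.exists_equiv hX

/-- The class of an isomorphism modulo null sets. -/
noncomputable def ofAE [NullSingletonClass μ] (T : AEIso μ μ) : Aut μ :=
  mk (exists_equiv' T).choose
    ⟨(exists_equiv' T).choose.measurable, by
      rw [Measure.map_congr (exists_equiv' T).choose_spec]; exact T.mp.map_eq⟩

theorem ofAE_smul [NullSingletonClass μ] (T : AEIso μ μ) (f : E1 μ) : ofAE T • f = T.L f := by
  rw [ofAE, mk_smul, AEIso.L_apply]
  apply compMP_congr
  have h1 := (exists_equiv' T).choose_spec
  have h2 := T.mpi.quasiMeasurePreserving.ae h1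
  filter_upwards [h2, T.ri] with y hy hy'
  rw [MeasurableEquiv.symm_apply_eq, hy, hy']

end Standard

end Aut

end GenInf
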