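import Mathlib

/-!
# A category lemma for continuous maps with many locally dense points
-/

open Set Filter Topology TopologicalSpace

namespace GenInf

/-- Category lemma (no trees): if every point of `D` is a point of local density (relative to `D`)
of a continuous map `φ` defined on a complete separable space, then the image of
`closure D ∩ O` is comeager. -/
theorem category_lemma {X Y : Type*} [PseudoMetricSpace X] [CompleteSpace X]
    [SecondCountableTopology X] [TopologicalSpace Y] [T3Space Y] (φ : X → Y)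
    (hφ : Continuous φ) (D : Set X)
    (hloc : ∀ x ∈ D, ∀ U : Set X, IsOpen U → x ∈ U → closure (φ '' (D ∩ U)) ∈ 𝓝 (φ x))
    (O : Set X) (hO : IsOpen O) (hDO : D ⊆ O) (hdense : Dense (φ '' D)) :
    {y : Y | ∃ x ∈ closure D ∩ O, φ x = y} ∈ residual Y := by
  classical
  -- the local images
  set W : Set X → Set Y := fun U => interior (closure (φ '' (D ∩ U))) with hW
  have hWopen : ∀ U, IsOpen (W U) := fun U => isOpen_interior
  -- countable base
  set B : Set (Set X) := countableBasis X with hB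
  have hBc : B.Countable := countable_countableBasis X
  have hBb : IsTopologicalBasis B := isBasis_countableBasis X
  -- refinement relation
  let small : Set X → ℕ → Set (Set X) := fun U k =>
    {V | V ∈ B ∧ closure V ⊆ U ∧ Metric.diam V ≤ 1 / ((k : ℝ) + 1) ∧ Bornology.IsBounded V}
  -- key: near a point of D there is a small basic set
  have key : ∀ U : Set X, IsOpen U → ∀ x ∈ D, x ∈ U → ∀ k, ∃ V ∈ small U k, x ∈ V := by
    intro U hU x hx hxU k
    obtain ⟨r, hr, hrU⟩ := Metric.isOpen_iff.1 hU x hxU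
    set r' : ℝ := min (r / 2) (1 / (2 * ((k : ℝ) + 1))) with hr'
    have hk : (0 : ℝ) < (k : ℝ) + 1 := by positivity
    have hr'pos : 0 < r' := lt_min (by positivity) (by positivity)
    obtain ⟨V, hVB, hxV, hVsub⟩ := hBb.exists_subset_of_mem_open
      (Metric.mem_ball_self hr'pos : x ∈ Metric.ball x r') Metric.isOpen_ball
    refine ⟨V, ⟨hVB, ?_, ?_, ?_⟩, hxV⟩
    · calc closure V ⊆ closure (Metric.ball x r') := closure_mono hVsub
        _ ⊆ Metric.closedBall x r' := Metric.closure_ball_subset_closedBall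
        _ ⊆ Metric.ball x r := Metric.closedBall_subset_ball
            (lt_of_le_of_lt (min_le_left _ _) (by linarith))
        _ ⊆ U := hrU
    · calc Metric.diam V ≤ Metric.diam (Metric.ball x r') :=
            Metric.diam_mono hVsub Metric.isBounded_ball
        _ ≤ 2 * r' := Metric.diam_ball hr'pos.le
        _ ≤ 2 * (1 / (2 * ((k : ℝ) + 1))) := by
            gcongr; exact min_le_right _ _
        _ = 1 / ((k : ℝ) + 1) := by field_simp
    · exact Metric.isBounded_ball.subset hVsub
  -- density of the refined local images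
  have dens : ∀ U : Set X, IsOpen U → ∀ k, W U ⊆ closure (⋃ V ∈ small U k, W V) := by
    intro U hU k y hy
    rw [mem_closure_iff]
    intro V' hV' hyV'
    have h1 : y ∈ closure (φ '' (D ∩ U)) := interior_subset hy
    obtain ⟨z, hzV', ⟨x, ⟨hxD, hxU⟩, rfl⟩⟩ := mem_closure_iff.1 h1 V' hV' hyV'
    obtain ⟨V, hV, hxV⟩ := key U hU x hxD hxU k
    have hVo : IsOpen V := hBb.isOpen hV.1
    have h2 : φ x ∈ W V := mem_interior_iff_mem_nhds.2 (hloc x hxD V hVo hxV)
    exact ⟨φ x, hzV', mem_iUnion₂.2 ⟨V, hV, h2⟩⟩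
  -- the meagre exceptional set, in residual form
  have res : ∀ U ∈ insert O B, ∀ k : ℕ,
      {y : Y | y ∈ W U → ∃ V ∈ small U k, y ∈ W V} ∈ residual Y := by
    intro U hU k
    have hUo : IsOpen U := by
      rcases hU with h | h
      · exact h ▸ hO
      · exact hBb.isOpen h
    set S : Set Y := ⋃ V ∈ small U k, W V with hS
    have hSo : IsOpen S := isOpen_biUnion fun V _ => hWopen V
    -- the open dense set
    have hd : Dense (S ∪ (closure (W U))ᶜ) := by
      intro y
      by_cases hy : y ∈ closure (W U)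
      · have : closure (W U) ⊆ closure S := closure_minimal (dens U hUo k) isClosed_closure
        exact closure_mono subset_union_left (this hy)
      · exact subset_closure (Or.inr hy)
    have hopen : IsOpen (S ∪ (closure (W U))ᶜ) := hSo.union isClosed_closure.isOpen_compl
    refine mem_of_superset (residual_of_dense_open hopen hd) ?_
    intro y hy hyW
    rcases hy with hy | hy
    · obtain ⟨V, hV, hyV⟩ := mem_iUnion₂.1 hy
      exact ⟨V, hV, hyV⟩
    · exact absurd (subset_closure hyW) hy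
  have res' : {y : Y | ∀ U ∈ insert O B, ∀ k : ℕ, y ∈ W U → ∃ V ∈ small U k, y ∈ W V}
      ∈ residual Y := by
    have hc : (insert O B).Countable := hBc.insert O
    have := (countable_bInter_mem hc).2 (fun U hU => (countable_iInter_mem (l := residual Y)
      (s := fun k : ℕ => {y : Y | y ∈ W U → ∃ V ∈ small U k, y ∈ W V})).2 (res U hU))
    refine mem_of_superset this ?_
    intro y hy U hU k
    have h1 := mem_iInter₂.1 hy U hU
    exact mem_iInter.1 h1 k
  have resO : W O ∈ residual Y := by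
    refine residual_of_dense_open (hWopen O) ?_
    intro y
    rw [mem_closure_iff]
    intro V' hV' hyV'
    obtain ⟨z, hzV', ⟨x, hxD, rfl⟩⟩ := mem_closure_iff.1 (hdense y) V' hV' hyV'
    exact ⟨φ x, hzV', mem_interior_iff_mem_nhds.2 (hloc x hxD O hO (hDO hxD))⟩
  filter_upwards [res', resO] with y hy hyO
  -- build the nested sequence
  have step : ∀ (k : ℕ) (U : {U : Set X // U ∈ insert O B ∧ y ∈ W U}),
      ∃ V : {U : Set X // U ∈ insert O B ∧ y ∈ W U}, (V : Set X) ∈ small U k := by
    intro k U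
    obtain ⟨V, hV, hyV⟩ := hy U U.2.1 k U.2.2
    exact ⟨⟨V, Or.inr hV.1, hyV⟩, hV⟩
  choose next hnext using step
  let seq : ℕ → {U : Set X // U ∈ insert O B ∧ y ∈ W U} :=
    fun n => Nat.rec ⟨O, Or.inl rfl, hyO⟩ (fun k U => next k U) n
  have hseq : ∀ n, (seq (n + 1)).1 ∈ small (seq n).1 n := fun n => hnext n (seq n)
  have hsub : ∀ n, closure (seq (n + 1)).1 ⊆ (seq n).1 := fun n => (hseq n).2.1
  have hanti : ∀ n m, n ≤ m → (seq m).1 ⊆ (seq n).1 := by
    intro n m hnm
    induction hnm with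
    | refl => exact subset_rfl
    | step _ ih => exact (subset_closure.trans (hsub _)).trans ih
  -- points in D ∩ seq n
  have hne : ∀ n, (D ∩ (seq n).1).Nonempty := by
    intro n
    have h1 : y ∈ closure (φ '' (D ∩ (seq n).1)) := interior_subset (seq n).2.2
    obtain ⟨z, _, ⟨x, hx, _⟩⟩ := mem_closure_iff.1 h1 univ isOpen_univ (mem_univ _)
    exact ⟨x, hx⟩
  choose x hx using hne
  have hcauchy : CauchySeq x := by
    rw [Metric.cauchySeq_iff']
    intro ε hε
    obtain ⟨n, hn⟩ := exists_nat_one_div_lt hε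
    refine ⟨n + 1, fun m hm => ?_⟩
    calc dist (x m) (x (n + 1)) ≤ Metric.diam (seq (n + 1)).1 :=
          Metric.dist_le_diam_of_mem (hseq n).2.2.2 (hanti _ _ hm (hx m).2) (hx (n + 1)).2
      _ ≤ 1 / ((n : ℝ) + 1) := (hseq n).2.2.1
      _ < ε := hn
  obtain ⟨a, ha⟩ := cauchySeq_tendsto_of_complete hcauchy
  have haD : a ∈ closure D := mem_closure_of_tendsto ha (Eventually.of_forall fun n => (hx n).1)
  have haseq : ∀ n, a ∈ (seq n).1 := by
    intro n
    apply hsub n
    apply mem_closure_of_tendsto ha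
    filter_upwards [eventually_ge_atTop (n + 1)] with m hm
    exact hanti _ _ hm (hx m).2
  refine ⟨a, ⟨haD, haseq 0⟩, ?_⟩
  -- φ a = y
  by_contra hne'
  obtain ⟨u, hu, v, hv, huv⟩ : ∃ u ∈ 𝓝 (φ a), ∃ v ∈ 𝓝 y, Disjoint u v :=
    Filter.disjoint_iff.1 (disjoint_nhds_nhds.2 hne')
  have hu' : φ ⁻¹' u ∈ 𝓝 a := hφ.continuousAt hu
  obtain ⟨ε, hε, hεu⟩ := Metric.mem_nhds_iff.1 hu'
  obtain ⟨n, hn⟩ := exists_nat_one_div_lt hε
  have hseqsub : (seq (n + 1)).1 ⊆ φ ⁻¹' u := by
    intro b hb
    apply hεu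
    rw [Metric.mem_ball]
    calc dist b a ≤ Metric.diam (seq (n + 1)).1 :=
          Metric.dist_le_diam_of_mem (hseq n).2.2.2 hb (haseq (n + 1))
      _ ≤ 1 / ((n : ℝ) + 1) := (hseq n).2.2.1
      _ < ε := hn
  have h1 : y ∈ closure (φ '' (D ∩ (seq (n + 1)).1)) := interior_subset (seq (n + 1)).2.2
  obtain ⟨v', hv'v, hv'o, hyv'⟩ := mem_nhds_iff.1 hv
  obtain ⟨z, hzv', ⟨b, ⟨_, hb⟩, rfl⟩⟩ := mem_closure_iff.1 h1 v' hv'o hyv'
  exact Set.disjoint_left.1 huv (hseqsub hb) (hv'v hzv')

end GenInf
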