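import Pool.Agent.Lib_helper15.GenInf.Skew

/-!
# The integer cocycle over the circle
-/

open Set Filter Topology MeasureTheory
open scoped symmDiff ENNReal

namespace GenInf

/-- The representative in `[0, 1)`. -/
noncomputable def rep (s : Circ) : ℝ := (AddCircle.equivIco (1 : ℝ) 0 s : ℝ)

theorem measurable_rep : Measurable rep :=
  measurable_subtype_coe.comp (AddCircle.measurableEquivIco (1 : ℝ) 0).measurable

theorem rep_coe (x : ℝ) : rep (x : Circ) = Int.fract x := by
  rw [rep, AddCircle.coe_equivIco_mk_apply]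
  simp

theorem coe_rep (s : Circ) : ((rep s : ℝ) : Circ) = s := by
  have := (AddCircle.equivIco (1 : ℝ) 0).symm_apply_apply s
  exact this

theorem rep_nonneg (s : Circ) : 0 ≤ rep s := (AddCircle.equivIco (1 : ℝ) 0 s).2.1

theorem rep_lt_one (s : Circ) : rep s < 1 := by
  have := (AddCircle.equivIco (1 : ℝ) 0 s).2.2
  simpa using! this

theorem rep_sub_of_mem (s : Circ) (a : ℝ) (h : 0 ≤ rep s - a) (h' : rep s - a < 1) :
    rep (s - (a : Circ)) = rep s - a := by
  conv_lhs => rw [← coe_rep s]
  rw [← AddCircle.coe_sub, rep_coe]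
  exact Int.fract_eq_self.2 ⟨h, h'⟩

/-- Points close to `0` or `1/2`. -/
def bad (δ : ℝ) : Set Circ :=
  Metric.closedBall 0 δ ∪ Metric.closedBall ((1 / 2 : ℝ) : Circ) δ

theorem measurableSet_bad (δ : ℝ) : MeasurableSet (bad δ) :=
  Metric.isClosed_closedBall.measurableSet.union Metric.isClosed_closedBall.measurableSet

theorem volume_bad_le (δ : ℝ) : volume (bad δ) ≤ ENNReal.ofReal (2 * δ) + ENNReal.ofReal (2 * δ) := by
  refine (measure_union_le _ _).trans ?_
  have h : ∀ x : Circ, volume (Metric.closedBall x δ) ≤ ENNReal.ofReal (2 * δ) := by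
    intro x
    rw [AddCircle.volume_closedBall]
    exact ENNReal.ofReal_le_ofReal (min_le_right _ _)
  exact add_le_add (h _) (h _)

theorem norm_coe_le (x : ℝ) : ‖(x : Circ)‖ ≤ |x| := by
  rw [UnitAddCircle.norm_eq]
  have := round_le x 0
  simpa using this

theorem of_notMem_bad {δ : ℝ} {s : Circ} (h : s ∉ bad δ) :
    δ < rep s ∧ rep s < 1 - δ ∧ δ < |rep s - 1 / 2| := by
  have h1 : δ < ‖s‖ := by
    by_contra hcon
    push Not at hcon
    apply h
    left
    rw [mem_closedBall_zero_iff]
    exact hcon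
  have h2 : δ < ‖s - ((1 / 2 : ℝ) : Circ)‖ := by
    by_contra hcon
    push Not at hcon
    apply h
    right
    rw [Metric.mem_closedBall, dist_eq_norm]
    exact hcon
  refine ⟨?_, ?_, ?_⟩
  · have := norm_coe_le (rep s)
    rw [coe_rep, abs_of_nonneg (rep_nonneg s)] at this
    linarith
  · have := norm_coe_le (rep s - 1)
    rw [AddCircle.coe_sub, coe_rep, abs_of_nonpos (by linarith [rep_lt_one s])] at this
    have h3 : ((1 : ℝ) : Circ) = 0 := by
      exact AddCircle.coe_period (1 : ℝ)
    rw [h3, sub_zero] at this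
    linarith
  · have := norm_coe_le (rep s - 1 / 2)
    rw [AddCircle.coe_sub, coe_rep] at this
    linarith

/-- The cocycle. -/
noncomputable def coc (D : ℝ → ℤ) (J : ℤ) (n : ℕ) (s : Circ) : ℤ :=
  if rep s < 1 / 2 then D (2 * n * rep s) else D (2 * n * rep s) - n + J

theorem measurable_coc {D : ℝ → ℤ} (hD : Measurable D) (J : ℤ) (n : ℕ) :
    Measurable (coc D J n) := by
  unfold coc
  refine Measurable.ite (measurableSet_lt measurable_rep measurable_const) ?_ ?_
  · exact hD.comp (measurable_rep.const_mul _)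
  · exact ((hD.comp (measurable_rep.const_mul _)).sub_const _).add_const _

/-- Increment of the cocycle away from the bad set. -/
theorem coc_sub {D : ℝ → ℤ} {J : ℤ} {n : ℕ} (hn : 0 < n) {t δ : ℝ} (ht : |t| ≤ 2 * n * δ)
    {s : Circ} (hs : s ∉ bad δ) :
    coc D J n s - coc D J n (s - ((t / (2 * n) : ℝ) : Circ)) =
      D (2 * n * rep s) - D (2 * n * rep s - t) := by
  obtain ⟨h1, h2, h3⟩ := of_notMem_bad hs
  have hn' : (0 : ℝ) < 2 * n := by positivity
  have ht' : |t / (2 * n)| ≤ δ := by
    rw [abs_div, abs_of_pos hn', div_le_iff₀ hn']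
    linarith
  obtain ⟨h4, h5⟩ := abs_le.1 ht'
  have h6 : rep (s - ((t / (2 * n) : ℝ) : Circ)) = rep s - t / (2 * n) :=
    rep_sub_of_mem s _ (by linarith) (by linarith)
  have h7 : 2 * (n : ℝ) * (rep s - t / (2 * n)) = 2 * n * rep s - t := by
    field_simp
  have h8 : rep s < 1 / 2 ↔ rep s - t / (2 * n) < 1 / 2 := by
    rcases lt_abs.1 h3 with h | h <;> constructor <;> intro _ <;> linarith
  unfold coc
  rw [h6, h7]
  by_cases h : rep s < 1 / 2
  · rw [if_pos h, if_pos (h8.1 h)]
  · rw [if_neg h, if_neg (fun h' => h (h8.2 h'))]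
    ring

/-- Increment of the cocycle for the half rotation. -/
theorem coc_sub_half {D : ℝ → ℤ} (hD : ∀ y, D (y + 1) = D y + 1) {J : ℤ} {n : ℕ} (hn : 0 < n)
    (s : Circ) : coc D J n s - coc D J n (s - ((n / (2 * n) : ℝ) : Circ)) = J ∨
      coc D J n s - coc D J n (s - ((n / (2 * n) : ℝ) : Circ)) = -J := by
  have hn' : (0 : ℝ) < 2 * n := by positivity
  have hhalf : (n / (2 * n) : ℝ) = 1 / 2 := by
    have : (n : ℝ) ≠ 0 := by positivity
    field_simp
  have hDn : ∀ (m : ℕ) y, D (y + m) = D y + m := by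
    intro m
    induction m with
    | zero => intro y; simp
    | succ m ih =>
      intro y
      have : y + ((m + 1 : ℕ) : ℝ) = (y + m) + 1 := by push_cast; ring
      rw [this, hD, ih]
      push_cast
      ring
  rw [hhalf]
  by_cases h : rep s < 1 / 2
  · right
    have h1 : rep (s - ((1 / 2 : ℝ) : Circ)) = rep s + 1 / 2 := by
      have h2 : s - ((1 / 2 : ℝ) : Circ) = s - ((-(1 / 2) : ℝ) : Circ) := by
        have h3 : ((1 / 2 : ℝ) : Circ) = ((-(1 / 2) : ℝ) : Circ) := by
          have h4 : ((1 / 2 : ℝ) : Circ) - ((-(1 / 2) : ℝ) : Circ) = 0 := by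
            rw [← AddCircle.coe_sub]
            have : (1 / 2 - -(1 / 2) : ℝ) = 1 := by ring
            rw [this]
            exact AddCircle.coe_period (1 : ℝ)
          exact sub_eq_zero.1 h4
        rw [h3]
      rw [h2, rep_sub_of_mem s _ (by linarith [rep_nonneg s]) (by linarith)]
      ring
    unfold coc
    rw [h1, if_pos h, if_neg (by linarith [rep_nonneg s])]
    have h5 : 2 * (n : ℝ) * (rep s + 1 / 2) = 2 * n * rep s + n := by ring
    rw [h5, hDn]
    ring
  · left
    have h1 : rep (s - ((1 / 2 : ℝ) : Circ)) = rep s - 1 / 2 :=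
      rep_sub_of_mem s _ (by linarith) (by linarith [rep_lt_one s])
    unfold coc
    rw [h1, if_neg h, if_pos (by linarith [rep_lt_one s])]
    have h5 : 2 * (n : ℝ) * rep s = 2 * n * (rep s - 1 / 2) + n := by ring
    rw [h5, hDn]
    ring

variable {X : Type*} [mX : MeasurableSpace X] {μ : Measure X} [SFinite μ]

/-- The estimate for conjugated rotations. -/
theorem edist_conjRot_le (T : Aut μ) {c : Circ → ℤ} (hc : Measurable c) (a : Circ)
    (x y : E1 μ) (δ : ℝ) (ε : ℝ≥0∞)
    (h : ∀ s ∉ bad δ, edist ((T ^ (c s - c (s - a))) • x : E1 μ) y ≤ ε) :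
    edist (conjRot T hc a • lift (volume : Measure Circ) x) (lift (volume : Measure Circ) y) ≤
      ε + (‖x‖ₑ + ‖y‖ₑ) * volume (bad δ) := by
  rw [edist_conjRot_smul_lift]
  calc ∫⁻ s : Circ, edist ((T ^ (c s - c (s - a))) • x : E1 μ) y
      ≤ ∫⁻ s : Circ, (ε + (bad δ).indicator (fun _ => ‖x‖ₑ + ‖y‖ₑ) s) := by
        apply lintegral_mono
        intro s
        beta_reduce
        by_cases hs : s ∈ bad δ
        · rw [indicator_of_mem hs]
          refine le_trans ?_ le_add_self
          rw [edist_eq_enorm_sub]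
          refine enorm_sub_le.trans ?_
          gcongr
          rw [← ofReal_norm, Aut.norm_smul', ofReal_norm]
        · exact (h s hs).trans le_self_add
    _ = ε + (‖x‖ₑ + ‖y‖ₑ) * volume (bad δ) := by
        rw [lintegral_add_left measurable_const, lintegral_indicator (measurableSet_bad δ),
          setLIntegral_const, lintegral_const, measure_univ, mul_one]

end GenInf
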