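import Pool.Agent.Lib_helper15.GenInf.Realize

/-!
# `Aut μ` is complete for its two-sided uniformity
-/

open Set Filter Topology MeasureTheory
open scoped symmDiff ENNReal

namespace GenInf

variable {X : Type*} [mX : MeasurableSpace X] {μ : Measure X}

namespace Aut

theorem coeFn_ind (A : FinSet μ) : (ind A : X → ℝ) =ᵐ[μ] A.1.indicator fun _ => (1 : ℝ) :=
  indicatorConstLp_coeFn

theorem ind_sup (A B : FinSet μ) : ind A ⊔ ind B = ind (A.union B) := by
  apply Lp.ext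
  filter_upwards [Lp.coeFn_sup (ind A) (ind B), coeFn_ind A, coeFn_ind B,
    coeFn_ind (A.union B)] with x h1 h2 h3 h4
  rw [h1, Pi.sup_apply, h2, h3, h4]
  change _ = (A.1 ∪ B.1).indicator (fun _ => (1 : ℝ)) x
  by_cases hA : x ∈ A.1 <;> by_cases hB : x ∈ B.1 <;> simp [hA, hB]

theorem ind_inf (A B : FinSet μ) : ind A ⊓ ind B = ind (A.inter B) := by
  apply Lp.ext
  filter_upwards [Lp.coeFn_inf (ind A) (ind B), coeFn_ind A, coeFn_ind B,
    coeFn_ind (A.inter B)] with x h1 h2 h3 h4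
  rw [h1, Pi.inf_apply, h2, h3, h4]
  change _ = (A.1 ∩ B.1).indicator (fun _ => (1 : ℝ)) x
  by_cases hA : x ∈ A.1 <;> by_cases hB : x ∈ B.1 <;> simp [hA, hB]

theorem ind_eq_iff {A B : FinSet μ} : ind A = ind B ↔ A.1 =ᵐ[μ] B.1 :=
  indicatorConstLp_inj _ _ _ _ one_ne_zero

theorem ind_empty : ind (FinSet.empty μ) = 0 := indicatorConstLp_empty

theorem smul_sup' (g : Aut μ) (x y : E1 μ) : g • (x ⊔ y) = (g • x) ⊔ (g • y) := by
  obtain ⟨S, hS, rfl⟩ := mk_surj g
  apply Lp.ext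
  rw [mk_smul, mk_smul, mk_smul]
  have h1 := Lp.coeFn_compMeasurePreserving (x ⊔ y) (hS.symm S)
  have h2 := Lp.coeFn_compMeasurePreserving x (hS.symm S)
  have h3 := Lp.coeFn_compMeasurePreserving y (hS.symm S)
  have h4 := (hS.symm S).quasiMeasurePreserving.ae (Lp.coeFn_sup x y)
  filter_upwards [h1, h2, h3, h4, Lp.coeFn_sup (Lp.compMeasurePreserving S.symm (hS.symm S) x)
    (Lp.compMeasurePreserving S.symm (hS.symm S) y)] with a h5 h6 h7 h8 h9
  rw [h5, h9, Pi.sup_apply, h6, h7]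
  simp only [Function.comp_apply]
  rw [h8, Pi.sup_apply]

theorem smul_inf' (g : Aut μ) (x y : E1 μ) : g • (x ⊓ y) = (g • x) ⊓ (g • y) := by
  obtain ⟨S, hS, rfl⟩ := mk_surj g
  apply Lp.ext
  rw [mk_smul, mk_smul, mk_smul]
  have h1 := Lp.coeFn_compMeasurePreserving (x ⊓ y) (hS.symm S)
  have h2 := Lp.coeFn_compMeasurePreserving x (hS.symm S)
  have h3 := Lp.coeFn_compMeasurePreserving y (hS.symm S)
  have h4 := (hS.symm S).quasiMeasurePreserving.ae (Lp.coeFn_inf x y)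
  filter_upwards [h1, h2, h3, h4, Lp.coeFn_inf (Lp.compMeasurePreserving S.symm (hS.symm S) x)
    (Lp.compMeasurePreserving S.symm (hS.symm S) y)] with a h5 h6 h7 h8 h9
  rw [h5, h9, Pi.inf_apply, h6, h7]
  simp only [Function.comp_apply]
  rw [h8, Pi.inf_apply]

/-- The set of indicator functions is closed in `L¹`. -/
theorem isClosed_range_ind : IsClosed (range (ind (μ := μ))) := by
  refine isClosed_of_closure_subset fun f hf => ?_
  -- distance to the set `{0, 1}`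
  have hmeas : AEMeasurable (fun x => min ‖f x‖ₑ ‖f x - 1‖ₑ) μ :=
    (Lp.aestronglyMeasurable f).enorm.min
      ((Lp.aestronglyMeasurable f).sub aestronglyMeasurable_const).enorm
  have hzero : ∫⁻ x, min ‖f x‖ₑ ‖f x - 1‖ₑ ∂μ = 0 := by
    by_contra hne
    have hpos : 0 < ∫⁻ x, min ‖f x‖ₑ ‖f x - 1‖ₑ ∂μ := pos_iff_ne_zero.2 hne
    obtain ⟨g, ⟨A, rfl⟩, hg⟩ := EMetric.mem_closure_iff.1 hf _ hpos
    refine absurd hg (not_lt.2 ?_)
    rw [Lp.edist_def, eLpNorm_one_eq_lintegral_enorm]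
    apply lintegral_mono_ae
    filter_upwards [coeFn_ind A] with x hx
    rw [Pi.sub_apply, hx]
    by_cases hA : x ∈ A.1
    · simp only [hA, indicator_of_mem]
      exact min_le_right _ _
    · simp only [hA, not_false_eq_true, indicator_of_notMem, sub_zero]
      exact min_le_left _ _
  rw [lintegral_eq_zero_iff' hmeas] at hzero
  have hm : MeasurableSet {x | f x = 1} :=
    (Lp.stronglyMeasurable f).measurable (measurableSet_singleton 1)
  have hfe : (f : X → ℝ) =ᵐ[μ] {x | f x = 1}.indicator fun _ => (1 : ℝ) := by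
    filter_upwards [hzero] with x hx
    by_cases h1 : f x = 1
    · simp [h1]
    · have h2 : min ‖f x‖ₑ ‖f x - 1‖ₑ = 0 := hx
      rw [min_eq_iff] at h2
      rcases h2 with ⟨h2, _⟩ | ⟨h2, _⟩
      · rw [enorm_eq_zero] at h2
        simp [h2]
      · rw [enorm_eq_zero, sub_eq_zero] at h2
        exact absurd h2 h1
  have hfin : μ {x | f x = 1} ≠ ∞ := by
    have h1 : ∫⁻ x, ‖f x‖ₑ ∂μ < ∞ := by
      rw [← eLpNorm_one_eq_lintegral_enorm]; exact Lp.eLpNorm_lt_top f
    have h2 : μ {x | f x = 1} ≤ ∫⁻ x, ‖f x‖ₑ ∂μ := by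
      have h3 : μ {x | f x = 1} = ∫⁻ x, {x | f x = 1}.indicator (fun _ => (1 : ℝ≥0∞)) x ∂μ := by
        rw [lintegral_indicator hm]; simp
      rw [h3]
      apply lintegral_mono
      intro x
      by_cases h : x ∈ {x | f x = 1}
      · rw [indicator_of_mem h]
        have h4 : f x = 1 := h
        change (1 : ℝ≥0∞) ≤ ‖f x‖ₑ
        rw [h4]; simp
      · rw [indicator_of_notMem h]; exact bot_le
    exact (lt_of_le_of_lt h2 h1).ne
  refine ⟨⟨_, hm, hfin⟩, ?_⟩
  apply Lp.ext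
  exact (coeFn_ind _).trans hfe.symm

section Complete

variable [StandardBorelSpace X] [SigmaFinite μ] [NullSingletonClass μ]

theorem closure_evalBoth (p : (E1 μ → E1 μ) × (E1 μ → E1 μ))
    (hp : p ∈ closure (range (evalBoth (Aut μ) (E1 μ)))) :
    p ∈ range (evalBoth (Aut μ) (E1 μ)) := by
  -- the case of an empty space is trivial
  rcases isEmpty_or_nonempty X with hX | hX
  · have hE : Subsingleton (E1 μ) :=
      ⟨fun f g => Lp.ext (Eventually.of_forall fun x => (hX.false x).elim)⟩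
    refine ⟨1, ?_⟩
    apply Prod.ext <;> funext x <;> exact Subsingleton.elim _ _
  have transfer : ∀ S : Set ((E1 μ → E1 μ) × (E1 μ → E1 μ)), IsClosed S →
      (∀ g, evalBoth (Aut μ) (E1 μ) g ∈ S) → p ∈ S := fun S hS h =>
    closure_minimal (by rintro _ ⟨g, rfl⟩; exact h g) hS hp
  have c1 : ∀ x : E1 μ, Continuous fun q : (E1 μ → E1 μ) × (E1 μ → E1 μ) => q.1 x := fun x =>
    (continuous_apply x).comp continuous_fst
  have c2 : ∀ x : E1 μ, Continuous fun q : (E1 μ → E1 μ) × (E1 μ → E1 μ) => q.2 x := fun x =>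
    (continuous_apply x).comp continuous_snd
  -- the closed conditions
  have hU1 : ∀ x y, dist (p.1 x) (p.1 y) = dist x y := fun x y =>
    transfer {q | dist (q.1 x) (q.1 y) = dist x y}
      (isClosed_eq ((c1 x).dist (c1 y)) continuous_const) (fun g => dist_smul g x y)
  have hV1 : ∀ x y, dist (p.2 x) (p.2 y) = dist x y := fun x y =>
    transfer {q | dist (q.2 x) (q.2 y) = dist x y}
      (isClosed_eq ((c2 x).dist (c2 y)) continuous_const) (fun g => dist_smul g⁻¹ x y)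
  have hUV : ∀ x y, dist (p.1 x) y = dist x (p.2 y) := fun x y =>
    transfer {q | dist (q.1 x) y = dist x (q.2 y)}
      (isClosed_eq ((c1 x).dist continuous_const) (continuous_const.dist (c2 y)))
      (fun g => by
        change dist (g • x) y = dist x (g⁻¹ • y)
        rw [← dist_smul g x (g⁻¹ • y), smul_inv_smul])
  have hUadd : ∀ x y, p.1 (x + y) = p.1 x + p.1 y := fun x y =>
    transfer {q | q.1 (x + y) = q.1 x + q.1 y} (isClosed_eq (c1 _) ((c1 x).add (c1 y)))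
      (fun g => smul_add' g x y)
  have hUsmul : ∀ (c : ℝ) x, p.1 (c • x) = c • p.1 x := fun c x =>
    transfer {q | q.1 (c • x) = c • q.1 x} (isClosed_eq (c1 _) ((c1 x).const_smul c))
      (fun g => smul_smul' g c x)
  have hUsup : ∀ x y, p.1 (x ⊔ y) = p.1 x ⊔ p.1 y := fun x y =>
    transfer {q | q.1 (x ⊔ y) = q.1 x ⊔ q.1 y} (isClosed_eq (c1 _) ((c1 x).sup (c1 y)))
      (fun g => smul_sup' g x y)
  have hUinf : ∀ x y, p.1 (x ⊓ y) = p.1 x ⊓ p.1 y := fun x y =>
    transfer {q | q.1 (x ⊓ y) = q.1 x ⊓ q.1 y} (isClosed_eq (c1 _) ((c1 x).inf (c1 y)))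
      (fun g => smul_inf' g x y)
  have hVsup : ∀ x y, p.2 (x ⊔ y) = p.2 x ⊔ p.2 y := fun x y =>
    transfer {q | q.2 (x ⊔ y) = q.2 x ⊔ q.2 y} (isClosed_eq (c2 _) ((c2 x).sup (c2 y)))
      (fun g => smul_sup' g⁻¹ x y)
  have hVinf : ∀ x y, p.2 (x ⊓ y) = p.2 x ⊓ p.2 y := fun x y =>
    transfer {q | q.2 (x ⊓ y) = q.2 x ⊓ q.2 y} (isClosed_eq (c2 _) ((c2 x).inf (c2 y)))
      (fun g => smul_inf' g⁻¹ x y)
  have hU0 : p.1 0 = 0 :=
    transfer {q | q.1 0 = 0} (isClosed_eq (c1 _) continuous_const) (fun g => smul_zero' g)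
  have hV0 : p.2 0 = 0 :=
    transfer {q | q.2 0 = 0} (isClosed_eq (c2 _) continuous_const) (fun g => smul_zero' g⁻¹)
  have hUind : ∀ A : FinSet μ, p.1 (ind A) ∈ range (ind (μ := μ)) := fun A =>
    transfer {q | q.1 (ind A) ∈ range (ind (μ := μ))} (isClosed_range_ind.preimage (c1 _))
      (fun g => by obtain ⟨B, hB⟩ := exists_ind g A; exact ⟨B, hB.symm⟩)
  have hVind : ∀ A : FinSet μ, p.2 (ind A) ∈ range (ind (μ := μ)) := fun A =>
    transfer {q | q.2 (ind A) ∈ range (ind (μ := μ))} (isClosed_range_ind.preimage (c2 _))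
      (fun g => by obtain ⟨B, hB⟩ := exists_ind g⁻¹ A; exact ⟨B, hB.symm⟩)
  have hVU : ∀ x, p.2 (p.1 x) = x := fun x => by
    have h := hUV x (p.1 x)
    rw [dist_self] at h
    exact (dist_eq_zero.1 h.symm).symm
  have hUVx : ∀ x, p.1 (p.2 x) = x := fun x => by
    have h := hUV (p.2 x) x
    rw [dist_self] at h
    exact dist_eq_zero.1 h
  choose ψ hψ using hUind
  choose φ hφ using hVind
  -- set-level consequences
  have tosets : ∀ (W : E1 μ → E1 μ) (W' : E1 μ → E1 μ) (φ ψ : FinSet μ → FinSet μ),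
      (∀ A, ind (φ A) = W (ind A)) → (∀ A, ind (ψ A) = W' (ind A)) →
      (∀ x y, W (x ⊔ y) = W x ⊔ W y) → (∀ x y, W (x ⊓ y) = W x ⊓ W y) → W 0 = 0 →
      (∀ x y, dist (W x) (W y) = dist x y) → (∀ x, W (W' x) = x) →
      ∃ τ : X → X, MeasurePreserving τ μ μ ∧ ∀ A : FinSet μ, τ ⁻¹' A.1 =ᵐ[μ] (φ A).1 := by
    intro W W' φ ψ hφ hψ hsup hinf h0 hd hWW
    apply exists_point_map_of_finSet φ ψ
    · intro A B
      change (φ (A.union B)).1 =ᵐ[μ] ((φ A).union (φ B)).1
      rw [← ind_eq_iff, hφ, ← ind_sup, ← ind_sup, hsup, hφ, hφ]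
    · intro A B
      change (φ (A.inter B)).1 =ᵐ[μ] ((φ A).inter (φ B)).1
      rw [← ind_eq_iff, hφ, ← ind_inf, ← ind_inf, hinf, hφ, hφ]
    · change (φ (FinSet.empty μ)).1 =ᵐ[μ] (FinSet.empty μ).1
      rw [← ind_eq_iff, hφ, ind_empty, h0]
    · intro A B
      rw [← edist_ind, ← edist_ind, hφ, hφ, edist_dist, hd, ← edist_dist]
    · intro A
      rw [← ind_eq_iff, hφ, hψ, hWW]
  obtain ⟨τ, hτ, hτφ⟩ := tosets p.2 p.1 φ ψ hφ hψ hVsup hVinf hV0 hV1 hVU
  obtain ⟨σ, hσ, hσψ⟩ := tosets p.1 p.2 ψ φ hψ hφ hUsup hUinf hU0 hU1 hUVx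
  -- `τ` and `σ` are inverse to each other
  have hστ : ∀ᵐ x ∂μ, σ (τ x) = x := by
    have : (σ ∘ τ) =ᵐ[μ] id := by
      apply ae_eq_of_preimage (μ := μ)
      intro A
      rw [preimage_comp, preimage_id]
      have h1 : τ ⁻¹' (σ ⁻¹' A.1) =ᵐ[μ] τ ⁻¹' (ψ A).1 :=
        hτ.quasiMeasurePreserving.preimage_ae_eq (hσψ A)
      refine h1.trans ((hτφ _).trans ?_)
      rw [← ind_eq_iff, hφ, hψ, hVU]
    exact this
  have hτσ : ∀ᵐ x ∂μ, τ (σ x) = x := by
    have : (τ ∘ σ) =ᵐ[μ] id := by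
      apply ae_eq_of_preimage (μ := μ)
      intro A
      rw [preimage_comp, preimage_id]
      have h1 : σ ⁻¹' (τ ⁻¹' A.1) =ᵐ[μ] σ ⁻¹' (φ A).1 :=
        hσ.quasiMeasurePreserving.preimage_ae_eq (hτφ A)
      refine h1.trans ((hσψ _).trans ?_)
      rw [← ind_eq_iff, hψ, hφ, hUVx]
    exact this
  let T : AEIso μ μ := ⟨τ, σ, hτ, hσ, hστ, hτσ⟩
  -- the element of the group
  have hgU : ∀ x, ofAE T • x = p.1 x := by
    intro x
    refine L1_induction (fun x => ofAE T • x = p.1 x) ?_ ?_ ?_ ?_ x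
    · refine isClosed_eq ?_ ?_
      · exact (isometry_smul (E1 μ) (ofAE T)).continuous
      · exact (Isometry.of_dist_eq hU1).continuous
    · intro A
      rw [ofAE_smul, ← hψ, AEIso.L_apply]
      change Lp.compMeasurePreserving σ hσ (indicatorConstLp 1 A.2.1 A.2.2 (1 : ℝ)) = _
      rw [Lp.indicatorConstLp_compMeasurePreserving]
      exact (indicatorConstLp_inj _ _ _ _ one_ne_zero).2 (hσψ A)
    · intro f g hf hg
      rw [smul_add', hUadd, hf, hg]
    · intro c f hf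
      rw [smul_smul', hUsmul, hf]
  refine ⟨ofAE T, Prod.ext (funext hgU) (funext fun x => ?_)⟩
  change (ofAE T)⁻¹ • x = p.2 x
  rw [inv_smul_eq_iff, hgU, hUVx]

instance : CompleteSpace (Aut μ) :=
  completeSpace_of isUniformInducing_evalBoth closure_evalBoth

end Complete

section Count

variable [StandardBorelSpace X] [SigmaFinite μ]

instance : TopologicalSpace.SeparableSpace (E1 μ) := by
  have : Fact ((1 : ℝ≥0∞) ≠ ∞) := ⟨ENNReal.one_ne_top⟩
  infer_instance

instance : IsCountablyGenerated (uniformity (Aut μ)) :=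
  isCountablyGenerated_of isUniformInducing_evalBoth

instance : SecondCountableTopology (Aut μ) :=
  secondCountable_of isUniformInducing_evalBoth

end Count

end Aut

end GenInf
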