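import Mathlib

/-!
# The group of automorphisms of a measure space, with the weak topology

Definitions used in the statement of the main theorem on generic infinite measure preserving
automorphisms.
-/

open Set Filter Topology MeasureTheory
open scoped symmDiff ENNReal

namespace GenInf

variable {X : Type*} [mX : MeasurableSpace X]

/-- The invertible (bi-measurable) measure-preserving transformations of `(X, μ)`. -/
def MPT (μ : Measure X) : Type _ := {T : X ≃ᵐ X // MeasurePreserving T μ μ}

/-- Two transformations are identified when they coincide almost everywhere. -/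
instance mptSetoid (μ : Measure X) : Setoid (MPT μ) where
  r S T := ∀ᵐ x ∂μ, S.1 x = T.1 x
  iseqv :=
    { refl := fun _ => Eventually.of_forall fun _ => rfl
      symm := fun h => h.mono fun _ hx => hx.symm
      trans := fun h h' => (h.and h').mono fun _ hx => hx.1.trans hx.2 }

/-- `Aut μ` is the group of invertible measure-preserving transformations of `(X, μ)`
modulo null sets. -/
def Aut (μ : Measure X) : Type _ := Quotient (mptSetoid μ)

variable {μ : Measure X}

theorem mpt_symm_ae {S T : MPT μ} (h : ∀ᵐ x ∂μ, S.1 x = T.1 x) :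
    ∀ᵐ x ∂μ, S.1.symm x = T.1.symm x := by
  have h1 : ∀ᵐ x ∂μ, S.1 (T.1.symm x) = T.1 (T.1.symm x) :=
    (T.2.symm T.1).quasiMeasurePreserving.ae h
  filter_upwards [h1] with x hx
  rw [MeasurableEquiv.apply_symm_apply] at hx
  rw [MeasurableEquiv.symm_apply_eq, hx]

theorem mpt_comp_ae {S S' T T' : MPT μ} (h : ∀ᵐ x ∂μ, S.1 x = S'.1 x)
    (h' : ∀ᵐ x ∂μ, T.1 x = T'.1 x) : ∀ᵐ x ∂μ, S.1 (T.1 x) = S'.1 (T'.1 x) := by
  have h1 : ∀ᵐ x ∂μ, S.1 (T.1 x) = S'.1 (T.1 x) := T.2.quasiMeasurePreserving.ae h
  filter_upwards [h1, h'] with x hx hx'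
  rw [hx, hx']

namespace Aut

/-- The class of an invertible measure-preserving transformation. -/
def mk (T : X ≃ᵐ X) (h : MeasurePreserving T μ μ) : Aut μ := Quotient.mk (mptSetoid μ) ⟨T, h⟩

/-- The identity. -/
instance : One (Aut μ) := ⟨mk (MeasurableEquiv.refl X) (MeasurePreserving.id μ)⟩

/-- Composition: `S * T` is the class of `x ↦ S (T x)`. -/
instance : Mul (Aut μ) :=
  ⟨Quotient.map₂ (fun S T => ⟨T.1.trans S.1, S.2.comp T.2⟩)
    (fun _ _ h _ _ h' => mpt_comp_ae h h')⟩

/-- Inverse. -/
instance : Inv (Aut μ) :=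
  ⟨Quotient.map (fun T => ⟨T.1.symm, T.2.symm T.1⟩) (fun _ _ h => mpt_symm_ae h)⟩

instance : Group (Aut μ) where
  mul_assoc a b c := by
    induction a using Quotient.inductionOn with | _ a => ?_
    induction b using Quotient.inductionOn with | _ b => ?_
    induction c using Quotient.inductionOn with | _ c => ?_
    rfl
  one_mul a := by
    induction a using Quotient.inductionOn with | _ a => ?_
    rfl
  mul_one a := by
    induction a using Quotient.inductionOn with | _ a => ?_
    rfl
  inv_mul_cancel a := by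
    induction a using Quotient.inductionOn with | _ a => ?_
    apply Quotient.sound
    exact Eventually.of_forall fun x => a.1.symm_apply_apply x

/-- `μ (T A ∆ B)`. -/
def imageDist {X : Type*} {mX : MeasurableSpace X} {μ : Measure X} (T : Aut μ)
    (A B : Set X) : ℝ≥0∞ :=
  Quotient.liftOn T (fun T => μ ((T.1 '' A) ∆ B)) (by
    intro S T h
    apply measure_congr
    refine EventuallyEq.symmDiff ?_ (ae_eq_refl B)
    rw [MeasurableEquiv.image_eq_preimage_symm, MeasurableEquiv.image_eq_preimage_symm]
    have h2 : (S.1.symm : X → X) =ᵐ[μ] T.1.symm := mpt_symm_ae h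
    exact h2.preimage A)

/-- `μ (T⁻¹ A ∆ B)`. -/
def preimageDist {X : Type*} {mX : MeasurableSpace X} {μ : Measure X} (T : Aut μ)
    (A B : Set X) : ℝ≥0∞ :=
  Quotient.liftOn T (fun T => μ ((T.1 ⁻¹' A) ∆ B)) (by
    intro S T h
    apply measure_congr
    refine EventuallyEq.symmDiff ?_ (ae_eq_refl B)
    have h2 : (S.1 : X → X) =ᵐ[μ] T.1 := h
    exact h2.preimage A)

end Aut

/-- Measurable sets of finite measure. -/
abbrev FinSet (μ : Measure X) : Type _ := {A : Set X // MeasurableSet A ∧ μ A ≠ ∞}

/-- The weak topology on `Aut μ`: the coarsest topology for which all the functions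
`T ↦ μ (T A ∆ B)` and `T ↦ μ (T⁻¹ A ∆ B)` (`A`, `B` measurable of finite measure) are
continuous. -/
instance weakTopology (μ : Measure X) : TopologicalSpace (Aut μ) :=
  ⨅ (A : FinSet μ) (B : FinSet μ),
    (TopologicalSpace.induced (fun T : Aut μ => T.imageDist A.1 B.1) inferInstance ⊓
      TopologicalSpace.induced (fun T : Aut μ => T.preimageDist A.1 B.1) inferInstance)

/-- `T` embeds in a flow: there is a continuous homomorphism `t ↦ F t` from `ℝ` to `Aut μ` with
`F 1 = T`. -/
def EmbedsInFlow (T : Aut μ) : Prop :=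
  ∃ F : ℝ → Aut μ, Continuous F ∧ (∀ s t, F (s + t) = F s * F t) ∧ F 1 = T

/-- `T` has a root of order `n`. -/
def HasRoot (n : ℕ) (T : Aut μ) : Prop := ∃ S : Aut μ, S ^ n = T

/-- `m` is a factor of `T`: a sub-σ-algebra with `T⁻¹ m = m` modulo null sets on which `μ` is
σ-finite. -/
structure IsFactor {X : Type*} {mX : MeasurableSpace X} {μ : Measure X} (T : Aut μ)
    (m : MeasurableSpace X) : Prop where
  le : m ≤ mX
  /-- `T⁻¹ A ∈ m` (mod 0) for all `A ∈ m` -/
  preimage_mem : ∀ A, MeasurableSet[m] A → ∃ B, MeasurableSet[m] B ∧ T.preimageDist A B = 0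
  /-- every `B ∈ m` is of the form `T⁻¹ A` (mod 0) with `A ∈ m` -/
  mem_preimage : ∀ B, MeasurableSet[m] B → ∃ A, MeasurableSet[m] A ∧ T.preimageDist A B = 0
  /-- `μ` restricted to `m` is σ-finite -/
  sigmaFinite : SigmaFinite (μ.trim le)

/-- `T` has a nontrivial factor, i.e. a factor `m` which does not coincide with the full
σ-algebra modulo null sets. -/
def HasNontrivialFactor (T : Aut μ) : Prop :=
  ∃ m : MeasurableSpace X, IsFactor T m ∧
    ∃ A, MeasurableSet[mX] A ∧ ∀ B, MeasurableSet[m] B → μ (A ∆ B) ≠ 0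

end GenInf
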