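import Pool.Agent.Lib_helper15.GenInf.Circle

/-!
# Descent of flows from `X × 𝕋` to `X` and the main approximation lemma
-/

open Set Filter Topology MeasureTheory
open scoped symmDiff ENNReal

namespace GenInf

section Conj

variable {X Y : Type*} [mX : MeasurableSpace X] [mY : MeasurableSpace Y] {μ : Measure X}
  {ν : Measure Y} [StandardBorelSpace X] [SigmaFinite μ] [NullSingletonClass μ]

/-- Conjugation by an isomorphism mod 0. -/
noncomputable def conjFun (θ : AEIso ν μ) (g : Aut ν) : Aut μ :=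
  Aut.ofAE (θ.symm.trans ((AEIso.ofEquiv (Quotient.out g).1 (Quotient.out g).2).trans θ))

theorem conjFun_smul (θ : AEIso ν μ) (g : Aut ν) (f : E1 μ) :
    conjFun θ g • f = θ.L (g • (θ.symm.L f)) := by
  rw [conjFun, Aut.ofAE_smul, AEIso.L_trans, AEIso.L_trans]
  congr 1
  have h1 : g = Aut.mk (Quotient.out g).1 (Quotient.out g).2 := (Quotient.out_eq g).symm
  conv_rhs => rw [h1]
  rfl

/-- Conjugation as a group homomorphism. -/
noncomputable def conjHom (θ : AEIso ν μ) : Aut ν →* Aut μ where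
  toFun := conjFun θ
  map_one' := by
    apply Aut.eq_of_forall_smul
    intro f
    rw [conjFun_smul, one_smul, one_smul, AEIso.L_L_symm]
  map_mul' g h := by
    apply Aut.eq_of_forall_smul
    intro f
    rw [mul_smul, conjFun_smul, conjFun_smul, conjFun_smul, AEIso.L_symm_L, mul_smul]

theorem conjHom_smul (θ : AEIso ν μ) (g : Aut ν) (f : E1 μ) :
    conjHom θ g • f = θ.L (g • (θ.symm.L f)) := conjFun_smul θ g f

end Conj

variable {X : Type*} [mX : MeasurableSpace X] {μ : Measure X}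

section Cont

variable [SFinite μ]

theorem continuous_rotAut_smul (f : E1 (μ.prod (volume : Measure Circ))) :
    Continuous fun a : Circ => rotAut μ a • f := by
  rw [continuous_iff_continuousAt]
  intro a0
  have h1 : Tendsto (fun a : Circ => a - a0) (𝓝 a0) (𝓝 0) := by
    have : Continuous fun a : Circ => a - a0 := by fun_prop
    have h := this.tendsto a0
    rwa [sub_self] at h
  have h2 := (tendsto_rotAut_smul (rotAut μ a0 • f)).comp h1
  refine h2.congr fun a => ?_
  simp only [Function.comp_apply]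
  rw [← mul_smul, ← rotAut_add, sub_add_cancel]

theorem continuous_conjRot_smul (T : Aut μ) {c : Circ → ℤ} (hc : Measurable c)
    (f : E1 (μ.prod (volume : Measure Circ))) : Continuous fun a : Circ => conjRot T hc a • f := by
  simp only [conjRot, mul_smul]
  exact (isometry_smul _ (skewAut T hc)).continuous.comp
    (continuous_rotAut_smul ((skewAut T hc)⁻¹ • f))

end Cont

section Main

variable [StandardBorelSpace X] [SigmaFinite μ] [NullSingletonClass μ]

/-- The flow on `X`. -/
noncomputable def flowDown (θ : AEIso (μ.prod (volume : Measure Circ)) μ) (T : Aut μ)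
    {c : Circ → ℤ} (hc : Measurable c) (n : ℕ) : C(ℝ, Aut μ) where
  toFun t := conjHom θ (conjRot T hc ((t / (2 * n) : ℝ) : Circ))
  continuous_toFun := by
    apply continuous_of_smul Aut.isInducing_evalBoth
    intro f
    simp only [conjHom_smul]
    have h1 : Continuous fun t : ℝ => ((t / (2 * n) : ℝ) : Circ) :=
      (AddCircle.continuous_mk' 1).comp (continuous_id.div_const _)
    exact θ.L.continuous.comp ((continuous_conjRot_smul T hc (θ.symm.L f)).comp h1)

theorem flowDown_apply (θ : AEIso (μ.prod (volume : Measure Circ)) μ) (T : Aut μ)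
    {c : Circ → ℤ} (hc : Measurable c) (n : ℕ) (t : ℝ) :
    flowDown θ T hc n t = conjHom θ (conjRot T hc ((t / (2 * n) : ℝ) : Circ)) := rfl

theorem flowDown_add (θ : AEIso (μ.prod (volume : Measure Circ)) μ) (T : Aut μ)
    {c : Circ → ℤ} (hc : Measurable c) (n : ℕ) (s t : ℝ) :
    flowDown θ T hc n (s + t) = flowDown θ T hc n s * flowDown θ T hc n t := by
  rw [flowDown_apply, flowDown_apply, flowDown_apply, ← map_mul, ← conjRot_add, add_div,
    AddCircle.coe_add]

theorem flowDown_period (θ : AEIso (μ.prod (volume : Measure Circ)) μ) (T : Aut μ)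
    {c : Circ → ℤ} (hc : Measurable c) {n : ℕ} (hn : 0 < n) :
    flowDown θ T hc n (2 * n) = 1 := by
  have hn' : (2 * (n : ℝ)) ≠ 0 := by positivity
  rw [flowDown_apply, div_self hn']
  have : ((1 : ℝ) : Circ) = 0 := AddCircle.coe_period (1 : ℝ)
  rw [this, conjRot_zero, map_one]

omit [StandardBorelSpace X] [NullSingletonClass μ] in
theorem rotAut_half_ne_one [NeZero μ] : rotAut μ ((1 / 2 : ℝ) : Circ) ≠ 1 := by
  intro h
  rw [rotAut, Aut.one_def, Aut.mk_eq_mk_iff] at h
  have h0 : ((1 / 2 : ℝ) : Circ) ≠ 0 := by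
    intro h
    have h1 := rep_coe (1 / 2)
    have h2 := rep_coe 0
    rw [h] at h1
    rw [AddCircle.coe_zero] at h2
    rw [h1] at h2
    norm_num [Int.fract] at h2
  have h1 : ∀ᵐ p ∂(μ.prod (volume : Measure Circ)), False := by
    filter_upwards [h] with p hp
    rw [rotE_apply] at hp
    have h2 : p.2 + ((1 / 2 : ℝ) : Circ) = p.2 := congrArg Prod.snd hp
    exact h0 (by simpa using h2)
  have h3 : μ.prod (volume : Measure Circ) = 0 := by
    simpa using h1
  have h4 : (μ.prod (volume : Measure Circ)) univ = 0 := by rw [h3]; simp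
  rw [← univ_prod_univ, Measure.prod_prod, UnitAddCircle.measure_univ, mul_one] at h4
  exact NeZero.ne μ (Measure.measure_univ_eq_zero.1 h4)

theorem flowDown_half_ne [NeZero μ] (θ : AEIso (μ.prod (volume : Measure Circ)) μ) (T : Aut μ)
    {c : Circ → ℤ} (hc : Measurable c) {n : ℕ} (hn : 0 < n) :
    flowDown θ T hc n n ≠ 1 := by
  have hhalf : ((n : ℝ) / (2 * n) : ℝ) = 1 / 2 := by
    have : (n : ℝ) ≠ 0 := by positivity
    field_simp
  rw [flowDown_apply, hhalf]
  intro h
  apply rotAut_half_ne_one (μ := μ)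
  have h1 : ∀ f : E1 (μ.prod (volume : Measure Circ)),
      conjRot T hc ((1 / 2 : ℝ) : Circ) • f = f := by
    intro f
    have h2 : conjHom θ (conjRot T hc ((1 / 2 : ℝ) : Circ)) • (θ.L f) = θ.L f := by
      rw [h, one_smul]
    rw [conjHom_smul, AEIso.L_symm_L] at h2
    exact θ.L.injective h2
  have h3 : conjRot T hc ((1 / 2 : ℝ) : Circ) = 1 := by
    apply Aut.eq_of_forall_smul
    intro f
    rw [h1, one_smul]
  rw [conjRot, mul_inv_eq_one] at h3
  exact mul_eq_left.1 h3

/-- Comparison of conjugated elements. -/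
theorem dist_conjHom_smul_le (θ : AEIso (μ.prod (volume : Measure Circ)) μ)
    (g : Aut (μ.prod (volume : Measure Circ))) (x y : E1 μ) :
    dist (conjHom θ g • x) y ≤ dist (θ.L (lift volume x)) x +
      dist (g • lift (volume : Measure Circ) x) (lift volume y) +
      dist (θ.L (lift volume y)) y := by
  rw [conjHom_smul]
  have h1 : dist (θ.L (g • θ.symm.L x)) (θ.L (g • lift (volume : Measure Circ) x)) =
      dist (θ.L (lift volume x)) x := by
    rw [θ.L.isometry.dist_eq, dist_smul, ← θ.L.isometry.dist_eq, AEIso.L_L_symm, dist_comm]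
  have h2 : dist (θ.L (g • lift (volume : Measure Circ) x)) (θ.L (lift volume y)) =
      dist (g • lift (volume : Measure Circ) x) (lift volume y) := θ.L.isometry.dist_eq _ _
  calc dist (θ.L (g • θ.symm.L x)) y ≤ dist (θ.L (g • θ.symm.L x))
        (θ.L (g • lift (volume : Measure Circ) x)) +
        dist (θ.L (g • lift (volume : Measure Circ) x)) (θ.L (lift volume y)) +
        dist (θ.L (lift volume y)) y := dist_triangle4 _ _ _ _
    _ = _ := by rw [h1, h2]

omit [StandardBorelSpace X] [NullSingletonClass μ] in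
theorem dist_conjRot_le (T : Aut μ) {c : Circ → ℤ} (hc : Measurable c) (a : Circ)
    (x y : E1 μ) (hxy : ‖y‖ = ‖x‖) {δ ε : ℝ} (hδ : 0 ≤ δ) (hε : 0 ≤ ε)
    (h : ∀ s ∉ bad δ, dist ((T ^ (c s - c (s - a))) • x : E1 μ) y ≤ ε) :
    dist (conjRot T hc a • lift (volume : Measure Circ) x) (lift (volume : Measure Circ) y) ≤
      ε + 8 * δ * ‖x‖ := by
  have h1 := edist_conjRot_le T hc a x y δ (ENNReal.ofReal ε) (fun s hs => by
    rw [edist_dist]
    exact ENNReal.ofReal_le_ofReal (h s hs))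
  have h2 : ENNReal.ofReal ε + (‖x‖ₑ + ‖y‖ₑ) * volume (bad δ) ≤
      ENNReal.ofReal (ε + 8 * δ * ‖x‖) := by
    have h3 : volume (bad δ) ≤ ENNReal.ofReal (4 * δ) := by
      refine (volume_bad_le δ).trans ?_
      rw [← ENNReal.ofReal_add (by positivity) (by positivity)]
      apply ENNReal.ofReal_le_ofReal
      linarith
    have h4 : ‖x‖ₑ + ‖y‖ₑ = ENNReal.ofReal (2 * ‖x‖) := by
      rw [← ofReal_norm, ← ofReal_norm, hxy, ← ENNReal.ofReal_add (norm_nonneg _) (norm_nonneg _)]
      congr 1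
      ring
    calc ENNReal.ofReal ε + (‖x‖ₑ + ‖y‖ₑ) * volume (bad δ)
        ≤ ENNReal.ofReal ε + ENNReal.ofReal (2 * ‖x‖) * ENNReal.ofReal (4 * δ) := by
          rw [h4]; gcongr
      _ = ENNReal.ofReal (ε + 8 * δ * ‖x‖) := by
          rw [← ENNReal.ofReal_mul (by positivity), ← ENNReal.ofReal_add hε (by positivity)]
          congr 1
          ring
  have h5 := h1.trans h2
  rw [edist_dist, ENNReal.ofReal_le_ofReal_iff (by positivity)] at h5
  exact h5

/-- The main approximation lemma. -/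
theorem approx_main [Nonempty X] [NeZero μ] (T : Aut μ) {D : ℝ → ℤ} (hDm : Measurable D)
    (hD : ∀ y, D (y + 1) = D y + 1) (J : ℤ) (F : ℝ → Aut μ) (hF : Continuous F) (I : Aut μ)
    (M : ℕ) (s : Finset (E1 μ)) {ε : ℝ} (hε : 0 ≤ ε)
    (h1 : ∀ y t : ℝ, |t| ≤ M → ∀ x ∈ s, dist (T ^ (D y - D (y - t)) • x) (F t • x) ≤ ε)
    (h2 : ∀ x ∈ s, dist (T ^ J • x) (I • x) ≤ ε ∧ dist (T ^ (-J) • x) (I • x) ≤ ε)
    (s' : Finset (E1 μ)) {ε' : ℝ} (hε' : 0 < ε') :
    ∃ (F' : C(ℝ, Aut μ)) (n : ℕ), 0 < n ∧ (∀ s t, F' (s + t) = F' s * F' t) ∧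
      F' (2 * n) = 1 ∧ F' n ≠ 1 ∧
      (∀ t : ℝ, |t| ≤ M → ∀ x ∈ s, dist (F' t • x) (F t • x) ≤ ε + ε') ∧
      (∀ x ∈ s, dist (F' n • x) (I • x) ≤ ε + ε') ∧
      (∀ x ∈ s', dist (F' 1 • x) (T • x) ≤ ε') := by
  classical
  set M' : ℝ := max M 1 with hM'
  have hM'1 : 1 ≤ M' := le_max_right _ _
  have hMM' : (M : ℝ) ≤ M' := le_max_left _ _
  set R : ℝ := ∑ x ∈ s ∪ s', ‖x‖ with hR
  have hR0 : 0 ≤ R := Finset.sum_nonneg fun x _ => norm_nonneg x
  have hxR : ∀ x ∈ s ∪ s', ‖x‖ ≤ R := fun x hx =>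
    Finset.single_le_sum (f := fun x : E1 μ => ‖x‖) (fun x _ => norm_nonneg x) hx
  obtain ⟨n, hn⟩ := exists_nat_gt (12 * R * M' / ε')
  have hn0 : 0 < n := by
    have : (0 : ℝ) ≤ 12 * R * M' / ε' := by positivity
    exact_mod_cast lt_of_le_of_lt this hn
  have hnpos : (0 : ℝ) < n := by exact_mod_cast hn0
  set δ : ℝ := M' / (2 * n) with hδ
  have hδ0 : 0 ≤ δ := by positivity
  have hδn : 2 * n * δ = M' := by
    rw [hδ]; field_simp
  have hsmall : ∀ x ∈ s ∪ s', 8 * δ * ‖x‖ ≤ ε' / 3 := by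
    intro x hx
    have h3 := hxR x hx
    have h4 : 8 * δ * ‖x‖ ≤ 8 * δ * R := by gcongr
    have h5 : 8 * δ * R = 4 * R * M' / n := by
      rw [hδ]; field_simp; ring
    have h6 : 4 * R * M' / n ≤ ε' / 3 := by
      rw [div_le_div_iff₀ hnpos (by norm_num)]
      rw [div_lt_iff₀ hε'] at hn
      linarith
    linarith
  let c : Circ → ℤ := coc D J n
  have hc : Measurable c := measurable_coc hDm J n
  -- the compact set
  let S : Set (E1 μ) := ((↑(s ∪ s') : Set (E1 μ)) ∪ (⋃ x ∈ s, (fun t => F t • x) '' Icc (-M : ℝ) M))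
    ∪ (((fun x => T • x) '' (s' : Set (E1 μ))) ∪ ((fun x => I • x) '' (s : Set (E1 μ))))
  have hS : IsCompact S := by
    refine (IsCompact.union (Finset.finite_toSet _).isCompact ?_).union
      (((Finset.finite_toSet _).image _).isCompact.union ((Finset.finite_toSet _).image _).isCompact)
    refine (Finset.finite_toSet s).isCompact_biUnion fun x _ => ?_
    exact isCompact_Icc.image ((continuous_smul_const_of Aut.isInducing_evalBoth x).comp hF)
  obtain ⟨θ, hθ⟩ := exists_descent (lam := (volume : Measure Circ)) hS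
    (show 0 < ε' / 3 by positivity)
  refine ⟨flowDown θ T hc n, n, hn0, flowDown_add θ T hc n, flowDown_period θ T hc hn0,
    flowDown_half_ne θ T hc hn0, ?_, ?_, ?_⟩
  · intro t ht x hx
    have hxS : x ∈ S := Or.inl (Or.inl (Finset.mem_coe.2 (Finset.mem_union_left _ hx)))
    have hFxS : F t • x ∈ S :=
      Or.inl (Or.inr (mem_iUnion₂.2 ⟨x, hx, ⟨t, abs_le.1 ht, rfl⟩⟩))
    have h3 := dist_conjHom_smul_le θ (conjRot T hc ((t / (2 * n) : ℝ) : Circ)) x (F t • x)
    have h4 := hθ x hxS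
    have h5 := hθ _ hFxS
    have h6 := dist_conjRot_le T hc ((t / (2 * n) : ℝ) : Circ) x (F t • x)
      (Aut.norm_smul' (F t) x) hδ0 hε (fun σ hσ => by
        rw [coc_sub hn0 (by rw [hδn]; exact ht.trans hMM') hσ]
        exact h1 _ t ht x hx)
    have h7 := hsmall x (Finset.mem_union_left _ hx)
    rw [flowDown_apply]
    linarith
  · intro x hx
    have hxS : x ∈ S := Or.inl (Or.inl (Finset.mem_coe.2 (Finset.mem_union_left _ hx)))
    have hIxS : I • x ∈ S := Or.inr (Or.inr ⟨x, hx, rfl⟩)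
    have h3 := dist_conjHom_smul_le θ (conjRot T hc (((n : ℝ) / (2 * n) : ℝ) : Circ)) x (I • x)
    have h4 := hθ x hxS
    have h5 := hθ _ hIxS
    have h6 := dist_conjRot_le T hc (((n : ℝ) / (2 * n) : ℝ) : Circ) x (I • x)
      (Aut.norm_smul' I x) hδ0 hε (fun σ _ => by
        rcases coc_sub_half hD (J := J) hn0 σ with h | h
        · rw [h]; exact (h2 x hx).1
        · rw [h]; exact (h2 x hx).2)
    have h7 := hsmall x (Finset.mem_union_left _ hx)
    rw [flowDown_apply]
    linarith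
  · intro x hx
    have hxS : x ∈ S := Or.inl (Or.inl (Finset.mem_coe.2 (Finset.mem_union_right _ hx)))
    have hTxS : T • x ∈ S := Or.inr (Or.inl ⟨x, hx, rfl⟩)
    have h3 := dist_conjHom_smul_le θ (conjRot T hc (((1 : ℝ) / (2 * n) : ℝ) : Circ)) x (T • x)
    have h4 := hθ x hxS
    have h5 := hθ _ hTxS
    have h6 := dist_conjRot_le T hc (((1 : ℝ) / (2 * n) : ℝ) : Circ) x (T • x)
      (Aut.norm_smul' T x) hδ0 (le_refl (0 : ℝ)) (fun σ hσ => by
        rw [coc_sub hn0 (by rw [hδn, abs_one]; exact hM'1) hσ]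
        have h8 : D (2 * n * rep σ) - D (2 * n * rep σ - 1) = 1 := by
          have := hD (2 * n * rep σ - 1)
          rw [sub_add_cancel] at this
          rw [this]; ring
        rw [h8, zpow_one, dist_self])
    have h7 := hsmall x (Finset.mem_union_right _ hx)
    rw [flowDown_apply]
    linarith

end Main

end GenInf
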