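import Pool.Agent.Lib_helper15.GenInf.Complete

/-!
# Lifting to `X × K` and approximate descent
-/

open Set Filter Topology MeasureTheory
open scoped symmDiff ENNReal

namespace GenInf

variable {X K : Type*} [mX : MeasurableSpace X] [mK : MeasurableSpace K] {μ : Measure X}
  {lam : Measure K}

/-- `x ⊗ 1`. -/
noncomputable def lift (lam : Measure K) [IsProbabilityMeasure lam] [SFinite μ] (x : E1 μ) :
    E1 (μ.prod lam) :=
  Lp.compMeasurePreservingₗᵢ ℝ Prod.fst (measurePreserving_fst (μ := μ) (ν := lam)) x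

section

variable [IsProbabilityMeasure lam] [SFinite μ]

theorem coeFn_lift (x : E1 μ) : lift lam x =ᵐ[μ.prod lam] fun p => x p.1 :=
  Lp.coeFn_compMeasurePreserving x measurePreserving_fst

theorem lift_add (x y : E1 μ) : lift lam (x + y) = lift lam x + lift lam y :=
  map_add (Lp.compMeasurePreservingₗᵢ ℝ Prod.fst (measurePreserving_fst (μ := μ) (ν := lam))) x y

theorem lift_smul (c : ℝ) (x : E1 μ) : lift lam (c • x) = c • lift lam x :=
  map_smul (Lp.compMeasurePreservingₗᵢ ℝ Prod.fst (measurePreserving_fst (μ := μ) (ν := lam))) c x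

theorem dist_lift (x y : E1 μ) : dist (lift lam x) (lift lam y) = dist x y :=
  (Lp.compMeasurePreservingₗᵢ ℝ Prod.fst
    (measurePreserving_fst (μ := μ) (ν := lam))).isometry.dist_eq x y

theorem continuous_lift : Continuous (lift lam : E1 μ → _) :=
  (Isometry.of_dist_eq dist_lift).continuous

/-- `T` is adapted to the finite family `𝒜`. -/
def IsAdapted (T : AEIso (μ.prod lam) μ) (𝒜 : Finset (FinSet μ)) : Prop :=
  ∀ A ∈ 𝒜, T.L (lift lam (Aut.ind A)) = Aut.ind A

end

section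

variable [IsProbabilityMeasure lam]

theorem exists_isAdapted [StandardBorelSpace X] [Nonempty X] [StandardBorelSpace K] [Nonempty K]
    [SigmaFinite μ] [NullSingletonClass μ] (𝒜 : Finset (FinSet μ)) :
    ∃ T : AEIso (μ.prod lam) μ, IsAdapted T 𝒜 := by
  classical
  let q : X → ℕ × (𝒜 → Bool) := fun x =>
    (spanningSetsIndex μ x, fun A => decide (x ∈ (A : FinSet μ).1))
  have hq : Measurable q := by
    refine (measurableSet_spanningSetsIndex μ).prodMk (measurable_pi_lambda _ fun A => ?_)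
    apply measurable_to_bool
    have : (fun x => decide (x ∈ (A : FinSet μ).1)) ⁻¹' {true} = (A : FinSet μ).1 := by
      ext y; simp
    rw [this]
    exact (A : FinSet μ).2.1
  have hfin : ∀ i, μ (q ⁻¹' {i}) ≠ ⊤ := by
    intro i
    refine (lt_of_le_of_lt (measure_mono ?_) (measure_spanningSets_lt_top μ i.1)).ne
    intro x hx
    have hx' : q x = i := hx
    rw [← hx']
    exact mem_spanningSetsIndex μ x
  obtain ⟨T, hT⟩ := exists_adapted μ lam hq hfin
  refine ⟨T, fun A hA => ?_⟩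
  apply Lp.ext
  have h1 := T.coeFn_L (lift lam (Aut.ind A))
  have h2 := T.mpi.quasiMeasurePreserving.ae (coeFn_lift (lam := lam) (Aut.ind A))
  have h3 := Aut.coeFn_ind A
  have h4 : ∀ᵐ y ∂μ, (Aut.ind A) (T.bwd y).1 = A.1.indicator (fun _ => (1 : ℝ)) (T.bwd y).1 :=
    (measurePreserving_fst.comp T.mpi).quasiMeasurePreserving.ae h3
  filter_upwards [h1, h2, h3, h4, hT] with y h5 h6 h7 h8 h9
  rw [h5, Function.comp_apply, h6, h8, h7]
  have h10 : decide ((T.bwd y).1 ∈ A.1) = decide (y ∈ A.1) :=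
    congrFun (congrArg Prod.snd h9) ⟨A, hA⟩
  have h11 : (T.bwd y).1 ∈ A.1 ↔ y ∈ A.1 := by simpa using h10
  by_cases h : y ∈ A.1
  · rw [indicator_of_mem h, indicator_of_mem (h11.2 h)]
  · rw [indicator_of_notMem h, indicator_of_notMem (fun h' => h (h11.1 h'))]

/-- Approximate descent for one vector. -/
theorem exists_adapted_finset [SFinite μ] (x : E1 μ) : ∀ ε : ℝ, 0 < ε →
    ∃ 𝒜 : Finset (FinSet μ),
      ∀ T : AEIso (μ.prod lam) μ, IsAdapted T 𝒜 → dist (T.L (lift lam x)) x < ε := by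
  classical
  refine L1_induction (fun x => ∀ ε : ℝ, 0 < ε → ∃ 𝒜 : Finset (FinSet μ),
    ∀ T : AEIso (μ.prod lam) μ, IsAdapted T 𝒜 → dist (T.L (lift lam x)) x < ε) ?_ ?_ ?_ ?_ x
  · refine isClosed_of_closure_subset fun x hx ε hε => ?_
    obtain ⟨y, hy, hxy⟩ := Metric.mem_closure_iff.1 hx (ε / 3) (by positivity)
    obtain ⟨𝒜, h𝒜⟩ := hy (ε / 3) (by positivity)
    refine ⟨𝒜, fun T hT => ?_⟩
    calc dist (T.L (lift lam x)) x ≤ dist (T.L (lift lam x)) (T.L (lift lam y)) +
          dist (T.L (lift lam y)) y + dist y x := dist_triangle4 _ _ _ _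
      _ < ε / 3 + ε / 3 + ε / 3 := by
          rw [T.L.isometry.dist_eq, dist_lift, dist_comm y x]
          have := h𝒜 T hT
          gcongr
      _ = ε := by ring
  · intro A ε hε
    refine ⟨{A}, fun T hT => ?_⟩
    rw [hT A (Finset.mem_singleton_self A), dist_self]
    exact hε
  · intro f g hf hg ε hε
    obtain ⟨𝒜, h𝒜⟩ := hf (ε / 2) (by positivity)
    obtain ⟨ℬ, hℬ⟩ := hg (ε / 2) (by positivity)
    refine ⟨𝒜 ∪ ℬ, fun T hT => ?_⟩
    have h1 := h𝒜 T fun A hA => hT A (Finset.mem_union_left _ hA)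
    have h2 := hℬ T fun A hA => hT A (Finset.mem_union_right _ hA)
    rw [lift_add, map_add]
    calc dist (T.L (lift lam f) + T.L (lift lam g)) (f + g) ≤
          dist (T.L (lift lam f)) f + dist (T.L (lift lam g)) g := dist_add_add_le _ _ _ _
      _ < ε / 2 + ε / 2 := by gcongr
      _ = ε := by ring
  · intro c f hf ε hε
    obtain ⟨𝒜, h𝒜⟩ := hf (ε / (|c| + 1)) (by positivity)
    refine ⟨𝒜, fun T hT => ?_⟩
    have h1 := h𝒜 T hT
    rw [lift_smul, map_smul, dist_smul₀, Real.norm_eq_abs]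
    calc |c| * dist (T.L (lift lam f)) f ≤ |c| * (ε / (|c| + 1)) := by gcongr
      _ < (|c| + 1) * (ε / (|c| + 1)) := by
          have : 0 < ε / (|c| + 1) := by positivity
          nlinarith
      _ = ε := by field_simp

/-- Approximate descent for a compact set of vectors. -/
theorem exists_descent [StandardBorelSpace X] [Nonempty X] [StandardBorelSpace K] [Nonempty K]
    [SigmaFinite μ] [NullSingletonClass μ] {S : Set (E1 μ)} (hS : IsCompact S) {ε : ℝ}
    (hε : 0 < ε) : ∃ T : AEIso (μ.prod lam) μ, ∀ x ∈ S, dist (T.L (lift lam x)) x < ε := by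
  classical
  obtain ⟨t, htf, hcov⟩ := Metric.totallyBounded_iff.1 hS.totallyBounded (ε / 3) (by positivity)
  have h1 : ∀ x : E1 μ, ∃ 𝒜 : Finset (FinSet μ),
      ∀ T : AEIso (μ.prod lam) μ, IsAdapted T 𝒜 → dist (T.L (lift lam x)) x < ε / 3 := fun x =>
    exists_adapted_finset x (ε / 3) (by positivity)
  choose 𝒜 h𝒜 using h1
  obtain ⟨T, hT⟩ := exists_isAdapted (lam := lam) (htf.toFinset.biUnion 𝒜)
  refine ⟨T, fun x hx => ?_⟩
  obtain ⟨y, hy, hxy⟩ := mem_iUnion₂.1 (hcov hx)
  have h2 := h𝒜 y T fun A hA => hT A (Finset.mem_biUnion.2 ⟨y, htf.mem_toFinset.2 hy, hA⟩)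
  have h3 : dist x y < ε / 3 := hxy
  calc dist (T.L (lift lam x)) x ≤ dist (T.L (lift lam x)) (T.L (lift lam y)) +
        dist (T.L (lift lam y)) y + dist y x := dist_triangle4 _ _ _ _
    _ < ε / 3 + ε / 3 + ε / 3 := by
        rw [T.L.isometry.dist_eq, dist_lift, dist_comm y x]
        gcongr
    _ = ε := by ring

end

end GenInf
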