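import Pool.Agent.Lib_helper15.GenInf.Descent
import Pool.Agent.Lib_helper15.GenInf.Category

/-!
# Local density of the time-one map and the main theorem
-/

open Set Filter Topology MeasureTheory
open scoped symmDiff ENNReal

namespace GenInf

theorem exists_int_near {P : ℝ} (hP : Irrational P) (v : ℝ) {ε : ℝ} (hε : 0 < ε) :
    ∃ j m : ℤ, |j - m * P - v| < ε := by
  have h1 : Dense ((AddSubgroup.closure {P, 1} : AddSubgroup ℝ) : Set ℝ) := by
    rw [dense_addSubgroupClosure_pair_iff, div_one]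
    exact hP
  obtain ⟨z, hz, hz'⟩ := h1.exists_dist_lt v hε
  obtain ⟨a, b, rfl⟩ := AddSubgroup.mem_closure_pair.1 hz
  refine ⟨b, -a, ?_⟩
  rw [dist_comm, Real.dist_eq] at hz'
  simpa [zsmul_eq_mul, add_comm] using! hz'

variable {X : Type*} [mX : MeasurableSpace X] {μ : Measure X}

section Flow

theorem flow_zero {F : C(ℝ, Aut μ)} (hF : ∀ s t, F (s + t) = F s * F t) : F 0 = 1 := by
  have := hF 0 0
  rw [add_zero] at this
  exact left_eq_mul.1 this

theorem flow_neg {F : C(ℝ, Aut μ)} (hF : ∀ s t, F (s + t) = F s * F t) (t : ℝ) :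
    F (-t) = (F t)⁻¹ := by
  rw [eq_comm, inv_eq_iff_mul_eq_one, ← hF, add_neg_cancel, flow_zero hF]

theorem flow_nat {F : C(ℝ, Aut μ)} (hF : ∀ s t, F (s + t) = F s * F t) (n : ℕ) (t : ℝ) :
    F (n * t) = F t ^ n := by
  induction n with
  | zero => simp [flow_zero hF]
  | succ n ih => rw [Nat.cast_succ, add_mul, one_mul, hF, ih, pow_succ]

theorem flow_int {F : C(ℝ, Aut μ)} (hF : ∀ s t, F (s + t) = F s * F t) (n : ℤ) (t : ℝ) :
    F (n * t) = F t ^ n := by
  cases n with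
  | ofNat n => simpa using flow_nat hF n t
  | negSucc n =>
    rw [Int.cast_negSucc, zpow_negSucc, neg_mul, flow_neg hF, flow_nat hF]

theorem flow_comm {F : C(ℝ, Aut μ)} (hF : ∀ s t, F (s + t) = F s * F t) (s t : ℝ) :
    F s * F t = F t * F s := by
  rw [← hF, ← hF, add_comm]

theorem flow_comm' {F : C(ℝ, Aut μ)} (_ : ∀ s t, F (s + t) = F s * F t) (s t : ℝ) :
    F (s + t) = F (t + s) := by
  rw [add_comm]

theorem dist_mul_smul_le (g h : Aut μ) (x : E1 μ) :
    dist ((g * h) • x) x ≤ dist (g • x) x + dist (h • x) x := by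
  rw [mul_smul]
  calc dist (g • h • x) x ≤ dist (g • h • x) (g • x) + dist (g • x) x := dist_triangle _ _ _
    _ = _ := by rw [dist_smul]; ring

theorem exists_cocycle {F : C(ℝ, Aut μ)} (hF : ∀ s t, F (s + t) = F s * F t) {P : ℝ}
    (hP : Irrational P) (hFP : F P = 1) (s : Finset (E1 μ)) {η : ℝ} (hη : 0 < η) :
    ∃ (D : ℝ → ℤ) (B : ℝ) (J : ℤ), Measurable D ∧ (∀ y, D (y + 1) = D y + 1) ∧
      (∀ y, |D y - y| ≤ B) ∧ (∀ y, ∀ x ∈ s, dist (F (D y - y) • x) x < η) ∧
      (∀ x ∈ s, dist (F (J - P / 2) • x) x < η) := by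
  classical
  -- a neighbourhood of zero
  have h1 : ∀ x ∈ s, ∀ᶠ u in 𝓝 (0 : ℝ), dist (F u • x) x < η / 2 := by
    intro x _
    have h2 : Continuous fun u : ℝ => F u • x :=
      (continuous_smul_const_of Aut.isInducing_evalBoth x).comp F.continuous
    have h3 := h2.tendsto 0
    rw [flow_zero hF, one_smul] at h3
    exact Metric.tendsto_nhds.1 h3 _ (by positivity)
  have h2 : ∀ᶠ u in 𝓝 (0 : ℝ), ∀ x ∈ s, dist (F u • x) x < η / 2 :=
    (Filter.eventually_all_finset s).2 h1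
  obtain ⟨r, hr, hr'⟩ := Metric.eventually_nhds_iff.1 h2
  have hr2 : ∀ u : ℝ, |u| < r → ∀ x ∈ s, dist (F u • x) x < η / 2 := fun u hu => hr' (by
    rwa [Real.dist_eq, sub_zero])
  obtain ⟨p, hp⟩ := exists_nat_gt (1 / r)
  have hp0 : (0 : ℝ) < p := lt_trans (by positivity) hp
  have hpr : 1 / (p : ℝ) < r := by
    rw [div_lt_iff₀ hp0]
    rw [div_lt_iff₀ hr] at hp
    linarith
  have hFm : ∀ m : ℤ, F (m * P) = 1 := fun m => by rw [flow_int hF, hFP, one_zpow]
  -- the integers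
  have h3 : ∀ i : ℕ, ∃ j m : ℤ, |(j : ℝ) - m * P - i / p| < r := fun i =>
    exists_int_near hP _ hr
  choose j m hjm using h3
  obtain ⟨J, mJ, hJ⟩ := exists_int_near hP (P / 2) hr
  let D : ℝ → ℤ := fun y => ⌊y⌋ + j ⌊p * Int.fract y⌋₊
  have hDy : ∀ y : ℝ, ((D y : ℤ) : ℝ) - y = j ⌊p * Int.fract y⌋₊ - Int.fract y := by
    intro y
    simp only [D, Int.cast_add]
    have := Int.floor_add_fract y
    linarith
  refine ⟨D, (∑ i ∈ Finset.range p, |(j i : ℝ)|) + 1, J, ?_, ?_, ?_, ?_, ?_⟩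
  · have h4 : Measurable fun y : ℝ => j ⌊p * Int.fract y⌋₊ := by
      have h5 : Measurable fun y : ℝ => ⌊p * Int.fract y⌋₊ :=
        Nat.measurable_floor.comp (measurable_fract.const_mul _)
      exact (measurable_from_nat (f := j)).comp h5
    exact Int.measurable_floor.add h4
  · intro y
    simp only [D, Int.fract_add_one, Int.floor_add_one]
    ring
  · intro y
    rw [hDy]
    have hfr := Int.fract_nonneg y
    have hfr1 := Int.fract_lt_one y
    have hi : ⌊p * Int.fract y⌋₊ ∈ Finset.range p := by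
      rw [Finset.mem_range, Nat.floor_lt (by positivity)]
      nlinarith
    have h5 := Finset.single_le_sum (f := fun i => |(j i : ℝ)|) (fun i _ => abs_nonneg _) hi
    calc |(j ⌊p * Int.fract y⌋₊ : ℝ) - Int.fract y| ≤
          |(j ⌊p * Int.fract y⌋₊ : ℝ)| + |Int.fract y| := abs_sub _ _
      _ ≤ (∑ i ∈ Finset.range p, |(j i : ℝ)|) + 1 := by
          rw [abs_of_nonneg hfr]
          linarith
  · intro y x hx
    rw [hDy]
    set i := ⌊p * Int.fract y⌋₊ with hi
    have hfr := Int.fract_nonneg y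
    have h5 : (i : ℝ) ≤ p * Int.fract y := Nat.floor_le (by positivity)
    have h6 : p * Int.fract y < i + 1 := Nat.lt_floor_add_one _
    have h7 : |(i : ℝ) / p - Int.fract y| < r := by
      refine lt_of_le_of_lt ?_ hpr
      rw [abs_le]
      constructor
      · rw [neg_le_sub_iff_le_add, ← add_div, le_div_iff₀ hp0]
        linarith
      · have : (i : ℝ) / p ≤ Int.fract y := by
          rw [div_le_iff₀ hp0]; linarith
        have h8 : 0 ≤ 1 / (p : ℝ) := by positivity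
        linarith
    have h8 : ((j i : ℤ) : ℝ) - Int.fract y =
        ((j i - m i * P - i / p) + (i / p - Int.fract y)) + m i * P := by ring
    rw [h8, hF, hFm, mul_one, hF]
    have h9 := dist_mul_smul_le (F (j i - m i * P - i / p)) (F (i / p - Int.fract y)) x
    have h10 := hr2 _ (hjm i) x hx
    have h11 := hr2 _ h7 x hx
    linarith
  · intro x hx
    have h8 : (J : ℝ) - P / 2 = (J - mJ * P - P / 2) + mJ * P := by ring
    rw [h8, hF, hFm, mul_one]
    have h10 := hr2 _ hJ x hx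
    linarith

end Flow

/-- Flows of irrational period, together with their half-period map. -/
def flowSet (μ : Measure X) : Set (C(ℝ, Aut μ) × Aut μ) :=
  {q | (∀ s t, q.1 (s + t) = q.1 s * q.1 t) ∧
    ∃ P : ℝ, Irrational P ∧ q.1 P = 1 ∧ q.1 (P / 2) = q.2 ∧ q.2 ≠ 1}

theorem exists_mem_flowSet {F : C(ℝ, Aut μ)} (hF : ∀ s t, F (s + t) = F s * F t) {n : ℕ}
    (hn : 0 < n) (h1 : F (2 * n) = 1) (h2 : F n ≠ 1) {U : Set (C(ℝ, Aut μ) × Aut μ)}
    (hU : IsOpen U) (hFU : (F, F n) ∈ U) : (flowSet μ ∩ U).Nonempty := by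
  let G : C(ℝ × ℝ, Aut μ) := F.comp ⟨fun p : ℝ × ℝ => p.1 * p.2, by fun_prop⟩
  have hG : Continuous fun u : ℝ => ((G.curry u, F n) : C(ℝ, Aut μ) × Aut μ) :=
    G.curry.continuous.prodMk continuous_const
  have hGu : ∀ u t, G.curry u t = F (u * t) := fun u t => rfl
  have hone : G.curry 1 = F := by
    ext1 t
    rw [hGu, one_mul]
  have hopen : IsOpen ((fun u : ℝ => ((G.curry u, F n) : C(ℝ, Aut μ) × Aut μ)) ⁻¹' U ∩ Ioi 0) :=
    (hU.preimage hG).inter isOpen_Ioi
  obtain ⟨u, ⟨huU, hu0⟩, huirr⟩ := dense_irrational.inter_open_nonempty _ hopen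
    ⟨1, by simp only [mem_preimage, hone]; exact hFU, by simp⟩
  have hu0' : (0 : ℝ) < u := hu0
  refine ⟨(G.curry u, F n), ⟨?_, 2 * n / u, ?_, ?_, ?_, h2⟩, huU⟩
  · intro s t
    simp only [hGu, mul_add, hF]
  · have hn' : (2 * n : ℕ) ≠ 0 := by positivity
    have := huirr.natCast_div hn'
    push_cast at this
    exact this
  · simp only [hGu]
    have : u * (2 * n / u) = 2 * n := by field_simp
    rw [this, h1]
  · simp only [hGu]
    have : u * (2 * n / u / 2) = n := by field_simp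
    rw [this]

section Local

variable [StandardBorelSpace X] [SigmaFinite μ] [NullSingletonClass μ] [Nonempty X] [NeZero μ]

theorem local_density (q : C(ℝ, Aut μ) × Aut μ) (hq : q ∈ flowSet μ)
    (U : Set (C(ℝ, Aut μ) × Aut μ)) (hU : IsOpen U) (hqU : q ∈ U) :
    closure ((fun q : C(ℝ, Aut μ) × Aut μ => q.1 1) '' (flowSet μ ∩ U)) ∈ 𝓝 (q.1 1) := by
  classical
  obtain ⟨F, I⟩ := q
  obtain ⟨hF, P, hP, hFP, hFI, hI1⟩ := hq
  simp only at hF hFP hFI hI1
  change closure ((fun q : C(ℝ, Aut μ) × Aut μ => q.1 1) '' (flowSet μ ∩ U)) ∈ 𝓝 (F 1)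
  -- a product neighbourhood
  obtain ⟨U1, U2, hU1, hU2, hF1, hI2, hU12⟩ := isOpen_prod_iff.1 hU F I hqU
  obtain ⟨M, s1, ε1, hε1, hs1⟩ := flow_nhds Aut.isUniformInducing_evalBoth hF
    (hU1.mem_nhds hF1)
  obtain ⟨s2, ε2, hε2, hs2⟩ := exists_finset_of_mem_nhds Aut.isInducing_evalBoth
    (hU2.mem_nhds hI2)
  set s : Finset (E1 μ) := s1 ∪ s2 with hs
  set ε : ℝ := min ε1 ε2 with hε
  have hε0 : 0 < ε := lt_min hε1 hε2
  obtain ⟨D, B, J, hDm, hD1, hDB, hDF, hJF⟩ := exists_cocycle hF hP hFP s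
    (show 0 < ε / 16 by positivity)
  -- the powers involved
  obtain ⟨K, hK⟩ : ∃ K : ℕ, (∀ y t : ℝ, |t| ≤ M → |D y - D (y - t)| ≤ (K : ℤ)) ∧ |J| ≤ (K : ℤ) := by
    obtain ⟨K, hK⟩ := exists_nat_ge (max (2 * B + M) |(J : ℝ)|)
    refine ⟨K, fun y t ht => ?_, ?_⟩
    · have h3 := hDB y
      have h4 := hDB (y - t)
      have h5 : |((D y - D (y - t) : ℤ) : ℝ)| ≤ K := by
        push_cast
        have h6 : (D y : ℝ) - D (y - t) = ((D y : ℝ) - y) - ((D (y - t) : ℝ) - (y - t)) + t := by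
          ring
        rw [h6]
        calc |((D y : ℝ) - y) - ((D (y - t) : ℝ) - (y - t)) + t|
            ≤ |((D y : ℝ) - y) - ((D (y - t) : ℝ) - (y - t))| + |t| := abs_add_le _ _
          _ ≤ (|(D y : ℝ) - y| + |(D (y - t) : ℝ) - (y - t)|) + |t| := by
              gcongr; exact abs_sub _ _
          _ ≤ K := by
              have := le_trans (le_max_left _ _) hK
              linarith
      exact_mod_cast h5
    · have : |(J : ℝ)| ≤ K := le_trans (le_max_right _ _) hK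
      exact_mod_cast this
  -- the neighbourhood of `F 1`
  let V : Set (Aut μ) := {T | ∀ k ∈ Finset.Icc (-(K : ℤ)) K, ∀ x ∈ s,
    dist (T ^ k • x) ((F 1) ^ k • x) < ε / 4}
  have hV : V ∈ 𝓝 (F 1) := by
    have h3 : ∀ k : ℤ, ∀ x : E1 μ, ∀ᶠ T in 𝓝 (F 1), dist (T ^ k • x) ((F 1) ^ k • x) < ε / 4 := by
      intro k x
      have h4 : Continuous fun T : Aut μ => T ^ k • x :=
        (continuous_smul_const_of Aut.isInducing_evalBoth x).comp (continuous_zpow k)
      exact Metric.tendsto_nhds.1 (h4.tendsto (F 1)) _ (by positivity)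
    have h5 : ∀ᶠ T in 𝓝 (F 1), ∀ k ∈ Finset.Icc (-(K : ℤ)) K, ∀ x ∈ s,
        dist (T ^ k • x) ((F 1) ^ k • x) < ε / 4 :=
      (Filter.eventually_all_finset _).2 fun k _ => (Filter.eventually_all_finset _).2 fun x _ =>
        h3 k x
    exact h5
  refine mem_of_superset hV fun T hT => ?_
  -- approximation data
  have hFk : ∀ k : ℤ, (F 1) ^ k = F k := fun k => by
    rw [← flow_int hF, mul_one]
  have h1 : ∀ y t : ℝ, |t| ≤ M → ∀ x ∈ s, dist (T ^ (D y - D (y - t)) • x) (F t • x) ≤ ε / 2 := by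
    intro y t ht x hx
    have hk : D y - D (y - t) ∈ Finset.Icc (-(K : ℤ)) K := by
      rw [Finset.mem_Icc]; exact abs_le.1 (hK.1 y t ht)
    have h3 := hT _ hk x hx
    have h4 : dist ((F 1) ^ (D y - D (y - t)) • x) (F t • x) ≤ ε / 8 := by
      rw [hFk]
      have h5 : (((D y - D (y - t) : ℤ)) : ℝ) =
          t + ((-(((D (y - t) : ℤ) : ℝ) - (y - t))) + (((D y : ℤ) : ℝ) - y)) := by
        push_cast; ring
      rw [h5, hF, mul_smul, dist_smul, hF, flow_neg hF, mul_smul]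
      have h6 := hDF y x hx
      have h7 := hDF (y - t) x hx
      calc dist ((F (((D (y - t) : ℤ) : ℝ) - (y - t)))⁻¹ • F (((D y : ℤ) : ℝ) - y) • x) x
          = dist (F (((D y : ℤ) : ℝ) - y) • x) (F (((D (y - t) : ℤ) : ℝ) - (y - t)) • x) := by
            rw [← dist_smul (F (((D (y - t) : ℤ) : ℝ) - (y - t))) _ x, smul_inv_smul]
        _ ≤ dist (F (((D y : ℤ) : ℝ) - y) • x) x +
            dist (F (((D (y - t) : ℤ) : ℝ) - (y - t)) • x) x := dist_triangle_right _ _ _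
        _ ≤ ε / 8 := by linarith
    calc dist (T ^ (D y - D (y - t)) • x) (F t • x)
        ≤ dist (T ^ (D y - D (y - t)) • x) ((F 1) ^ (D y - D (y - t)) • x) +
          dist ((F 1) ^ (D y - D (y - t)) • x) (F t • x) := dist_triangle _ _ _
      _ ≤ ε / 2 := by linarith
  have hII : I⁻¹ = I := by
    rw [inv_eq_iff_mul_eq_one, ← hFI, ← hF, add_halves, hFP]
  have h2 : ∀ x ∈ s, dist (T ^ J • x) (I • x) ≤ ε / 2 ∧ dist (T ^ (-J) • x) (I • x) ≤ ε / 2 := by
    intro x hx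
    have hJK : J ∈ Finset.Icc (-(K : ℤ)) K := by
      rw [Finset.mem_Icc]; exact abs_le.1 hK.2
    have hJK' : -J ∈ Finset.Icc (-(K : ℤ)) K := by
      rw [Finset.mem_Icc] at hJK ⊢
      constructor <;> omega
    have h3 := hT _ hJK x hx
    have h4 := hT _ hJK' x hx
    have h5 := hJF x hx
    have h6 : dist ((F 1) ^ J • x) (I • x) < ε / 16 := by
      rw [hFk]
      have h7 : (J : ℝ) = P / 2 + (J - P / 2) := by ring
      rw [h7, hF, hFI, mul_smul, dist_smul]
      convert h5 using 5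
    have h7 : dist ((F 1) ^ (-J) • x) (I • x) < ε / 16 := by
      rw [hFk]
      have h8 : ((-J : ℤ) : ℝ) = -(J - P / 2) + -(P / 2) := by push_cast; ring
      rw [h8, flow_comm' hF, hF, flow_neg hF (P / 2), hFI, hII, flow_neg hF, mul_smul, dist_smul,
        ← dist_smul (F (J - P / 2)), smul_inv_smul, dist_comm]
      exact h5
    constructor
    · have := dist_triangle (T ^ J • x) ((F 1) ^ J • x) (I • x)
      linarith
    · have := dist_triangle (T ^ (-J) • x) ((F 1) ^ (-J) • x) (I • x)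
      linarith
  -- conclusion
  rw [mem_closure_iff]
  intro W hW hTW
  obtain ⟨s', ε', hε', hs'⟩ := exists_finset_of_mem_nhds Aut.isInducing_evalBoth
    (hW.mem_nhds hTW)
  obtain ⟨F', n, hn, hF', hF'2, hF'n, hc1, hc2, hc3⟩ := approx_main T hDm hD1 J F F.continuous I M
    s (by positivity) h1 h2 s' (show 0 < min (ε / 4) (ε' / 2) from
      lt_min (by positivity) (by positivity))
  have hmin1 : min (ε / 4) (ε' / 2) ≤ ε / 4 := min_le_left _ _
  have hmin2 : min (ε / 4) (ε' / 2) ≤ ε' / 2 := min_le_right _ _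
  have hFU1 : F' ∈ U1 := by
    apply hs1 F' hF'
    intro t ht x hx
    have := hc1 t ht x (Finset.mem_union_left _ hx)
    have h8 : ε ≤ ε1 := min_le_left _ _
    linarith
  have hIU2 : F' n ∈ U2 := by
    apply hs2
    intro x hx
    have := hc2 x (Finset.mem_union_right _ hx)
    have h8 : ε ≤ ε2 := min_le_right _ _
    linarith
  have hF'W : F' 1 ∈ W := by
    apply hs'
    intro x hx
    have := hc3 x hx
    linarith
  have hev : Continuous fun q : C(ℝ, Aut μ) × Aut μ => q.1 1 :=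
    (continuous_eval_const (F := C(ℝ, Aut μ)) (1 : ℝ)).comp continuous_fst
  obtain ⟨q', hq'1, hq'U, hq'W⟩ := exists_mem_flowSet hF' hn hF'2 hF'n
    (hU.inter (hW.preimage hev)) ⟨hU12 ⟨hFU1, hIU2⟩, hF'W⟩
  exact ⟨q'.1 1, hq'W, ⟨q', ⟨hq'1, hq'U⟩, rfl⟩⟩

theorem dense_time_one :
    Dense ((fun q : C(ℝ, Aut μ) × Aut μ => q.1 1) '' flowSet μ) := by
  intro T
  rw [mem_closure_iff]
  intro W hW hTW
  obtain ⟨s', ε', hε', hs'⟩ := exists_finset_of_mem_nhds Aut.isInducing_evalBoth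
    (hW.mem_nhds hTW)
  obtain ⟨F', n, hn, hF', hF'2, hF'n, _, _, hc3⟩ := approx_main T (D := fun y => ⌊y⌋)
    Int.measurable_floor (fun y => Int.floor_add_one y) 0 (fun _ => 1) continuous_const 1 0
    ∅ (le_refl (0 : ℝ)) (by simp) (by simp) s' (show 0 < ε' / 2 by positivity)
  have hF'W : F' 1 ∈ W := by
    apply hs'
    intro x hx
    have := hc3 x hx
    linarith
  have hev : Continuous fun q : C(ℝ, Aut μ) × Aut μ => q.1 1 :=
    (continuous_eval_const (F := C(ℝ, Aut μ)) (1 : ℝ)).comp continuous_fst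
  obtain ⟨q', hq'1, hq'W⟩ := exists_mem_flowSet hF' hn hF'2 hF'n
    (hW.preimage hev) hF'W
  exact ⟨q'.1 1, hq'W, ⟨q', hq'1, rfl⟩⟩

end Local

end GenInf
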