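import Pool.Agent.Lib_helper15.GenInf.Local

/-!
# The generic automorphism embeds in a flow and has a nontrivial factor
-/

open Set Filter Topology MeasureTheory
open scoped symmDiff ENNReal

namespace GenInf

variable {X : Type*} [mX : MeasurableSpace X] {μ : Measure X}

section Category

variable [StandardBorelSpace X] [SigmaFinite μ] [NullSingletonClass μ] [NeZero μ]

theorem generic_flow :
    {T : Aut μ | ∃ (F : C(ℝ, Aut μ)) (I : Aut μ), (∀ s t, F (s + t) = F s * F t) ∧ F 1 = T ∧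
      I * I = 1 ∧ I ≠ 1 ∧ ∀ t, I * F t = F t * I} ∈ residual (Aut μ) := by
  have hne : Nonempty X := by
    by_contra h
    rw [not_nonempty_iff] at h
    exact NeZero.ne μ (Measure.eq_zero_of_isEmpty μ)
  let _ : PseudoMetricSpace (C(ℝ, Aut μ) × Aut μ) := UniformSpace.pseudoMetricSpace _
  have hev : ∀ t : ℝ, Continuous fun q : C(ℝ, Aut μ) × Aut μ => q.1 t := fun t =>
    (continuous_eval_const (F := C(ℝ, Aut μ)) t).comp continuous_fst
  have hO : IsOpen {q : C(ℝ, Aut μ) × Aut μ | q.2 ≠ 1} :=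
    isOpen_ne.preimage continuous_snd
  have h := category_lemma (fun q : C(ℝ, Aut μ) × Aut μ => q.1 1) (hev 1) (flowSet μ)
    (fun q hq U hU hqU => local_density q hq U hU hqU) {q | q.2 ≠ 1} hO
    (fun q hq => by obtain ⟨_, _, _, _, _, h⟩ := hq; exact h) dense_time_one
  refine mem_of_superset h ?_
  rintro T ⟨q, ⟨hq, hq1⟩, rfl⟩
  have hclosed : ∀ S : Set (C(ℝ, Aut μ) × Aut μ), IsClosed S → flowSet μ ⊆ S → q ∈ S :=
    fun S hS hsub => closure_minimal hsub hS hq
  refine ⟨q.1, q.2, ?_, rfl, ?_, hq1, ?_⟩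
  · intro s t
    refine hclosed {q | q.1 (s + t) = q.1 s * q.1 t} ?_ ?_
    · exact isClosed_eq (hev _) ((hev s).mul (hev t))
    · intro q hq
      exact hq.1 s t
  · refine hclosed {q | q.2 * q.2 = 1} ?_ ?_
    · exact isClosed_eq (continuous_snd.mul continuous_snd) continuous_const
    · rintro q ⟨hF, P, _, hP1, hP2, _⟩
      change q.2 * q.2 = 1
      rw [← hP2, ← hF, add_halves, hP1]
  · intro t
    refine hclosed {q | q.2 * q.1 t = q.1 t * q.2} ?_ ?_
    · exact isClosed_eq (continuous_snd.mul (hev t)) ((hev t).mul continuous_snd)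
    · rintro q ⟨hF, P, _, hP1, hP2, _⟩
      change q.2 * q.1 t = q.1 t * q.2
      rw [← hP2, flow_comm hF]

end Category

section Factor

/-- The σ-algebra of almost everywhere `τ`-invariant measurable sets. -/
@[reducible] def invAlg (μ : Measure X) (τ : X → X) : MeasurableSpace X where
  MeasurableSet' A := MeasurableSet A ∧ τ ⁻¹' A =ᵐ[μ] A
  measurableSet_empty := ⟨MeasurableSet.empty, by rw [preimage_empty]⟩
  measurableSet_compl A hA := ⟨hA.1.compl, by rw [preimage_compl]; exact hA.2.compl⟩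
  measurableSet_iUnion A hA := ⟨MeasurableSet.iUnion fun n => (hA n).1, by
    rw [preimage_iUnion]
    exact Filter.EventuallyEq.countable_iUnion fun n => (hA n).2⟩

variable [StandardBorelSpace X] [SigmaFinite μ]

/-- A nontrivial involution commuting with `T` gives a nontrivial factor of `T`. -/
theorem hasNontrivialFactor_of_involution {T I : Aut μ} (hII : I * I = 1) (hI1 : I ≠ 1)
    (hIT : I * T = T * I) : HasNontrivialFactor T := by
  obtain ⟨τ, hτ, rfl⟩ := Aut.mk_surj I
  obtain ⟨σ, hσ, rfl⟩ := Aut.mk_surj T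
  have hττ : ∀ᵐ x ∂μ, τ (τ x) = x := by
    rw [Aut.mk_mul_mk, Aut.one_def, Aut.mk_eq_mk_iff] at hII
    exact hII
  have hτσ : ∀ᵐ x ∂μ, τ (σ x) = σ (τ x) := by
    rw [Aut.mk_mul_mk, Aut.mk_mul_mk, Aut.mk_eq_mk_iff] at hIT
    exact hIT
  have hτσ' : ∀ᵐ x ∂μ, τ (σ.symm x) = σ.symm (τ x) := by
    have h1 := (hσ.symm σ).quasiMeasurePreserving.ae hτσ
    filter_upwards [h1] with x hx
    rw [MeasurableEquiv.apply_symm_apply] at hx
    rw [hx, MeasurableEquiv.symm_apply_apply]
  have hm : invAlg μ τ ≤ mX := fun A hA => hA.1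
  refine ⟨invAlg μ τ, ⟨hm, ?_, ?_, ?_⟩, ?_⟩
  · intro A hA
    refine ⟨σ ⁻¹' A, ⟨σ.measurable hA.1, ?_⟩, ?_⟩
    · have h1 : τ ⁻¹' (σ ⁻¹' A) =ᵐ[μ] σ ⁻¹' (τ ⁻¹' A) := by
        filter_upwards [hτσ] with x hx
        apply propext
        change σ (τ x) ∈ A ↔ τ (σ x) ∈ A
        rw [hx]
      exact h1.trans (hσ.quasiMeasurePreserving.preimage_ae_eq hA.2)
    · change μ ((σ ⁻¹' A) ∆ (σ ⁻¹' A)) = 0
      rw [symmDiff_self]
      exact measure_empty
  · intro B hB
    refine ⟨σ.symm ⁻¹' B, ⟨σ.symm.measurable hB.1, ?_⟩, ?_⟩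
    · have h1 : τ ⁻¹' (σ.symm ⁻¹' B) =ᵐ[μ] σ.symm ⁻¹' (τ ⁻¹' B) := by
        filter_upwards [hτσ'] with x hx
        apply propext
        change σ.symm (τ x) ∈ B ↔ τ (σ.symm x) ∈ B
        rw [hx]
      exact h1.trans ((hσ.symm σ).quasiMeasurePreserving.preimage_ae_eq hB.2)
    · change μ ((σ ⁻¹' (σ.symm ⁻¹' B)) ∆ B) = 0
      have h1 : σ ⁻¹' (σ.symm ⁻¹' B) = B := by
        ext x
        simp
      rw [h1, symmDiff_self]
      exact measure_empty
  · have hS : ∀ n, MeasurableSet[invAlg μ τ] (spanningSets μ n ∪ τ ⁻¹' spanningSets μ n) := by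
      intro n
      refine ⟨(measurableSet_spanningSets μ n).union (τ.measurable (measurableSet_spanningSets μ n)),
        ?_⟩
      filter_upwards [hττ] with x hx
      apply propext
      change (τ x ∈ spanningSets μ n ∨ τ (τ x) ∈ spanningSets μ n) ↔
        (x ∈ spanningSets μ n ∨ τ x ∈ spanningSets μ n)
      rw [hx]
      exact or_comm
    refine ⟨⟨⟨fun n => spanningSets μ n ∪ τ ⁻¹' spanningSets μ n, fun n => trivial, fun n => ?_,
      ?_⟩⟩⟩
    · rw [trim_measurableSet_eq hm (hS n)]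
      refine measure_union_lt_top (measure_spanningSets_lt_top μ n) ?_
      rw [hτ.measure_preimage (measurableSet_spanningSets μ n).nullMeasurableSet]
      exact measure_spanningSets_lt_top μ n
    · rw [iUnion_union_distrib, iUnion_spanningSets, univ_union]
  · by_contra hcon
    push Not at hcon
    apply hI1
    rw [Aut.one_def, Aut.mk_eq_mk_iff]
    have h1 : (τ : X → X) =ᵐ[μ] id := by
      apply Aut.ae_eq_of_preimage (μ := μ)
      intro A
      rw [preimage_id]
      obtain ⟨B, hB, hAB⟩ := hcon A.1 A.2.1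
      have h2 : A.1 =ᵐ[μ] B := measure_symmDiff_eq_zero_iff.1 hAB
      exact (hτ.quasiMeasurePreserving.preimage_ae_eq h2).trans (hB.2.trans h2.symm)
    exact h1

end Factor

end GenInf
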