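import Pool.Agent.Lib_helper15.GenInf.Main

/-!
# The weak topology: convergence, Polishness, and the final statements
-/

open Set Filter Topology MeasureTheory
open scoped symmDiff ENNReal

namespace GenInf

variable {X : Type*} [mX : MeasurableSpace X] {μ : Measure X}

namespace Aut

theorem edist_smul_ind {S T : X ≃ᵐ X} (hS : MeasurePreserving S μ μ) (hT : MeasurePreserving T μ μ)
    (A : FinSet μ) :
    edist (mk S hS • ind A) (mk T hT • ind A) = μ ((S '' A.1) ∆ (T '' A.1)) := by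
  rw [mk_smul_ind, mk_smul_ind, edist_ind, MeasurableEquiv.image_eq_preimage_symm,
    MeasurableEquiv.image_eq_preimage_symm]
  rfl

theorem edist_inv_smul_ind {S T : X ≃ᵐ X} (hS : MeasurePreserving S μ μ)
    (hT : MeasurePreserving T μ μ) (A : FinSet μ) :
    edist ((mk S hS)⁻¹ • ind A) ((mk T hT)⁻¹ • ind A) = μ ((S ⁻¹' A.1) ∆ (T ⁻¹' A.1)) := by
  rw [mk_inv, mk_inv, mk_smul_ind, mk_smul_ind, edist_ind]
  rfl

theorem tendsto_of_dist {ι : Type*} {l : Filter ι} {f : ι → Aut μ} {g : Aut μ}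
    (h : ∀ A B : FinSet μ,
      Tendsto (fun i => (f i).imageDist A.1 B.1) l (𝓝 (g.imageDist A.1 B.1)) ∧
      Tendsto (fun i => (f i).preimageDist A.1 B.1) l (𝓝 (g.preimageDist A.1 B.1))) :
    Tendsto f l (𝓝 g) := by
  have h1 : 𝓝 g = ⨅ (A : FinSet μ) (B : FinSet μ),
      (comap (fun T : Aut μ => T.imageDist A.1 B.1) (𝓝 (g.imageDist A.1 B.1)) ⊓
        comap (fun T : Aut μ => T.preimageDist A.1 B.1) (𝓝 (g.preimageDist A.1 B.1))) := by
    have h2 : weakTopology μ = ⨅ (A : FinSet μ) (B : FinSet μ),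
      (TopologicalSpace.induced (fun T : Aut μ => T.imageDist A.1 B.1) inferInstance ⊓
      TopologicalSpace.induced (fun T : Aut μ => T.preimageDist A.1 B.1) inferInstance) := rfl
    change @nhds _ (weakTopology μ) g = _
    rw [h2, nhds_iInf]
    refine iInf_congr fun A => ?_
    rw [nhds_iInf]
    refine iInf_congr fun B => ?_
    have h3 := @nhds_inf (Aut μ)
      (TopologicalSpace.induced (fun T : Aut μ => T.imageDist A.1 B.1) inferInstance)
      (TopologicalSpace.induced (fun T : Aut μ => T.preimageDist A.1 B.1) inferInstance) g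
    rw [nhds_induced, nhds_induced] at h3
    exact h3
  rw [h1, tendsto_iInf]
  intro A
  rw [tendsto_iInf]
  intro B
  rw [tendsto_inf, tendsto_comap_iff, tendsto_comap_iff]
  exact h A B

/-- Convergence in the weak topology of `Aut μ`: the classes of `T i` tend to the class of `S` if
and only if `μ (T i A ∆ S A) → 0` and `μ ((T i)⁻¹ A ∆ S⁻¹ A) → 0` for every measurable set `A` of
finite measure. -/
theorem tendsto_mk_iff {ι : Type*} {l : Filter ι} {T : ι → X ≃ᵐ X}
    {hT : ∀ i, MeasurePreserving (T i) μ μ} {S : X ≃ᵐ X} {hS : MeasurePreserving S μ μ} :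
    Tendsto (fun i => mk (T i) (hT i)) l (𝓝 (mk S hS)) ↔
      ∀ A : Set X, MeasurableSet A → μ A ≠ ∞ →
        Tendsto (fun i => μ ((T i '' A) ∆ (S '' A))) l (𝓝 0) ∧
        Tendsto (fun i => μ ((T i ⁻¹' A) ∆ (S ⁻¹' A))) l (𝓝 0) := by
  constructor
  · intro h A hA hμA
    constructor
    · have h1 := ((continuous_smul_const_of isInducing_evalBoth
        (ind (⟨A, hA, hμA⟩ : FinSet μ))).tendsto (mk S hS)).comp h
      rw [tendsto_iff_edist_tendsto_0] at h1
      refine h1.congr fun i => ?_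
      exact edist_smul_ind (hT i) hS ⟨A, hA, hμA⟩
    · have h1 := ((continuous_inv_smul_const_of isInducing_evalBoth
        (ind (⟨A, hA, hμA⟩ : FinSet μ))).tendsto (mk S hS)).comp h
      rw [tendsto_iff_edist_tendsto_0] at h1
      refine h1.congr fun i => ?_
      exact edist_inv_smul_ind (hT i) hS ⟨A, hA, hμA⟩
  · intro h
    refine tendsto_of_dist fun A B => ?_
    have hind : Tendsto (fun i => mk (T i) (hT i) • ind A) l (𝓝 (mk S hS • ind A)) := by
      rw [tendsto_iff_edist_tendsto_0]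
      refine (h A.1 A.2.1 A.2.2).1.congr fun i => ?_
      exact (edist_smul_ind (hT i) hS A).symm
    have hind' : Tendsto (fun i => (mk (T i) (hT i))⁻¹ • ind A) l (𝓝 ((mk S hS)⁻¹ • ind A)) := by
      rw [tendsto_iff_edist_tendsto_0]
      refine (h A.1 A.2.1 A.2.2).2.congr fun i => ?_
      exact (edist_inv_smul_ind (hT i) hS A).symm
    constructor
    · have h1 := hind.edist (tendsto_const_nhds (x := ind B))
      simp only [imageDist_eq]
      exact h1
    · have h1 := hind'.edist (tendsto_const_nhds (x := ind B))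
      simp only [preimageDist_eq]
      exact h1

end Aut

section Final

variable [StandardBorelSpace X] [SigmaFinite μ] [NullSingletonClass μ]

/-- The group of automorphisms of an atomless standard measure space is a Polish space for the
weak topology. -/
instance : PolishSpace (Aut μ) := inferInstance

theorem exists_dense_Gdelta_flow (hμ : μ univ = ∞) :
    ∃ R : Set (Aut μ), IsGδ R ∧ Dense R ∧ ∀ T ∈ R,
      ∃ (F : C(ℝ, Aut μ)) (I : Aut μ), (∀ s t, F (s + t) = F s * F t) ∧ F 1 = T ∧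
        I * I = 1 ∧ I ≠ 1 ∧ ∀ t, I * F t = F t * I := by
  have : NeZero μ := ⟨by rintro rfl; simp at hμ⟩
  obtain ⟨R, hR, hRG, hRd⟩ := mem_residual.1 (generic_flow (μ := μ))
  exact ⟨R, hRG, hRd, fun T hT => hR hT⟩

theorem generic_embedsInFlow (hμ : μ univ = ∞) :
    ∃ R : Set (Aut μ), IsGδ R ∧ Dense R ∧ ∀ T ∈ R, EmbedsInFlow T := by
  obtain ⟨R, h1, h2, h3⟩ := exists_dense_Gdelta_flow hμ
  refine ⟨R, h1, h2, fun T hT => ?_⟩
  obtain ⟨F, I, hF, hF1, -⟩ := h3 T hT
  exact ⟨F, F.continuous, hF, hF1⟩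

theorem generic_factor_root (hμ : μ univ = ∞) :
    ∃ R : Set (Aut μ), IsGδ R ∧ Dense R ∧ ∀ T ∈ R,
      HasNontrivialFactor T ∧ ∀ n : ℕ, 2 ≤ n → HasRoot n T := by
  obtain ⟨R, h1, h2, h3⟩ := exists_dense_Gdelta_flow hμ
  refine ⟨R, h1, h2, fun T hT => ?_⟩
  obtain ⟨F, I, hF, hF1, hI, hI1, hIF⟩ := h3 T hT
  refine ⟨?_, fun n hn => ⟨F (1 / n), ?_⟩⟩
  · rw [← hF1]
    exact hasNontrivialFactor_of_involution hI hI1 (hIF 1)
  · have hn0 : (n : ℝ) ≠ 0 := by positivity
    rw [← flow_nat hF, mul_one_div_cancel hn0, hF1]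

end Final

end GenInf
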