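import Pool.Agent.Lib_helper15.GenInf.Action

/-!
# Point realization of homomorphisms of measure algebras
-/

open Set Filter Topology MeasureTheory
open scoped symmDiff ENNReal

namespace GenInf

section Point

variable {X Y : Type*} [MeasurableSpace X] [StandardBorelSpace X] [Nonempty X] [MeasurableSpace Y]

/-- A σ-homomorphism from the measurable sets of a standard Borel space to the measurable sets of
a measure space modulo null sets is induced by a point map. -/
theorem exists_point_map (ν : Measure Y) (Φ : Set X → Set Y)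
    (hm : ∀ A, MeasurableSet A → MeasurableSet (Φ A))
    (hc : ∀ A, MeasurableSet A → Φ Aᶜ =ᵐ[ν] ((Φ A)ᶜ : Set Y))
    (hu : ∀ A : ℕ → Set X, (∀ n, MeasurableSet (A n)) →
      Φ (⋃ n, A n) =ᵐ[ν] (⋃ n, Φ (A n) : Set Y)) :
    ∃ τ : Y → X, Measurable τ ∧ ∀ A, MeasurableSet A → τ ⁻¹' A =ᵐ[ν] Φ A := by
  classical
  set i : X → (ℕ → Bool) := MeasurableSpace.mapNatBool X with hi
  have him : Measurable i := MeasurableSpace.measurable_mapNatBool X
  have hiinj : Function.Injective i := MeasurableSpace.injective_mapNatBool X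
  set C : ℕ → Set X := MeasurableSpace.natGeneratingSequence X with hC
  have hCm : ∀ n, MeasurableSet (C n) := MeasurableSpace.measurableSet_natGeneratingSequence
  have hiC : ∀ x n, i x n = decide (x ∈ C n) := fun x n => rfl
  let b : Y → (ℕ → Bool) := fun y n => decide (y ∈ Φ (C n))
  have hb : Measurable b := by
    refine measurable_pi_lambda _ fun n => ?_
    apply measurable_to_bool
    have : (fun y => b y n) ⁻¹' {true} = Φ (C n) := by
      ext y; simp [b]
    rw [this]
    exact hm _ (hCm n)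
  -- the value on univ and the empty set
  have huniv : Φ univ =ᵐ[ν] (univ : Set Y) := by
    have h1 := hu (fun n => if n = 0 then ∅ else ∅ᶜ) (fun n => by
      by_cases h : n = 0 <;> simp [h])
    have h2 : (⋃ n : ℕ, (if n = 0 then (∅ : Set X) else ∅ᶜ)) = univ := by
      apply eq_univ_of_forall
      intro x
      exact mem_iUnion.2 ⟨1, by simp⟩
    rw [h2] at h1
    have h3 := hc ∅ MeasurableSet.empty
    filter_upwards [h1, h3] with y h4 h5
    have h6 : y ∈ (⋃ n : ℕ, Φ (if n = 0 then (∅ : Set X) else ∅ᶜ)) := by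
      by_cases hy : y ∈ Φ ∅
      · exact mem_iUnion.2 ⟨0, by simpa using hy⟩
      · refine mem_iUnion.2 ⟨1, ?_⟩
        simp only [one_ne_zero, if_false]
        have : y ∈ (Φ ∅)ᶜ := hy
        exact (iff_of_eq h5).2 this
    exact eq_true ((iff_of_eq h4).2 h6) |>.trans (eq_true (mem_univ y)).symm
  have hempty : Φ ∅ =ᵐ[ν] (∅ : Set Y) := by
    have h1 := hc univ MeasurableSet.univ
    rw [compl_univ] at h1
    refine h1.trans ?_
    have := huniv.compl
    rwa [compl_univ] at this
  -- the claim on the product σ-algebra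
  have claim : ∀ B : Set (ℕ → Bool), MeasurableSet B → b ⁻¹' B =ᵐ[ν] Φ (i ⁻¹' B) := by
    intro B hB
    have hB' : MeasurableSet[MeasurableSpace.generateFrom
      {B | ∃ (i : ℕ) (A : Set Bool), MeasurableSet A ∧ Function.eval i ⁻¹' A = B}] B := by
      rw [← MeasurableSpace.pi_eq_generateFrom_projections]; exact hB
    refine MeasurableSpace.generateFrom_induction _
      (fun B _ => b ⁻¹' B =ᵐ[ν] Φ (i ⁻¹' B)) ?_ ?_ ?_ ?_ B hB'
    · rintro _ ⟨n, A, _, rfl⟩ _
      -- `A ⊆ Bool`
      have hbn : b ⁻¹' (Function.eval n ⁻¹' A) =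
          (if true ∈ A then Φ (C n) else ∅) ∪ (if false ∈ A then (Φ (C n))ᶜ else ∅) := by
        ext y
        by_cases hy : y ∈ Φ (C n) <;> by_cases h1 : true ∈ A <;> by_cases h2 : false ∈ A <;>
          simp [b, hy, h1, h2]
      have hin : i ⁻¹' (Function.eval n ⁻¹' A) =
          (if true ∈ A then C n else ∅) ∪ (if false ∈ A then (C n)ᶜ else ∅) := by
        ext x
        by_cases hx : x ∈ C n <;> by_cases h1 : true ∈ A <;> by_cases h2 : false ∈ A <;>
          simp [hiC, hx, h1, h2]
      by_cases h1 : true ∈ A <;> by_cases h2 : false ∈ A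
      · rw [hbn, hin]
        simp only [h1, h2, if_true, union_compl_self]
        exact huniv.symm
      · rw [hbn, hin]
        simp only [h1, h2, if_true, if_false, union_empty]
        exact ae_eq_refl _
      · rw [hbn, hin]
        simp only [h1, h2, if_true, if_false, empty_union]
        exact (hc _ (hCm n)).symm
      · rw [hbn, hin]
        simp only [h1, h2, if_false, union_empty]
        exact hempty.symm
    · simpa using hempty.symm
    · intro B hB ih
      have hBm : MeasurableSet B := by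
        rw [← MeasurableSpace.pi_eq_generateFrom_projections] at hB; exact hB
      rw [preimage_compl, preimage_compl]
      exact ih.compl.trans (hc _ (him hBm)).symm
    · intro s hs ih
      have hsm : ∀ n, MeasurableSet (s n) := fun n => by
        have := hs n
        rw [← MeasurableSpace.pi_eq_generateFrom_projections] at this; exact this
      rw [preimage_iUnion, preimage_iUnion]
      refine EventuallyEq.trans ?_ (hu _ fun n => him (hsm n)).symm
      exact Filter.EventuallyEq.countable_iUnion ih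
  obtain ⟨g, hg, hgi⟩ := exists_measurable_leftInverse him MeasurableSet.univ hiinj.injOn
  refine ⟨g ∘ b, hg.comp hb, fun A hA => ?_⟩
  rw [preimage_comp]
  have h5 := claim _ (hg hA)
  have : i ⁻¹' (g ⁻¹' A) = A := by
    ext x
    simp only [mem_preimage, hgi x (mem_univ x)]
  rw [this] at h5
  exact h5

end Point

section Fin

variable {X : Type*} [MeasurableSpace X] {μ : Measure X}

namespace FinSet

/-- Union. -/
def union (A B : FinSet μ) : FinSet μ :=
  ⟨A.1 ∪ B.1, A.2.1.union B.2.1, (measure_union_lt_top (lt_top_iff_ne_top.2 A.2.2)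
    (lt_top_iff_ne_top.2 B.2.2)).ne⟩

/-- Intersection. -/
def inter (A B : FinSet μ) : FinSet μ :=
  ⟨A.1 ∩ B.1, A.2.1.inter B.2.1,
    (lt_of_le_of_lt (measure_mono inter_subset_left) (lt_top_iff_ne_top.2 A.2.2)).ne⟩

/-- Empty set. -/
def empty (μ : Measure X) : FinSet μ := ⟨∅, MeasurableSet.empty, by simp⟩

/-- Intersection of a measurable set with the `n`-th spanning set. -/
noncomputable def trunc (μ : Measure X) [SigmaFinite μ] (A : Set X) (hA : MeasurableSet A)
    (n : ℕ) : FinSet μ :=
  ⟨A ∩ spanningSets μ n, hA.inter (measurableSet_spanningSets μ n),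
      (lt_of_le_of_lt (measure_mono inter_subset_right) (measure_spanningSets_lt_top μ n)).ne⟩

end FinSet

theorem iUnion_le_ae {s : ℕ → Set X} {t : Set X} (h : ∀ n, s n ≤ᵐ[μ] t) :
    (⋃ n, s n : Set X) ≤ᵐ[μ] t := by
  filter_upwards [ae_all_iff.2 h] with x hx hx'
  obtain ⟨n, hn⟩ := mem_iUnion.1 hx'
  exact hx n hn

theorem le_iUnion_ae {s : ℕ → Set X} {t : Set X} (n : ℕ) (h : t ≤ᵐ[μ] s n) :
    t ≤ᵐ[μ] (⋃ n, s n : Set X) := by
  filter_upwards [h] with x hx hx'
  exact mem_iUnion.2 ⟨n, hx hx'⟩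

theorem union_le_ae {s t u : Set X} (h : s ≤ᵐ[μ] u) (h' : t ≤ᵐ[μ] u) :
    (s ∪ t : Set X) ≤ᵐ[μ] u := by
  filter_upwards [h, h'] with x hx hx' hxx
  rcases hxx with hxx | hxx
  · exact hx hxx
  · exact hx' hxx

theorem le_union_left_ae {s t u : Set X} (h : s ≤ᵐ[μ] t) : s ≤ᵐ[μ] (t ∪ u : Set X) := by
  filter_upwards [h] with x hx hx'
  exact Or.inl (hx hx')

theorem le_union_right_ae {s t u : Set X} (h : s ≤ᵐ[μ] u) : s ≤ᵐ[μ] (t ∪ u : Set X) := by
  filter_upwards [h] with x hx hx'
  exact Or.inr (hx hx')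

/-- A homomorphism of the ring of sets of finite measure preserving distances and having dense
range is induced by a measure preserving point map. -/
theorem exists_point_map_of_finSet [StandardBorelSpace X] [Nonempty X] [SigmaFinite μ]
    (φ ψ : FinSet μ → FinSet μ)
    (hsup : ∀ A B, (φ (A.union B)).1 =ᵐ[μ] ((φ A).1 ∪ (φ B).1 : Set X))
    (hinf : ∀ A B, (φ (A.inter B)).1 =ᵐ[μ] ((φ A).1 ∩ (φ B).1 : Set X))
    (hemp : (φ (FinSet.empty μ)).1 =ᵐ[μ] (∅ : Set X))
    (hdist : ∀ A B, μ ((φ A).1 ∆ (φ B).1) = μ (A.1 ∆ B.1))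
    (hψ : ∀ A, (φ (ψ A)).1 =ᵐ[μ] A.1) :
    ∃ τ : X → X, MeasurePreserving τ μ μ ∧ ∀ A : FinSet μ, τ ⁻¹' A.1 =ᵐ[μ] (φ A).1 := by
  classical
  -- congruence
  have hcongr : ∀ A B : FinSet μ, A.1 = B.1 → φ A = φ B := by
    intro A B h
    rw [Subtype.ext h]
  -- monotonicity
  have hmono : ∀ A B : FinSet μ, A.1 ⊆ B.1 → (φ A).1 ≤ᵐ[μ] (φ B).1 := by
    intro A B h
    have h1 := hinf A B
    have h2 : φ (A.inter B) = φ A := hcongr _ _ (inter_eq_left.2 h)
    rw [h2] at h1
    refine h1.le.trans ?_
    exact Eventually.of_forall fun x hx => hx.2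
  -- countable increasing unions
  have hlim : ∀ (B : FinSet μ) (C : ℕ → FinSet μ), Monotone (fun n => (C n).1) →
      (⋃ n, (C n).1) = B.1 → (φ B).1 ≤ᵐ[μ] (⋃ n, (φ (C n)).1 : Set X) := by
    intro B C hC hB
    rw [ae_le_set]
    have h1 : ∀ n, μ ((φ B).1 \ ⋃ n, (φ (C n)).1) ≤ μ (B.1 \ (C n).1) := by
      intro n
      calc μ ((φ B).1 \ ⋃ n, (φ (C n)).1) ≤ μ ((φ B).1 ∆ (φ (C n)).1) := by
            apply measure_mono
            intro x hx
            exact Or.inl ⟨hx.1, fun h => hx.2 (mem_iUnion.2 ⟨n, h⟩)⟩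
        _ = μ (B.1 ∆ (C n).1) := hdist _ _
        _ = μ (B.1 \ (C n).1) := by
            congr 1
            rw [Set.symmDiff_def]
            have : (C n).1 \ B.1 = ∅ := by
              rw [sdiff_eq_empty, ← hB]
              exact subset_iUnion (fun n => (C n).1) n
            rw [this, union_empty]
    have h2 : Tendsto (fun n => μ (B.1 \ (C n).1)) atTop (𝓝 0) := by
      have h3 := tendsto_measure_iInter_atTop (μ := μ) (s := fun n => B.1 \ (C n).1)
        (fun n => (B.2.1.diff (C n).2.1).nullMeasurableSet)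
        (fun a b hab => sdiff_subset_sdiff_right (hC hab))
        ⟨0, (lt_of_le_of_lt (measure_mono sdiff_subset) (lt_top_iff_ne_top.2 B.2.2)).ne⟩
      have h4 : (⋂ n, B.1 \ (C n).1) = ∅ := by
        rw [← sdiff_iUnion, hB, sdiff_self]
      rw [h4, measure_empty] at h3
      exact h3
    exact le_antisymm (ge_of_tendsto' h2 h1) bot_le
  -- the extension to all measurable sets
  let Φ : Set X → Set X := fun A =>
    if h : MeasurableSet A then ⋃ n, (φ (FinSet.trunc μ A h n)).1 else ∅
  have hΦ : ∀ A (h : MeasurableSet A), Φ A = ⋃ n, (φ (FinSet.trunc μ A h n)).1 := fun A h => by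
    simp only [Φ, h, dif_pos]
  have hΦm : ∀ A, MeasurableSet A → MeasurableSet (Φ A) := by
    intro A hA
    rw [hΦ A hA]
    exact MeasurableSet.iUnion fun n => (φ _).2.1
  -- finite sets
  have hfin : ∀ A : FinSet μ, (φ A).1 ≤ᵐ[μ] Φ A.1 := by
    intro A
    rw [hΦ A.1 A.2.1]
    refine hlim A (fun n => FinSet.trunc μ A.1 A.2.1 n) ?_ ?_
    · intro a b hab
      exact inter_subset_inter_right _ (monotone_spanningSets μ hab)
    · change (⋃ n, A.1 ∩ spanningSets μ n) = A.1
      rw [← inter_iUnion, iUnion_spanningSets, inter_univ]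
  have hfin' : ∀ A : FinSet μ, Φ A.1 ≤ᵐ[μ] (φ A).1 := by
    intro A
    rw [hΦ A.1 A.2.1]
    exact iUnion_le_ae fun n => hmono _ _ inter_subset_left
  have hfin_eq : ∀ A : FinSet μ, (φ A).1 =ᵐ[μ] Φ A.1 := fun A => (hfin A).antisymm (hfin' A)
  have hΦle : ∀ A B, MeasurableSet A → MeasurableSet B → A ⊆ B → Φ A ≤ᵐ[μ] Φ B := by
    intro A B hA hB hAB
    rw [hΦ A hA, hΦ B hB]
    exact iUnion_le_ae fun n => le_iUnion_ae n (hmono _ _ (inter_subset_inter_left _ hAB))
  -- countable unions
  have hΦu : ∀ A : ℕ → Set X, (∀ n, MeasurableSet (A n)) →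
      Φ (⋃ n, A n) =ᵐ[μ] (⋃ n, Φ (A n) : Set X) := by
    intro A hA
    have hU : MeasurableSet (⋃ n, A n) := MeasurableSet.iUnion hA
    apply Filter.EventuallyLE.antisymm
    · rw [hΦ _ hU]
      refine iUnion_le_ae fun n => ?_
      -- partial unions
      let D : ℕ → Set X := fun K => ⋃ k ∈ Finset.range K, A k
      have hD : ∀ K, MeasurableSet (D K) := fun K =>
        Finset.measurableSet_biUnion _ fun k _ => hA k
      have hDmono : Monotone D := by
        intro a b hab x hx
        simp only [D, Finset.mem_range, mem_iUnion, exists_prop] at hx ⊢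
        obtain ⟨k, hk, hx⟩ := hx
        exact ⟨k, lt_of_lt_of_le hk hab, hx⟩
      have hDU : (⋃ K, D K) = ⋃ n, A n := by
        ext x
        simp only [D, Finset.mem_range, mem_iUnion, exists_prop]
        constructor
        · rintro ⟨K, k, _, hx⟩; exact ⟨k, hx⟩
        · rintro ⟨k, hx⟩; exact ⟨k + 1, k, Nat.lt_succ_self k, hx⟩
      have h1 := hlim (FinSet.trunc μ _ hU n) (fun K => FinSet.trunc μ (D K) (hD K) n)
        (fun a b hab => inter_subset_inter_left _ (hDmono hab))
        (by
          change (⋃ K, D K ∩ spanningSets μ n) = (⋃ n, A n) ∩ spanningSets μ n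
          rw [← iUnion_inter, hDU])
      refine h1.trans (iUnion_le_ae fun K => ?_)
      induction K with
      | zero =>
        have h2 : φ (FinSet.trunc μ (D 0) (hD 0) n) = φ (FinSet.empty μ) := by
          apply hcongr
          change D 0 ∩ spanningSets μ n = ∅
          simp [D]
        rw [h2]
        filter_upwards [hemp] with x hx hx'
        exact ((iff_of_eq hx).1 hx').elim
      | succ K ih =>
        have h2 : φ (FinSet.trunc μ (D (K + 1)) (hD (K + 1)) n) =
            φ ((FinSet.trunc μ (D K) (hD K) n).union (FinSet.trunc μ (A K) (hA K) n)) := by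
          apply hcongr
          change D (K + 1) ∩ spanningSets μ n =
            (D K ∩ spanningSets μ n) ∪ (A K ∩ spanningSets μ n)
          rw [← union_inter_distrib_right]
          congr 1
          ext x
          simp only [D, Finset.mem_range, mem_iUnion, exists_prop, mem_union]
          constructor
          · rintro ⟨k, hk, hx⟩
            rcases Nat.lt_succ_iff_lt_or_eq.1 hk with h | h
            · exact Or.inl ⟨k, h, hx⟩
            · exact Or.inr (h ▸ hx)
          · rintro (⟨k, hk, hx⟩ | hx)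
            · exact ⟨k, Nat.lt_succ_of_lt hk, hx⟩
            · exact ⟨K, Nat.lt_succ_self K, hx⟩
        rw [h2]
        refine (hsup _ _).le.trans (union_le_ae ih ?_)
        refine le_iUnion_ae K ?_
        rw [hΦ _ (hA K)]
        exact le_iUnion_ae n (ae_eq_refl _).le
    · exact iUnion_le_ae fun n => hΦle _ _ (hA n) hU (subset_iUnion A n)
  -- complements
  have hΦc : ∀ A, MeasurableSet A → Φ Aᶜ =ᵐ[μ] ((Φ A)ᶜ : Set X) := by
    intro A hA
    have hdisj : (Φ Aᶜ ∩ Φ A : Set X) =ᵐ[μ] (∅ : Set X) := by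
      have h1 : ∀ n m, ((φ (FinSet.trunc μ Aᶜ hA.compl n)).1 ∩ (φ (FinSet.trunc μ A hA m)).1 : Set X)
          =ᵐ[μ] (∅ : Set X) := by
        intro n m
        refine (hinf _ _).symm.trans ?_
        have h2 : φ ((FinSet.trunc μ Aᶜ hA.compl n).inter (FinSet.trunc μ A hA m)) =
            φ (FinSet.empty μ) := by
          apply hcongr
          change (Aᶜ ∩ spanningSets μ n) ∩ (A ∩ spanningSets μ m) = ∅
          ext x
          simp only [mem_inter_iff, mem_compl_iff, mem_empty_iff_false, iff_false]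
          rintro ⟨⟨h, _⟩, h', _⟩
          exact h h'
        rw [h2]
        exact hemp
      have h3 : ∀ᵐ x ∂μ, ∀ n m, ¬ (x ∈ (φ (FinSet.trunc μ Aᶜ hA.compl n)).1 ∧
          x ∈ (φ (FinSet.trunc μ A hA m)).1) := by
        rw [ae_all_iff]; intro n
        rw [ae_all_iff]; intro m
        filter_upwards [h1 n m] with x hx hx'
        exact ((iff_of_eq hx).1 hx').elim
      filter_upwards [h3] with x hx
      apply propext
      constructor
      · rintro ⟨h4, h5⟩
        rw [hΦ _ hA.compl] at h4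
        rw [hΦ _ hA] at h5
        obtain ⟨n, hn⟩ := mem_iUnion.1 h4
        obtain ⟨m, hm⟩ := mem_iUnion.1 h5
        exact (hx n m ⟨hn, hm⟩).elim
      · intro h; exact h.elim
    have hcover : (univ : Set X) ≤ᵐ[μ] (Φ A ∪ Φ Aᶜ : Set X) := by
      have h1 : (⋃ m, spanningSets μ m) = (univ : Set X) := iUnion_spanningSets μ
      rw [← h1]
      refine iUnion_le_ae fun m => ?_
      have h2 : ∀ D : FinSet μ, (φ D).1 ≤ᵐ[μ] (Φ A ∪ Φ Aᶜ : Set X) := by
        intro D
        refine (hfin D).trans ?_
        rw [hΦ D.1 D.2.1]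
        refine iUnion_le_ae fun n => ?_
        have h3 : (φ (FinSet.trunc μ D.1 D.2.1 n)).1 ≤ᵐ[μ]
            (φ ((FinSet.trunc μ A hA n).union (FinSet.trunc μ Aᶜ hA.compl n))).1 := by
          apply hmono
          change D.1 ∩ spanningSets μ n ⊆ (A ∩ spanningSets μ n) ∪ (Aᶜ ∩ spanningSets μ n)
          rw [← union_inter_distrib_right, union_compl_self, univ_inter]
          exact inter_subset_right
        refine h3.trans ((hsup _ _).le.trans (union_le_ae ?_ ?_))
        · apply le_union_left_ae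
          rw [hΦ _ hA]
          exact le_iUnion_ae n (ae_eq_refl _).le
        · apply le_union_right_ae
          rw [hΦ _ hA.compl]
          exact le_iUnion_ae n (ae_eq_refl _).le
      let S : FinSet μ := ⟨spanningSets μ m, measurableSet_spanningSets μ m,
        (measure_spanningSets_lt_top μ m).ne⟩
      exact (hψ S).symm.le.trans (h2 (ψ S))
    filter_upwards [hdisj, hcover] with x h1 h2
    apply propext
    constructor
    · intro h3 h4
      exact ((iff_of_eq h1).1 ⟨h3, h4⟩).elim
    · intro h3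
      rcases h2 (mem_univ x) with h | h
      · exact (h3 h).elim
      · exact h
  obtain ⟨τ, hτ, hτΦ⟩ := exists_point_map μ Φ hΦm hΦc hΦu
  have hτφ : ∀ A : FinSet μ, τ ⁻¹' A.1 =ᵐ[μ] (φ A).1 := fun A =>
    (hτΦ A.1 A.2.1).trans (hfin_eq A).symm
  have hμφ : ∀ A : FinSet μ, μ (φ A).1 = μ A.1 := by
    intro A
    have h1 := hdist A (FinSet.empty μ)
    have h2 : μ ((φ A).1 ∆ (φ (FinSet.empty μ)).1) = μ ((φ A).1 ∆ ∅) :=
      measure_congr ((ae_eq_refl _).symmDiff hemp)
    rw [h2] at h1
    simpa [FinSet.empty, ← Set.bot_eq_empty] using h1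
  refine ⟨τ, ⟨hτ, ?_⟩, hτφ⟩
  ext A hA
  rw [Measure.map_apply hτ hA]
  have h1 : A = ⋃ n, A ∩ spanningSets μ n := by
    rw [← inter_iUnion, iUnion_spanningSets, inter_univ]
  have hmonoA : Monotone fun n => A ∩ spanningSets μ n := fun a b hab =>
    inter_subset_inter_right _ (monotone_spanningSets μ hab)
  have h2 : μ (τ ⁻¹' A) = ⨆ n, μ (τ ⁻¹' (A ∩ spanningSets μ n)) := by
    conv_lhs => rw [h1, preimage_iUnion]
    exact Monotone.measure_iUnion (fun a b hab => preimage_mono (hmonoA hab))
  have h3 : μ A = ⨆ n, μ (A ∩ spanningSets μ n) := by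
    conv_lhs => rw [h1]
    exact Monotone.measure_iUnion hmonoA
  rw [h2, h3]
  congr 1
  funext n
  exact (measure_congr (hτφ (FinSet.trunc μ A hA n))).trans (hμφ _)

end Fin

end GenInf
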