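import Pool.Agent.Lib_helper15.GenInf.Lift

/-!
# Rotations and skew products on `X × 𝕋`
-/

open Set Filter Topology MeasureTheory
open scoped symmDiff ENNReal

namespace GenInf

/-- The circle. -/
abbrev Circ := UnitAddCircle

instance : IsProbabilityMeasure (volume : Measure Circ) := ⟨UnitAddCircle.measure_univ⟩

variable {X : Type*} [mX : MeasurableSpace X] {μ : Measure X}

section Rot

variable [SFinite μ]

/-- Rotation in the second coordinate. -/
noncomputable def rotE (X : Type*) [MeasurableSpace X] (a : Circ) : X × Circ ≃ᵐ X × Circ :=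
  MeasurableEquiv.prodCongr (MeasurableEquiv.refl X) (MeasurableEquiv.addRight a)

theorem rotE_apply (a : Circ) (p : X × Circ) : rotE X a p = (p.1, p.2 + a) := rfl

theorem rotE_symm_apply (a : Circ) (p : X × Circ) : (rotE X a).symm p = (p.1, p.2 - a) := by
  rw [MeasurableEquiv.symm_apply_eq, rotE_apply]
  simp

theorem rotE_mp (a : Circ) :
    MeasurePreserving (rotE X a) (μ.prod (volume : Measure Circ)) (μ.prod volume) :=
  (MeasurePreserving.id μ).prod (measurePreserving_add_right volume a)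

/-- Rotation as an element of the group. -/
noncomputable def rotAut (μ : Measure X) [SFinite μ] (a : Circ) :
    Aut (μ.prod (volume : Measure Circ)) := Aut.mk (rotE X a) (rotE_mp a)

theorem rotAut_add (a b : Circ) : rotAut μ (a + b) = rotAut μ a * rotAut μ b := by
  rw [rotAut, rotAut, rotAut, Aut.mk_mul_mk, Aut.mk_eq_mk_iff]
  refine Eventually.of_forall fun p => ?_
  change (p.1, p.2 + (a + b)) = (p.1, p.2 + b + a)
  rw [add_assoc, add_comm b a]

theorem rotAut_zero : rotAut μ 0 = 1 := by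
  rw [rotAut, Aut.one_def, Aut.mk_eq_mk_iff]
  refine Eventually.of_forall fun p => ?_
  change (p.1, p.2 + 0) = (p.1, p.2)
  rw [add_zero]

/-- Continuity of translations in `L¹` of the circle. -/
theorem tendsto_lintegral_translate {f : Circ → ℝ} (hf : Measurable f)
    (hfi : ∫⁻ s, ‖f s‖ₑ ≠ ∞) :
    Tendsto (fun a : Circ => ∫⁻ s, ‖f (s - a) - f s‖ₑ) (𝓝 0) (𝓝 0) := by
  have hmem : MemLp f 1 (volume : Measure Circ) := by
    refine ⟨hf.aestronglyMeasurable, ?_⟩
    rw [eLpNorm_one_eq_lintegral_enorm]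
    exact lt_top_iff_ne_top.2 hfi
  let g : Circ → C(Circ, Circ) := fun a => ⟨fun s => s - a, by fun_prop⟩
  have hg : Continuous g := by
    apply ContinuousMap.continuous_of_continuous_uncurry
    change Continuous fun p : Circ × Circ => p.2 - p.1
    fun_prop
  have hgm : ∀ a, MeasurePreserving (g a) (volume : Measure Circ) volume := fun a =>
    measurePreserving_sub_right volume a
  have h1 := Filter.Tendsto.compMeasurePreservingLp (l := 𝓝 (0 : Circ)) (f := fun _ => hmem.toLp f)
    tendsto_const_nhds (hg.tendsto 0) hgm (hgm 0) ENNReal.one_ne_top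
  rw [tendsto_iff_edist_tendsto_0] at h1
  refine h1.congr fun a => ?_
  rw [Lp.toLp_compMeasurePreserving, Lp.toLp_compMeasurePreserving, Lp.edist_toLp_toLp,
    eLpNorm_one_eq_lintegral_enorm]
  apply lintegral_congr
  intro s
  change ‖f (s - a) - f (s - 0)‖ₑ = _
  rw [sub_zero]

theorem tendsto_rotAut_smul (f : E1 (μ.prod (volume : Measure Circ))) :
    Tendsto (fun a : Circ => rotAut μ a • f) (𝓝 0) (𝓝 f) := by
  rw [tendsto_iff_edist_tendsto_0]
  have hfm : Measurable (f : X × Circ → ℝ) := (Lp.stronglyMeasurable f).measurable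
  have h1 : ∀ a : Circ, edist (rotAut μ a • f) f =
      ∫⁻ x, ∫⁻ s, ‖f (x, s - a) - f (x, s)‖ₑ ∂volume ∂μ := by
    intro a
    have h3 : Measurable fun p : X × Circ => ‖f (p.1, p.2 - a) - f (p.1, p.2)‖ₑ :=
      ((hfm.comp (measurable_fst.prodMk (measurable_snd.sub_const a))).sub hfm).enorm
    rw [Lp.edist_def, eLpNorm_one_eq_lintegral_enorm]
    calc ∫⁻ p, ‖((rotAut μ a • f : E1 (μ.prod volume)) - f : X × Circ → ℝ) p‖ₑ ∂(μ.prod volume)
        = ∫⁻ p, ‖f (p.1, p.2 - a) - f (p.1, p.2)‖ₑ ∂(μ.prod volume) := by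
          apply lintegral_congr_ae
          have h2 : (rotAut μ a • f : E1 _) =ᵐ[μ.prod volume] f ∘ (rotE X a).symm :=
            Lp.coeFn_compMeasurePreserving f _
          filter_upwards [h2] with p hp
          rw [Pi.sub_apply, hp, Function.comp_apply, rotE_symm_apply]
      _ = _ := lintegral_prod _ h3.aemeasurable
  simp only [h1]
  have hfin : ∫⁻ x, ∫⁻ s, ‖f (x, s)‖ₑ ∂volume ∂μ < ∞ := by
    rw [← lintegral_prod _ hfm.enorm.aemeasurable, ← eLpNorm_one_eq_lintegral_enorm]
    exact Lp.eLpNorm_lt_top f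
  have hae : ∀ᵐ x ∂μ, ∫⁻ s, ‖f (x, s)‖ₑ ∂volume ≠ ∞ := by
    have hm : Measurable fun x => ∫⁻ s, ‖f (x, s)‖ₑ ∂(volume : Measure Circ) :=
      hfm.enorm.lintegral_prod_right'
    filter_upwards [ae_lt_top hm hfin.ne] with x hx using hx.ne
  have h0 : (0 : ℝ≥0∞) = ∫⁻ _ : X, 0 ∂μ := by simp
  rw [h0]
  refine tendsto_lintegral_filter_of_dominated_convergence
    (fun x => ∫⁻ s, ‖f (x, s)‖ₑ ∂(volume : Measure Circ) + ∫⁻ s, ‖f (x, s)‖ₑ ∂(volume : Measure Circ))
    ?_ ?_ ?_ ?_
  · refine Eventually.of_forall fun a => ?_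
    have : Measurable fun p : X × Circ => ‖f (p.1, p.2 - a) - f (p.1, p.2)‖ₑ :=
      ((hfm.comp (measurable_fst.prodMk (measurable_snd.sub_const a))).sub hfm).enorm
    exact this.lintegral_prod_right'
  · refine Eventually.of_forall fun a => Eventually.of_forall fun x => ?_
    have hfx : Measurable fun s => f (x, s) := hfm.comp (measurable_const.prodMk measurable_id)
    calc ∫⁻ s, ‖f (x, s - a) - f (x, s)‖ₑ ≤ ∫⁻ s, (‖f (x, s - a)‖ₑ + ‖f (x, s)‖ₑ) :=
          lintegral_mono fun s => enorm_sub_le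
      _ = (∫⁻ s, ‖f (x, s - a)‖ₑ) + ∫⁻ s, ‖f (x, s)‖ₑ :=
          lintegral_add_right _ hfx.enorm
      _ = _ := by
          congr 1
          exact (measurePreserving_sub_right (volume : Measure Circ) a).lintegral_comp
            (f := fun s => ‖f (x, s)‖ₑ) hfx.enorm
  · rw [lintegral_add_left]
    · exact (ENNReal.add_lt_top.2 ⟨hfin, hfin⟩).ne
    · exact hfm.enorm.lintegral_prod_right'
  · filter_upwards [hae] with x hx
    exact tendsto_lintegral_translate (hfm.comp (measurable_const.prodMk measurable_id)) hx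

end Rot

section Skew

variable [SFinite μ]

/-- A representative of the `m`-th power of `T`. -/
noncomputable def pw (T : Aut μ) (m : ℤ) : X ≃ᵐ X := (Quotient.out (T ^ m)).1

omit [SFinite μ] in
theorem pw_mp (T : Aut μ) (m : ℤ) : MeasurePreserving (pw T m) μ μ := (Quotient.out (T ^ m)).2

omit [SFinite μ] in
theorem mk_pw (T : Aut μ) (m : ℤ) : Aut.mk (pw T m) (pw_mp T m) = T ^ m :=
  Quotient.out_eq (T ^ m)

/-- The skew product `(x, s) ↦ (T ^ c(s) x, s)`. -/
noncomputable def skewE (T : Aut μ) {c : Circ → ℤ} (hc : Measurable c) :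
    X × Circ ≃ᵐ X × Circ where
  toFun p := (pw T (c p.2) p.1, p.2)
  invFun p := ((pw T (c p.2)).symm p.1, p.2)
  left_inv p := by simp
  right_inv p := by simp
  measurable_toFun := by
    have h1 : Measurable (fun z : ℤ × X => pw T z.1 z.2) :=
      measurable_from_prod_countable_right fun m => (pw T m).measurable
    exact (h1.comp ((hc.comp measurable_snd).prodMk measurable_fst)).prodMk measurable_snd
  measurable_invFun := by
    have h1 : Measurable (fun z : ℤ × X => (pw T z.1).symm z.2) :=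
      measurable_from_prod_countable_right fun m => (pw T m).symm.measurable
    exact (h1.comp ((hc.comp measurable_snd).prodMk measurable_fst)).prodMk measurable_snd

omit [SFinite μ] in
theorem skewE_apply (T : Aut μ) {c : Circ → ℤ} (hc : Measurable c) (p : X × Circ) :
    skewE T hc p = (pw T (c p.2) p.1, p.2) := rfl

omit [SFinite μ] in
theorem skewE_symm_apply (T : Aut μ) {c : Circ → ℤ} (hc : Measurable c) (p : X × Circ) :
    (skewE T hc).symm p = ((pw T (c p.2)).symm p.1, p.2) := rfl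

theorem skewE_mp (T : Aut μ) {c : Circ → ℤ} (hc : Measurable c) :
    MeasurePreserving (skewE T hc) (μ.prod (volume : Measure Circ)) (μ.prod volume) := by
  refine ⟨(skewE T hc).measurable, ?_⟩
  ext A hA
  rw [Measure.map_apply (skewE T hc).measurable hA,
    Measure.prod_apply_symm ((skewE T hc).measurable hA), Measure.prod_apply_symm hA]
  apply lintegral_congr
  intro s
  have h1 : (fun x => (x, s)) ⁻¹' ((skewE T hc) ⁻¹' A) =
      (pw T (c s)) ⁻¹' ((fun x => (x, s)) ⁻¹' A) := rfl
  rw [h1, (pw_mp T (c s)).measure_preimage]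
  exact (measurable_prodMk_right hA).nullMeasurableSet

/-- The skew product as an element of the group. -/
noncomputable def skewAut (T : Aut μ) {c : Circ → ℤ} (hc : Measurable c) :
    Aut (μ.prod (volume : Measure Circ)) := Aut.mk (skewE T hc) (skewE_mp T hc)

/-- The conjugated rotation. -/
noncomputable def conjRot (T : Aut μ) {c : Circ → ℤ} (hc : Measurable c) (a : Circ) :
    Aut (μ.prod (volume : Measure Circ)) := skewAut T hc * rotAut μ a * (skewAut T hc)⁻¹

theorem conjRot_add (T : Aut μ) {c : Circ → ℤ} (hc : Measurable c) (a b : Circ) :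
    conjRot T hc (a + b) = conjRot T hc a * conjRot T hc b := by
  simp only [conjRot, rotAut_add]
  group

theorem conjRot_zero (T : Aut μ) {c : Circ → ℤ} (hc : Measurable c) : conjRot T hc 0 = 1 := by
  simp only [conjRot, rotAut_zero]
  group

omit [SFinite μ] in
theorem pw_smul_ae (T : Aut μ) (x : E1 μ) (m n : ℤ) :
    ∀ᵐ y ∂μ, x (pw T m ((pw T n).symm y)) = ((T ^ (n - m)) • x : E1 μ) y := by
  have h1 : T ^ (n - m) = Aut.mk (pw T n) (pw_mp T n) * (Aut.mk (pw T m) (pw_mp T m))⁻¹ := by
    rw [mk_pw, mk_pw, zpow_sub]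
  rw [h1, Aut.mk_inv, Aut.mk_mul_mk, Aut.mk_smul]
  have h2 := Lp.coeFn_compMeasurePreserving x
    (((pw_mp T n).comp ((pw_mp T m).symm _)).symm ((pw T m).symm.trans (pw T n)))
  filter_upwards [h2] with y hy
  rw [hy]
  rfl

theorem coeFn_conjRot_smul_lift (T : Aut μ) {c : Circ → ℤ} (hc : Measurable c) (a : Circ)
    (x : E1 μ) : (conjRot T hc a • lift volume x : E1 _) =ᵐ[μ.prod volume]
      fun p => ((T ^ (c p.2 - c (p.2 - a))) • x : E1 μ) p.1 := by
  have h0 : conjRot T hc a = Aut.mk ((((skewE T hc).symm).trans (rotE X a)).trans (skewE T hc))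
      ((skewE_mp T hc).comp ((rotE_mp a).comp ((skewE_mp T hc).symm _))) := rfl
  rw [h0, Aut.mk_smul]
  have h1 := Lp.coeFn_compMeasurePreserving (lift (μ := μ) (volume : Measure Circ) x)
    (((skewE_mp T hc).comp ((rotE_mp a).comp ((skewE_mp T hc).symm _))).symm
      ((((skewE T hc).symm).trans (rotE X a)).trans (skewE T hc)))
  have h2 := (((skewE_mp T hc).comp ((rotE_mp a).comp ((skewE_mp T hc).symm _))).symm
      ((((skewE T hc).symm).trans (rotE X a)).trans
        (skewE T hc))).quasiMeasurePreserving.ae (coeFn_lift (lam := (volume : Measure Circ)) x)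
  have h3 : ∀ᵐ y ∂μ, ∀ m n : ℤ, x (pw T m ((pw T n).symm y)) = ((T ^ (n - m)) • x : E1 μ) y := by
    rw [ae_all_iff]; intro m
    rw [ae_all_iff]; intro n
    exact pw_smul_ae T x m n
  have h4 : ∀ᵐ p ∂(μ.prod (volume : Measure Circ)), ∀ m n : ℤ,
      x (pw T m ((pw T n).symm p.1)) = ((T ^ (n - m)) • x : E1 μ) p.1 :=
    Measure.quasiMeasurePreserving_fst.ae h3
  filter_upwards [h1, h2, h4] with p h5 h6 h7
  rw [h5, Function.comp_apply, h6, ← h7 (c (p.2 - a)) (c p.2)]
  have h8 : ((((skewE T hc).symm).trans (rotE X a)).trans (skewE T hc)).symm p =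
      (skewE T hc) ((rotE X a).symm ((skewE T hc).symm p)) := rfl
  rw [h8, skewE_symm_apply, rotE_symm_apply, skewE_apply]

theorem edist_conjRot_smul_lift (T : Aut μ) {c : Circ → ℤ} (hc : Measurable c) (a : Circ)
    (x y : E1 μ) : edist (conjRot T hc a • lift (volume : Measure Circ) x)
      (lift (volume : Measure Circ) y) =
      ∫⁻ s : Circ, edist ((T ^ (c s - c (s - a))) • x : E1 μ) y := by
  have hm1 : Measurable fun z : ℤ × X => ((T ^ z.1) • x : E1 μ) z.2 :=
    measurable_from_prod_countable_right fun m =>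
      (Lp.stronglyMeasurable ((T ^ m) • x : E1 μ)).measurable
  have hc2 : Measurable fun p : X × Circ => c p.2 - c (p.2 - a) :=
    (hc.comp measurable_snd).sub (hc.comp (measurable_snd.sub_const a))
  have hm2 : Measurable fun p : X × Circ =>
      ‖((T ^ (c p.2 - c (p.2 - a))) • x : E1 μ) p.1 - y p.1‖ₑ :=
    ((hm1.comp (hc2.prodMk measurable_fst)).sub
      ((Lp.stronglyMeasurable y).measurable.comp measurable_fst)).enorm
  rw [Lp.edist_def, eLpNorm_one_eq_lintegral_enorm]
  have h3 : ∫⁻ s : Circ, edist ((T ^ (c s - c (s - a))) • x : E1 μ) y =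
      ∫⁻ s : Circ, ∫⁻ z, ‖((T ^ (c s - c (s - a))) • x : E1 μ) z - y z‖ₑ ∂μ := by
    apply lintegral_congr
    intro s
    rw [Lp.edist_def, eLpNorm_one_eq_lintegral_enorm]
    rfl
  rw [h3, ← lintegral_prod_symm (fun p : X × Circ =>
    ‖((T ^ (c p.2 - c (p.2 - a))) • x : E1 μ) p.1 - y p.1‖ₑ) hm2.aemeasurable]
  apply lintegral_congr_ae
  filter_upwards [coeFn_conjRot_smul_lift T hc a x,
    coeFn_lift (lam := (volume : Measure Circ)) y] with p h1 h2
  rw [Pi.sub_apply, h1, h2]

end Skew

end GenInf
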